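import Pool.Agent.W984.OL.Orbit

set_option autoImplicit false
set_option linter.unusedSimpArgs false
set_option linter.unusedVariables false

/-! Finding the representative of a word by following the links of the data base. -/

namespace Pool.Agent.W984.OL

open Equiv

/-- The word stored in row `a`. -/
def wd (m : ℕ) (W : ℕ → ℕ → ℕ → ℕ) (a : ℕ) : Fin m → ℕ := fun x => W a x 0

/-- One position of the word in row `0` of array `8`. -/
def canonStep : Prog :=
  .seq (.op (.load 15 8 3 14 3))
    (.ite (.eq 15 3) .skip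
      (.seq (.op (.load 16 9 3 14 3))
        (.seq (.op (.load 17 3 19 16 15))
          (.seq (.op (.load 18 4 19 16 15))
            (.seq (cmpL 9 3 5 18 9 3)
              (.seq (.op (.pred 17)) (.op (.copy 19 17))))))))

/-- Find the representative of the word in row `0` of array `8`. -/
def canonP : Prog := .seq (.op (.const 19 0)) (.seq (idL 9 3) (forP 14 0 canonStep))

/-- The links of the data base are correct. -/
structure LinkOK (m : ℕ) (G : Subgroup (Perm (Fin m))) (N np : ℕ)
    (W LK LP P : ℕ → ℕ → ℕ → ℕ) : Prop where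
  pos : 0 < N
  root : ∀ x : Fin m, W 0 x 0 = 0
  link : ∀ a < N, ∀ y : Fin m, ∀ c, LK a y c ≠ 0 → LK a y c ≤ N ∧ LP a y c < np ∧
    pm m (row P (LP a y c)) ∈ G ∧
    act (pm m (row P (LP a y c))) (Function.update (wd m W a) y c) = wd m W (LK a y c - 1)

/-- Time bound for `canonP`. -/
def tCan (m : ℕ) : ℕ := m * (8 * m + 20) + 4 * m + 12

theorem canonP_spec {m k L : ℕ} {M : Mem} {G : Subgroup (Perm (Fin m))} {N np : ℕ}
    (hm : M.v 0 = m) (hz : M.v 3 = 0) (hP : PoolOK m (M.a 5) np)
    (hD : LinkOK m G N np (M.a 1) (M.a 3) (M.a 4) (M.a 5))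
    (hflag : ∀ a < N, lev (wd m (M.a 1) a) < L → ∀ y : Fin m, ∀ c, wd m (M.a 1) a y = 0 →
      c ≠ 0 → c < k → M.a 3 a y c ≠ 0)
    (w : Fin m → ℕ) (hw : ∀ x : Fin m, M.a 8 0 x 0 = w x) (hwk : ∀ x, w x < k)
    (hL : lev w ≤ L) :
    Ex canonP M (tCan m) (fun M' => M'.v 19 < N ∧ ∃ g ∈ G, RP (row (M'.a 9) 0) g ∧
      act g w = wd m (M.a 1) (M'.v 19)) := by
  unfold canonP tCan
  refine (Ex.opSeq (T2 := m * (8 * m + 20) + 4 * m + 10) ?_)
  set M1 := Op.exec M (.const 19 0) with hM1
  have v1 : ∀ x, x ≠ 19 → M1.v x = M.v x := by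
    intro x hx; rw [hM1]; simp [Op.exec, hx]
  have v119 : M1.v 19 = 0 := by rw [hM1]; simp [Op.exec]
  have a1 : M1.a = M.a := rfl
  refine (Ex.bind (T2 := m * (8 * m + 20) + 3)
    (idL_spec (M := M1) (m := m) 9 3 ((v1 0 (by decide)).trans hm) ((v1 3 (by decide)).trans hz)
      (by decide)) ?_).le (by omega)
  intro M2 hf2 ha2
  have v13 : M1.v 3 = 0 := (v1 3 (by decide)).trans hz
  rw [v13] at ha2
  have v2 : ∀ x, x ≠ 19 → x < 60 → M2.v x = M.v x := by
    intro x hx hx'
    rw [hf2.v x (by simp [idL, forP, Prog.wv, Op.wv]; omega), v1 x hx]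
  have a2 : ∀ r, r ≠ 9 → M2.a r = M.a r := by
    intro r hr
    rw [ha2, setRow_a_ne _ _ _ _ _ _ hr, a1]
  refine Ex.forP (T := 8 * m + 17) (fun x M3 => M3.v 19 < N ∧ ∃ g ∈ G, RP (row (M3.a 9) 0) g ∧
      act g (trunc w x) = wd m (M.a 1) (M3.v 19)) ((v2 0 (by decide) (by decide)).trans hm)
      rfl rfl rfl ?_ ?_ ?_
  · have v219 : M2.v 19 = 0 := (hf2.v 19 rfl).trans v119
    refine ⟨?_, 1, one_mem _, ?_, ?_⟩
    · rw [setV_v, if_neg (by decide), v219]; exact hD.pos
    · rw [setV_a, ha2]
      exact RP_setRow _ _ _ _ _ RP_id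
    · rw [act_one, trunc_zero, setV_v, if_neg (by decide), v219]
      funext x
      exact (hD.root x).symm
  · intro x hx M3 hf3 hv3 hI
    obtain ⟨hid, g, hgG, hg, hact⟩ := hI
    have v3 : ∀ y, (forP 14 0 canonStep).wv y = false → y ≠ 19 → y < 60 → M3.v y = M.v y := by
      intro y hy hy1 hy2
      rw [hf3.v y hy, v2 y hy1 hy2]
    have v33 : M3.v 3 = 0 := (v3 3 rfl (by decide) (by decide)).trans hz
    have a38 : M3.a 8 = M.a 8 := (hf3.a 8 rfl).trans (a2 8 (by decide))
    have a33 : M3.a 3 = M.a 3 := (hf3.a 3 rfl).trans (a2 3 (by decide))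
    have a34 : M3.a 4 = M.a 4 := (hf3.a 4 rfl).trans (a2 4 (by decide))
    have a35 : M3.a 5 = M.a 5 := (hf3.a 5 rfl).trans (a2 5 (by decide))
    have hwx : M.a 8 0 x 0 = w ⟨x, hx⟩ := hw ⟨x, hx⟩
    refine (Ex.opSeq (T2 := 8 * m + 15) ?_)
    have e : Op.exec M3 (.load 15 8 3 14 3) = M3.setV 15 (w ⟨x, hx⟩) := by
      simp only [Op.exec, v33, hv3, a38, hwx]
    rw [e]
    set M4 := M3.setV 15 (w ⟨x, hx⟩) with hM4
    have v4 : ∀ y, y ≠ 15 → M4.v y = M3.v y := by
      intro y hy; rw [hM4, setV_v, if_neg hy]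
    have v415 : M4.v 15 = w ⟨x, hx⟩ := by rw [hM4]; simp
    refine Ex.iteEq (T := 8 * m + 14) ?_ ?_
    · intro h
      rw [v415, v4 3 (by decide), v33] at h
      refine (Ex.skip ?_).le (by omega)
      refine ⟨?_, g, hgG, ?_, ?_⟩
      · rw [setV_v, if_neg (by decide), v4 19 (by decide)]; exact hid
      · rw [setV_a]; exact hg
      · rw [setV_v, if_neg (by decide), v4 19 (by decide), ← hact]
        congr 1
        exact trunc_succ_zero w ⟨x, hx⟩ h
    · intro h
      rw [v415, v4 3 (by decide), v33] at h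
      set c := w ⟨x, hx⟩ with hc
      set u := g ⟨x, hx⟩ with hu
      set id := M3.v 19 with hid'
      have hrow : M3.a 9 0 x 0 = u := hg ⟨x, hx⟩
      have hblank : wd m (M.a 1) id u = 0 := by
        rw [← hact, hu, act_apply]
        exact trunc_self w ⟨x, hx⟩
      have hlev : lev (wd m (M.a 1) id) < L := by
        rw [← hact, lev_act]
        exact (lev_trunc_lt w ⟨x, hx⟩ h).trans_le hL
      have hLK : M.a 3 id u c ≠ 0 := hflag id hid hlev u c hblank h (hwk _)
      obtain ⟨hl1, hl2, hl3, hl4⟩ := hD.link id hid u c hLK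
      set b := M.a 3 id u c with hb
      set p := M.a 4 id u c with hp
      refine (Ex.opSeq (T2 := 8 * m + 12) (Ex.opSeq (T2 := 8 * m + 10)
        (Ex.opSeq (T2 := 8 * m + 8) ?_)))
      have e1 : Op.exec M4 (.load 16 9 3 14 3) = M4.setV 16 u := by
        have : M4.v 14 = x := (v4 14 (by decide)).trans hv3
        have h43 : M4.v 3 = 0 := (v4 3 (by decide)).trans v33
        simp only [Op.exec, this, h43]
        rw [hM4, setV_a, hrow]
      have e2 : Op.exec (M4.setV 16 u) (.load 17 3 19 16 15) = (M4.setV 16 u).setV 17 b := by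
        simp only [Op.exec, setV_v, setV_a, if_neg (show ¬ (19 = 16) by decide), if_true,
          if_neg (show ¬ (15 = 16) by decide), v4 19 (by decide), v415]
        rw [hM4, setV_a, a33]
      have e3 : Op.exec ((M4.setV 16 u).setV 17 b) (.load 18 4 19 16 15) =
          ((M4.setV 16 u).setV 17 b).setV 18 p := by
        simp only [Op.exec, setV_v, setV_a, if_neg (show ¬ (19 = 16) by decide), if_true,
          if_neg (show ¬ (15 = 16) by decide), if_neg (show ¬ (19 = 17) by decide),
          if_neg (show ¬ (16 = 17) by decide), if_neg (show ¬ (15 = 17) by decide),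
          v4 19 (by decide), v415]
        rw [hM4, setV_a, a34]
      rw [e1, e2, e3]
      set M5 := ((M4.setV 16 u).setV 17 b).setV 18 p with hM5
      have v5 : ∀ y, y ≠ 15 → y ≠ 16 → y ≠ 17 → y ≠ 18 → M5.v y = M3.v y := by
        intro y h1 h2 h3 h4
        rw [hM5]
        simp [h2, h3, h4, v4 y h1]
      have v517 : M5.v 17 = b := by rw [hM5]; simp
      have v518 : M5.v 18 = p := by rw [hM5]; simp
      have a5 : M5.a = M3.a := rfl
      have v53 : M5.v 3 = 0 := (v5 3 (by decide) (by decide) (by decide) (by decide)).trans v33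
      have v50 : M5.v 0 = m := (v5 0 (by decide) (by decide) (by decide) (by decide)).trans
        ((v3 0 rfl (by decide) (by decide)).trans hm)
      have hcm := cmpL_spec (M := M5) (m := m) 9 3 5 18 9 3 v50 v53 (by decide) (by decide)
        (by decide) (Or.inl (by decide))
      refine (hcm.bind (T2 := 3) ?_).le (by omega)
      intro M6 hf6 ha6
      rw [v53, v518, a5, a35] at ha6
      refine Ex.opSeq (T2 := 1) (Ex.op ?_)
      have v617 : M6.v 17 = b := (hf6.v 17 rfl).trans v517
      have e4 : Op.exec (Op.exec M6 (.pred 17)) (.copy 19 17) =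
          (M6.setV 17 (b - 1)).setV 19 (b - 1) := by
        simp [Op.exec, v617]
      rw [e4]
      have hRP : RP (row (M6.a 9) 0) (pm m (row (M.a 5) p) * g) := by
        rw [ha6]
        apply RP_setRow
        exact RP.comp hg (hP.vp p hl2).rp
      refine ⟨?_, pm m (row (M.a 5) p) * g, G.mul_mem hl3 hgG, ?_, ?_⟩
      · simp
        omega
      · simpa using hRP
      · have e5 : (((M6.setV 17 (b - 1)).setV 19 (b - 1)).setV 14 (x + 1)).v 19 = b - 1 := by
          simp
        rw [e5, ← hl4, act_mul]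
        congr 1
        have := trunc_succ w ⟨x, hx⟩
        simp only at this
        rw [this, act_update, hact]
  · intro M' hf' _ hI
    obtain ⟨h1, g, h2, h3, h4⟩ := hI
    rw [trunc_all] at h4
    exact ⟨h1, g, h2, h3, h4⟩

end Pool.Agent.W984.OL
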