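import Pool.Agent.W984.OL.NewRep

set_option autoImplicit false
set_option linter.unusedSimpArgs false
set_option linter.unusedVariables false

/-! Expanding a representative. -/

namespace Pool.Agent.W984.OL

open Equiv

/-- Create all new representatives obtained from number `v 6` by filling one blank. -/
def expandP : Prog :=
  forP 7 0 (.seq (.op (.load 49 1 6 7 3)) (.ite (.eq 49 3)
    (forP 8 1 (.ite (.eq 8 3) .skip
      (.seq (.op (.load 49 3 6 7 8)) (.ite (.eq 49 3) newrepP .skip))))
    .skip))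

theorem Inv.congr {m k : ℕ} {G : Subgroup (Perm (Fin m))} {M M' : Mem} (h : Inv m k G M)
    (ha : M'.a = M.a) (hv : ∀ x, x < 7 → M'.v x = M.v x) : Inv m k G M' := by
  have e0 := hv 0 (by decide)
  have e1 := hv 1 (by decide)
  have e3 := hv 3 (by decide)
  have e4 := hv 4 (by decide)
  have e5 := hv 5 (by decide)
  have e6 := hv 6 (by decide)
  constructor
  · rw [e0]; exact h.hm
  · rw [e1]; exact h.hk
  · rw [e3]; exact h.hz
  · rw [ha, e5]; exact h.pool
  · rw [ha, e4, e5]; exact h.link
  · rw [ha, e4]; exact h.wk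
  · rw [ha, e4, e5]; exact h.tab
  · rw [ha, e4]; exact h.st
  · rw [ha, e4]; exact h.fresh2
  · rw [ha, e4]; exact h.fresh3
  · rw [ha, e4]; exact h.compl
  · rw [ha, e4]; exact h.dist
  · rw [ha, e4]; exact h.mono
  · rw [e4, e6]; exact h.cle
  · rw [ha, e6]; exact h.done
  · rw [ha, e4, e6]; exact h.up
  · rw [ha, e4, e6]; exact h.cover

/-- The relation between the states before and after a part of the expansion. -/
structure Step (m k : ℕ) (G : Subgroup (Perm (Fin m))) (M M' : Mem) : Prop where
  inv : Inv m k G M'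
  cur : M'.v 6 = M.v 6
  le : M.v 4 ≤ M'.v 4
  rows : ∀ a < M.v 4, M'.a 1 a = M.a 1 a
  flags : ∀ a y c : ℕ, M.a 3 a y c ≠ 0 → M'.a 3 a y c ≠ 0

theorem Step.refl {m k : ℕ} {G : Subgroup (Perm (Fin m))} {M : Mem} (h : Inv m k G M) :
    Step m k G M M := ⟨h, rfl, le_rfl, fun _ _ => rfl, fun _ _ _ h => h⟩

theorem Step.trans {m k : ℕ} {G : Subgroup (Perm (Fin m))} {M M' M'' : Mem}
    (h : Step m k G M M') (h' : Step m k G M' M'') : Step m k G M M'' :=
  ⟨h'.inv, h'.cur.trans h.cur, h.le.trans h'.le,
    fun a ha => (h'.rows a (ha.trans_le h.le)).trans (h.rows a ha),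
    fun a y c hne => h'.flags a y c (h.flags a y c hne)⟩

theorem Step.congr {m k : ℕ} {G : Subgroup (Perm (Fin m))} {M M' M'' : Mem}
    (h : Step m k G M M') (ha : M''.a = M'.a) (hv : ∀ x, x < 7 → M''.v x = M'.v x) :
    Step m k G M M'' := by
  refine ⟨h.inv.congr ha hv, (hv 6 (by decide)).trans h.cur, ?_, ?_, ?_⟩
  · rw [hv 4 (by decide)]; exact h.le
  · rw [ha]; exact h.rows
  · rw [ha]; exact h.flags

/-- Time bound for `expandP`. -/
def tExp (m k : ℕ) : ℕ := m * (k * (tNew m + 7) + 9) + 3

theorem expandP_spec {m k : ℕ} {G : Subgroup (Perm (Fin m))} {M : Mem} (hI : Inv m k G M)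
    (hcur : M.v 6 < M.v 4) :
    Ex expandP M (tExp m k) (fun M' => Step m k G M M' ∧
      ∀ y : Fin m, ∀ c, wd m (M.a 1) (M.v 6) y = 0 → c ≠ 0 → c < k → M'.a 3 (M.v 6) y c ≠ 0) := by
  set cur := M.v 6 with hcur'
  refine Ex.forP (T := k * (tNew m + 7) + 6) (fun y M1 => Step m k G M M1 ∧
    ∀ y' : Fin m, (y' : ℕ) < y → ∀ c, wd m (M.a 1) cur y' = 0 → c ≠ 0 → c < k →
      M1.a 3 cur y' c ≠ 0) hI.hm rfl rfl rfl ?_ ?_ ?_
  · refine ⟨(Step.refl hI).congr rfl (fun x hx => ?_), fun y' hy' => absurd hy' (Nat.not_lt_zero _)⟩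
    rw [setV_v, if_neg (by omega)]
  · intro y hy M1 hf1 hv1 h
    obtain ⟨hS, hd⟩ := h
    have hwc : M1.a 1 cur = M.a 1 cur := hS.rows cur hcur
    refine Ex.opSeq (T2 := k * (tNew m + 7) + 4) ?_
    have e : Op.exec M1 (.load 49 1 6 7 3) = M1.setV 49 (wd m (M.a 1) cur ⟨y, hy⟩) := by
      simp only [Op.exec, hS.cur, hv1, hS.inv.hz]
      rw [← hcur', hwc]
      rfl
    rw [e]
    set M2 := M1.setV 49 (wd m (M.a 1) cur ⟨y, hy⟩) with hM2
    have v2 : ∀ x, x ≠ 49 → M2.v x = M1.v x := by
      intro x hx; rw [hM2]; simp [hx]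
    have a2 : M2.a = M1.a := rfl
    have hS2 : Step m k G M M2 := hS.congr a2 (fun x hx => v2 x (by omega))
    refine Ex.iteEq (T := k * (tNew m + 7) + 3) ?_ ?_
    · intro h0
      have hblank : wd m (M.a 1) cur ⟨y, hy⟩ = 0 := by
        rw [v2 3 (by decide), hS.inv.hz] at h0
        simpa [hM2] using h0
      refine (Ex.forP (T := tNew m + 4) (fun c M3 => Step m k G M M3 ∧
        (∀ y' : Fin m, (y' : ℕ) < y → ∀ c, wd m (M.a 1) cur y' = 0 → c ≠ 0 → c < k →
          M3.a 3 cur y' c ≠ 0) ∧
        ∀ c' < c, c' ≠ 0 → M3.a 3 cur y c' ≠ 0) ((v2 1 (by decide)).trans hS.inv.hk)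
        rfl rfl rfl ?_ ?_ ?_)
      · refine ⟨hS2.congr rfl (fun x hx => ?_), hd, fun c' hc' => absurd hc' (Nat.not_lt_zero _)⟩
        rw [setV_v, if_neg (by omega)]
      · intro c hc M3 hf3 hv3 h3
        obtain ⟨hS3, hd3, hd3'⟩ := h3
        have v37 : M3.v 7 = y := (hf3.v 7 rfl).trans ((v2 7 (by decide)).trans hv1)
        refine Ex.iteEq (T := tNew m + 3) ?_ ?_
        · intro h4
          rw [hv3, hS3.inv.hz] at h4
          refine (Ex.skip ?_).le (by omega)
          refine ⟨hS3.congr rfl (fun x hx => ?_), hd3, ?_⟩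
          · rw [setV_v, if_neg (by omega)]
          · intro c' hc' hne
            omega
        · intro h4
          rw [hv3, hS3.inv.hz] at h4
          refine (Ex.opSeq (T2 := tNew m + 1) ?_)
          have e3 : Op.exec M3 (.load 49 3 6 7 8) = M3.setV 49 (M3.a 3 cur y c) := by
            simp only [Op.exec, hS3.cur, v37, hv3]
            rfl
          rw [e3]
          set M4 := M3.setV 49 (M3.a 3 cur y c) with hM4
          have v4 : ∀ x, x ≠ 49 → M4.v x = M3.v x := by
            intro x hx; rw [hM4]; simp [hx]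
          have a4 : M4.a = M3.a := rfl
          have hS4 : Step m k G M M4 := hS3.congr a4 (fun x hx => v4 x (by omega))
          refine Ex.iteEq ?_ ?_
          · intro h5
            have hun : M3.a 3 cur y c = 0 := by
              rw [v4 3 (by decide), hS3.inv.hz] at h5
              simpa [hM4] using h5
            have hcl : M4.v 6 < M4.v 4 := by
              rw [hS4.cur]
              exact hcur.trans_le hS4.le
            have hn := newrepP_spec (M := M4) hS4.inv hcl ⟨y, hy⟩ ((v4 7 (by decide)).trans v37) c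
              ((v4 8 (by decide)).trans hv3) h4 hc
              (by
                rw [hS4.cur]
                have := hS4.rows cur hcur
                unfold wd
                rw [← hcur', this]
                exact hblank)
              (by
                rw [hS4.cur]
                exact hun)
            refine hn.post ?_
            intro M5 hf5 h6
            obtain ⟨b1, b2, b3, b4, b5⟩ := h6
            have hS5 : Step m k G M4 M5 := ⟨b1, hf5.v 6 rfl, by rw [b2]; exact Nat.le_succ _, b3, b4⟩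
            refine ⟨(hS4.trans hS5).congr rfl (fun x hx => ?_), ?_, ?_⟩
            · rw [setV_v, if_neg (by omega)]
            · intro y' hy' c' h7 h8 h9
              exact b4 cur y' c' (hd3 y' hy' c' h7 h8 h9)
            · intro c' hc' hne
              rcases Nat.lt_succ_iff_lt_or_eq.1 hc' with h7 | h7
              · exact b4 cur y c' (hd3' c' h7 hne)
              · rw [h7]
                rw [hS4.cur] at b5
                exact b5
          · intro h5
            have hun : M3.a 3 cur y c ≠ 0 := by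
              rw [v4 3 (by decide), hS3.inv.hz] at h5
              simpa [hM4] using h5
            refine (Ex.skip ?_).le (by unfold tNew; omega)
            refine ⟨hS4.congr rfl (fun x hx => ?_), hd3, ?_⟩
            · rw [setV_v, if_neg (by omega)]
            · intro c' hc' hne
              rcases Nat.lt_succ_iff_lt_or_eq.1 hc' with h7 | h7
              · exact hd3' c' h7 hne
              · rw [h7]; exact hun
      · intro M3 hf3 _ h3
        obtain ⟨hS3, hd3, hd3'⟩ := h3
        refine ⟨hS3.congr rfl (fun x hx => ?_), ?_⟩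
        · rw [setV_v, if_neg (by omega)]
        · intro y' hy' c h7 h8 h9
          rcases Nat.lt_succ_iff_lt_or_eq.1 hy' with h6 | h6
          · exact hd3 y' h6 c h7 h8 h9
          · rw [h6]; exact hd3' c h9 h8
    · intro h0
      have hnb : wd m (M.a 1) cur ⟨y, hy⟩ ≠ 0 := by
        rw [v2 3 (by decide), hS.inv.hz] at h0
        simpa [hM2] using h0
      refine (Ex.skip ?_).le (by omega)
      refine ⟨hS2.congr rfl (fun x hx => ?_), ?_⟩
      · rw [setV_v, if_neg (by omega)]
      · intro y' hy' c h7 h8 h9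
        rcases Nat.lt_succ_iff_lt_or_eq.1 hy' with h6 | h6
        · exact hd y' h6 c h7 h8 h9
        · have : y' = ⟨y, hy⟩ := Fin.ext h6
          rw [this] at h7
          exact absurd h7 hnb
  · intro M' _ _ h
    exact ⟨h.1, fun y c h1 h2 h3 => h.2 y y.2 c h1 h2 h3⟩

/-- A word has its representative if all flags at lower levels have links. -/
theorem rep_of_done {m k : ℕ} {G : Subgroup (Perm (Fin m))} {M : Mem} (hI : Inv m k G M) {L : ℕ}
    (hd : ∀ a < M.v 4, lev (wd m (M.a 1) a) < L → ∀ y : Fin m, ∀ c, wd m (M.a 1) a y = 0 →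
      c ≠ 0 → c < k → M.a 3 a y c ≠ 0) :
    ∀ n, n ≤ L → ∀ w : Fin m → ℕ, (∀ x, w x < k) → lev w = n →
      ∃ a < M.v 4, ∃ g ∈ G, act g w = wd m (M.a 1) a := by
  intro n
  induction n with
  | zero =>
    intro _ w _ hl
    refine ⟨0, hI.link.pos, 1, one_mem _, ?_⟩
    rw [act_one]
    funext x
    have h0 : w x = 0 := by
      by_contra hne
      have : 0 < lev w := by
        unfold lev
        exact Finset.card_pos.2 ⟨x, by simp [hne]⟩
      omega
    rw [h0]
    exact (hI.link.root x).symm
  | succ n ih =>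
    intro hn w hw hl
    have hex : ∃ x, w x ≠ 0 := by
      by_contra hno
      push Not at hno
      have : lev w = 0 := by
        unfold lev
        rw [Finset.card_eq_zero, Finset.filter_eq_empty_iff]
        intro x _
        simpa using hno x
      omega
    obtain ⟨x, hx⟩ := hex
    have hl' : lev (Function.update w x 0) + 1 = lev w := lev_update_zero w x hx
    have hk0 : 0 < k := lt_of_le_of_lt (Nat.zero_le _) (hw x)
    obtain ⟨a, ha, g, hg, h1⟩ := ih (by omega) (Function.update w x 0) (by
      intro y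
      by_cases hy : y = x
      · rw [hy, Function.update_self]; exact hk0
      · rw [Function.update_of_ne hy]; exact hw y) (by omega)
    have hblank : wd m (M.a 1) a (g x) = 0 := by
      rw [← h1, act_apply, Function.update_self]
    have hlev : lev (wd m (M.a 1) a) < L := by
      rw [← h1, lev_act]; omega
    have hne := hd a ha hlev (g x) (w x) hblank hx (hw x)
    obtain ⟨h2, h3, h4, h5⟩ := hI.link.link a ha (g x) (w x) hne
    refine ⟨M.a 3 a (g x) (w x) - 1, by omega, _, G.mul_mem h4 hg, ?_⟩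
    · rw [← h5, act_mul]
      congr 1
      have e : w = Function.update (Function.update w x 0) x (w x) := by
        rw [Function.update_idem, Function.update_eq_self]
      conv_lhs => rw [e]
      rw [act_update, h1]

/-- Going to the next representative. -/
theorem Inv.next {m k : ℕ} {G : Subgroup (Perm (Fin m))} {M : Mem} (hI : Inv m k G M)
    (hcur : M.v 6 < M.v 4)
    (hd : ∀ y : Fin m, ∀ c, wd m (M.a 1) (M.v 6) y = 0 → c ≠ 0 → c < k → M.a 3 (M.v 6) y c ≠ 0) :
    Inv m k G (M.setV 6 (M.v 6 + 1)) := by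
  have e4 : (M.setV 6 (M.v 6 + 1)).v 4 = M.v 4 := rfl
  have e5 : (M.setV 6 (M.v 6 + 1)).v 5 = M.v 5 := rfl
  have e6 : (M.setV 6 (M.v 6 + 1)).v 6 = M.v 6 + 1 := rfl
  have hdone : ∀ a < M.v 6 + 1, ∀ y : Fin m, ∀ c, wd m (M.a 1) a y = 0 → c ≠ 0 → c < k →
      M.a 3 a y c ≠ 0 := by
    intro a ha y c h1 h2 h3
    rcases Nat.lt_succ_iff_lt_or_eq.1 ha with h4 | h4
    · exact hI.done a h4 y c h1 h2 h3
    · rw [h4] at h1 ⊢
      exact hd y c h1 h2 h3
  refine ⟨hI.hm, hI.hk, hI.hz, hI.pool, hI.link, hI.wk, hI.tab, hI.st, hI.fresh2, hI.fresh3,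
    hI.compl, hI.dist, hI.mono, ?_, ?_, ?_, ?_⟩
  · rw [e4, e6]; omega
  · rw [e6, setV_a]; exact hdone
  · rw [e4, e6, setV_a]
    intro h a ha
    have h1 := hI.up hcur a ha
    have h2 := hI.mono (M.v 6 + 1) h (M.v 6) (Nat.le_succ _)
    omega
  · rw [e4, e6, setV_a]
    intro h w hw hl
    refine rep_of_done hI (L := lev (wd m (M.a 1) (M.v 6 + 1))) ?_ (lev w) hl w hw rfl
    intro a ha hlt y c h1 h2 h3
    have h4 : a < M.v 6 + 1 := by
      by_contra hge
      have := hI.mono a ha (M.v 6 + 1) (by omega)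
      omega
    exact hdone a h4 y c h1 h2 h3

end Pool.Agent.W984.OL
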