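import Pool.Agent.W984.OL.Links

set_option autoImplicit false
set_option linter.unusedSimpArgs false
set_option linter.unusedVariables false

/-! The invariants of the links while a new representative is built. -/

namespace Pool.Agent.W984.OL

open Equiv

variable {m : ℕ}

/-- The stabiliser of a word. -/
def stab (G : Subgroup (Perm (Fin m))) (w : Fin m → ℕ) : Subgroup (Perm (Fin m)) where
  carrier := {g | g ∈ G ∧ act g w = w}
  mul_mem' := by
    rintro a b ⟨ha, ha'⟩ ⟨hb, hb'⟩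
    exact ⟨G.mul_mem ha hb, by rw [act_mul, hb', ha']⟩
  one_mem' := ⟨G.one_mem, act_one w⟩
  inv_mem' := by
    rintro a ⟨ha, ha'⟩
    refine ⟨G.inv_mem ha, ?_⟩
    conv_lhs => rw [← ha']
    exact act_inv_act a w

theorem mem_stab {G : Subgroup (Perm (Fin m))} {w : Fin m → ℕ} {g : Perm (Fin m)} :
    g ∈ stab G w ↔ g ∈ G ∧ act g w = w := Iff.rfl

/-- The invariant for the links. `LK0`, `LP0` are the links before the new representative `N`. -/
structure FInv (m : ℕ) (G : Subgroup (Perm (Fin m))) (N : ℕ) (W LK0 LP0 : ℕ → ℕ → ℕ → ℕ)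
    (np : ℕ) (LK LP P : ℕ → ℕ → ℕ → ℕ) : Prop where
  link : LinkOK m G (N + 1) np W LK LP P
  old : ∀ a y c : ℕ, LK0 a y c ≠ 0 → LK a y c = LK0 a y c ∧ LP a y c = LP0 a y c
  new : ∀ a y c : ℕ, LK a y c = LK0 a y c ∨ (LK a y c = N + 1 ∧ a < N)
  base : ∀ a < N, ∀ v : Fin m, ∀ d : ℕ, LK a v d = N + 1 → ∀ s ∈ stab G (wd m W a),
    LK a (s v) d = N + 1 ∧ pm m (row P (LP a (s v) d)) (s v) = pm m (row P (LP a v d)) v

theorem FInv.ext {G : Subgroup (Perm (Fin m))} {N np np' : ℕ}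
    {W LK0 LP0 LK LP P P' : ℕ → ℕ → ℕ → ℕ} (h : FInv m G N W LK0 LP0 np LK LP P)
    (he : Extends P P' np) (hn : np ≤ np') : FInv m G N W LK0 LP0 np' LK LP P' := by
  have key : ∀ a < N + 1, ∀ y : Fin m, ∀ c, LK a y c ≠ 0 → row P' (LP a y c) = row P (LP a y c) :=
    fun a ha y c hne => he.row (h.link.link a ha y c hne).2.1
  refine ⟨⟨h.link.pos, h.link.root, ?_⟩, h.old, h.new, ?_⟩
  · intro a ha y c hne
    obtain ⟨h1, h2, h3, h4⟩ := h.link.link a ha y c hne
    rw [key a ha y c hne]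
    exact ⟨h1, h2.trans_le hn, h3, h4⟩
  · intro a ha v d hd s hs
    obtain ⟨h1, h2⟩ := h.base a ha v d hd s hs
    refine ⟨h1, ?_⟩
    rw [key a (by omega) v d (by omega), key a (by omega) (s v) d (by omega)]
    exact h2

/-- Setting the links of a whole orbit of flags to the new representative. -/
theorem FInv.setL {G : Subgroup (Perm (Fin m))} {N : ℕ} {W LK0 LP0 : ℕ → ℕ → ℕ → ℕ} {M M' : Mem}
    (h : FInv m G N W LK0 LP0 (M.v 5) (M.a 3) (M.a 4) (M.a 5)) {a d : ℕ} (ha : a < N)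
    {z : Fin m} {g : Perm (Fin m)} (hg : g ∈ G) (hd : wd m W N z = d)
    (hact : act g (Function.update (wd m W N) z 0) = wd m W a)
    (hnew : ∀ b < N, ∀ g ∈ G, act g (wd m W N) ≠ wd m W b)
    (hlk0 : ∀ a < N, ∀ y : Fin m, ∀ c, LK0 a y c ≤ N)
    (h0 : M.a 3 a (g z) d = 0)
    (hs : SetL a d N (g z) g (stab G (wd m W a)) m M M') :
    FInv m G N W LK0 LP0 (M'.v 5) (M'.a 3) (M'.a 4) (M'.a 5) ∧ M'.a 3 a (g z) d = N + 1 := by
  set B := wd m W N with hB
  set u := g z with hu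
  have hup : Function.update (wd m W a) u d = act g B := by
    rw [← hact, hu, ← act_update, Function.update_idem, ← hd, Function.update_eq_self]
  -- no flag of the orbit was set before
  have hunset : ∀ v : Fin m, (∃ t ∈ stab G (wd m W a), t u = v) → M.a 3 a v d = 0 := by
    rintro v ⟨t, ht, htv⟩
    by_contra hne
    rcases h.new a v d with h1 | h1
    · have h1' : LK0 a v d ≠ 0 := by rw [← h1]; exact hne
      obtain ⟨h2, h3, h4, h5⟩ := h.link.link a (by omega) v d hne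
      have hle := hlk0 a ha v d
      have hlt : M.a 3 a v d - 1 < N := by omega
      apply hnew _ hlt ((pm m (row (M.a 5) (M.a 4 a v d))) * t * g)
        (G.mul_mem (G.mul_mem h4 ht.1) hg)
      rw [← h5, act_mul, act_mul, ← hup, act_update t, ht.2, htv]
    · have h2 := (h.base a ha v d h1.1 t⁻¹ (inv_mem ht)).1
      have h3 : t⁻¹ v = u := by rw [← htv]; simp
      rw [h3] at h2
      rw [h0] at h2
      omega
  have hmem : ∀ v : Fin m, (∃ t ∈ stab G (wd m W a), t u = v) ∨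
      ∀ (y : ℕ), y = v → ¬ (a = a ∧ d = d ∧ ∃ v : Fin m, (v : ℕ) = y ∧ y < m ∧
        ∃ t ∈ stab G (wd m W a), t u = v) := by
    intro v
    by_cases hv : ∃ t ∈ stab G (wd m W a), t u = v
    · exact Or.inl hv
    · right
      rintro y hy ⟨-, -, v', hv', -, h2⟩
      have : v' = v := Fin.ext (hv'.trans hy)
      rw [this] at h2
      exact hv h2
  -- where the links are unchanged
  have hoff : ∀ a' : ℕ, ∀ y : Fin m, ∀ c : ℕ, ¬ (a' = a ∧ c = d ∧
      ∃ t ∈ stab G (wd m W a), t u = y) → M'.a 3 a' y c = M.a 3 a' y c ∧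
        M'.a 4 a' y c = M.a 4 a' y c := by
    intro a' y c hne
    apply hs.off
    rintro ⟨h1, h2, v', h3, -, h4⟩
    have : v' = y := Fin.ext h3
    rw [this] at h4
    exact hne ⟨h1, h2, h4⟩
  have hu1 : M'.a 3 a u d = N + 1 := (hs.on u u.2 ⟨1, one_mem _, rfl⟩).1
  refine ⟨⟨⟨h.link.pos, h.link.root, ?_⟩, ?_, ?_, ?_⟩, hu1⟩
  · intro a' ha' y c hne
    by_cases hc : a' = a ∧ c = d ∧ ∃ t ∈ stab G (wd m W a), t u = y
    · obtain ⟨rfl, rfl, t, ht, hty⟩ := hc
      obtain ⟨h1, h2, t', ht', hty', hrp⟩ := hs.on y y.2 ⟨t, ht, hty⟩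
      rw [h1, hrp.pm]
      refine ⟨le_rfl, h2, G.inv_mem (G.mul_mem ht'.1 hg), ?_⟩
      rw [Nat.add_sub_cancel, mul_inv_rev, act_mul]
      have : Function.update (wd m W a') y (c) = act t' (Function.update (wd m W a') u c) := by
        rw [act_update, ht'.2, hty']
      rw [this, act_inv_act, hup, act_inv_act]
    · obtain ⟨h1, h2⟩ := hoff a' y c hc
      rw [h1] at hne
      obtain ⟨h3, h4, h5, h6⟩ := h.link.link a' ha' y c hne
      rw [h1, h2, hs.ext.row h4]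
      exact ⟨h3, h4.trans_le hs.np, h5, h6⟩
  · intro a' y c hne
    obtain ⟨h1, h2⟩ := h.old a' y c hne
    have hoff' : ¬ (a' = a ∧ c = d ∧ ∃ v : Fin m, (v : ℕ) = y ∧ y < m ∧
        ∃ t ∈ stab G (wd m W a), t u = v) := by
      rintro ⟨rfl, rfl, v', rfl, -, h4⟩
      have := hunset v' h4
      rw [h1] at this
      exact hne this
    obtain ⟨h3, h4⟩ := hs.off a' y c hoff'
    exact ⟨h3.trans h1, h4.trans h2⟩
  · intro a' y c
    by_cases hc : a' = a ∧ c = d ∧ ∃ v : Fin m, (v : ℕ) = y ∧ y < m ∧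
        ∃ t ∈ stab G (wd m W a), t u = v
    · obtain ⟨rfl, rfl, v', rfl, -, h4⟩ := hc
      exact Or.inr ⟨(hs.on v' v'.2 h4).1, ha⟩
    · rw [(hs.off a' y c hc).1]
      exact h.new a' y c
  · intro a' ha' v d' hd' s hs'
    by_cases hc : a' = a ∧ d' = d ∧ ∃ t ∈ stab G (wd m W a), t u = v
    · obtain ⟨rfl, rfl, t, ht, htv⟩ := hc
      obtain ⟨h1, h2, t1, ht1, ht1v, hrp1⟩ := hs.on v v.2 ⟨t, ht, htv⟩
      have hsv : ∃ t ∈ stab G (wd m W a'), t u = s v :=
        ⟨s * t, mul_mem hs' ht, by rw [Perm.mul_apply, htv]⟩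
      obtain ⟨h3, h4, t2, ht2, ht2v, hrp2⟩ := hs.on (s v) (s v).2 hsv
      refine ⟨h3, ?_⟩
      rw [hrp1.pm, hrp2.pm]
      have e1 : (t1 * g)⁻¹ v = z := by
        rw [Perm.inv_eq_iff_eq, Perm.mul_apply]
        exact ht1v.symm
      have e2 : (t2 * g)⁻¹ (s v) = z := by
        rw [Perm.inv_eq_iff_eq, Perm.mul_apply]
        exact ht2v.symm
      rw [e1, e2]
    · obtain ⟨h1, h2⟩ := hoff a' v d' hc
      rw [h1] at hd'
      obtain ⟨h3, h4⟩ := h.base a' ha' v d' hd' s hs'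
      have hc' : ¬ (a' = a ∧ d' = d ∧ ∃ t ∈ stab G (wd m W a), t u = s v) := by
        rintro ⟨rfl, rfl, t, ht, htv⟩
        refine hc ⟨rfl, rfl, s⁻¹ * t, mul_mem (inv_mem hs') ht, ?_⟩
        rw [Perm.mul_apply, htv]
        simp
      obtain ⟨h5, h6⟩ := hoff a' (s v) d' hc'
      rw [h5, h6, h2]
      have hl1 := (h.link.link a' (by omega) v d' (by omega)).2.1
      have hl2 := (h.link.link a' (by omega) (s v) d' (by omega)).2.1
      rw [hs.ext.row hl1, hs.ext.row hl2]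
      exact ⟨h3, h4⟩

end Pool.Agent.W984.OL
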