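import Pool.Agent.W984.OL.Math

set_option autoImplicit false
set_option linter.unusedSimpArgs false
set_option linter.unusedVariables false

/-! Inserting a permutation into a table of generators. -/

namespace Pool.Agent.W984.OL

open Equiv

theorem Ex.le {p : Prog} {M : Mem} {T T' : ℕ} {Q : Mem → Prop} (h : Ex p M T Q) (hT : T ≤ T') :
    Ex p M T' Q := h.mono hT (fun _ _ h => h)

@[simp] theorem setRow_v (M : Mem) (r i n : ℕ) (f : ℕ → ℕ) : (M.setRow r i n f).v = M.v := rfl
@[simp] theorem setRow_out (M : Mem) (r i n : ℕ) (f : ℕ → ℕ) :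
    (M.setRow r i n f).out = M.out := rfl

theorem PoolOK.succ {m : ℕ} {P P' : ℕ → ℕ → ℕ → ℕ} {np : ℕ} (h : PoolOK m P np)
    (he : Extends P P' np) (hv : VP m (row P' np)) : PoolOK m P' (np + 1) := by
  refine ⟨by omega, ?_, ?_⟩
  · rw [he.row h.pos]; exact h.one
  · intro p hp
    rcases Nat.lt_succ_iff_lt_or_eq.1 hp with h1 | h1
    · rw [he.row h1]; exact h.vp p h1
    · rw [h1]; exact hv

/-- Insert the permutation in row `0` of array `10` into the table `v 10` (sifting). -/
def insertP : Prog :=
  .seq (.op (.const 23 0)) (forP 20 0 (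
    .ite (.eq 23 3)
      (.seq (.op (.load 21 10 3 20 3))
       (.ite (.eq 21 20) .skip
         (.seq (.op (.load 22 2 10 20 21))
           (.ite (.eq 22 3)
             (.seq (cpyL 10 3 5 5)
               (.seq (.op (.store 2 10 20 21 5))
                 (.seq (.op (.succ 5)) (.op (.const 23 1)))))
             (.seq (invL 5 22 11 3) (cmpL 10 3 11 3 10 3))))))
      .skip))

/-- The state of the insertion loop. -/
structure InsInv (m : ℕ) (M : Mem) (g : Perm (Fin m)) (i : ℕ) (M1 : Mem) : Prop where
  pool : PoolOK m (M1.a 5) (M1.v 5)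
  np : M.v 5 ≤ M1.v 5
  ext : Extends (M.a 5) (M1.a 5) (M.v 5)
  other : ∀ b, b ≠ M.v 10 → M1.a 2 b = M.a 2 b
  tab : TabOK m (M1.a 5) (M1.a 2 (M.v 10)) (M1.v 5)
  alt : (M1.v 23 ≠ 0 ∧ gens m (M1.a 5) (M1.a 2 (M.v 10)) =
      gens m (M.a 5) (M.a 2 (M.v 10)) ⊔ Subgroup.closure {g}) ∨
    (M1.v 23 = 0 ∧ ∃ g1 : Perm (Fin m), RP (row (M1.a 10) 0) g1 ∧ (∀ x < i, fn g1 x = x) ∧
      gens m (M1.a 5) (M1.a 2 (M.v 10)) = gens m (M.a 5) (M.a 2 (M.v 10)) ∧
      gens m (M.a 5) (M.a 2 (M.v 10)) ⊔ Subgroup.closure {g1} =
        gens m (M.a 5) (M.a 2 (M.v 10)) ⊔ Subgroup.closure {g})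

theorem insertP_spec {m : ℕ} {M : Mem} {g : Perm (Fin m)} (hm : M.v 0 = m) (hz : M.v 3 = 0)
    (hP : PoolOK m (M.a 5) (M.v 5)) (hT : TabOK m (M.a 5) (M.a 2 (M.v 10)) (M.v 5))
    (hg : RP (row (M.a 10) 0) g) :
    Ex insertP M (m * (14 * m + 20) + 5) (fun M' =>
      PoolOK m (M'.a 5) (M'.v 5) ∧ M.v 5 ≤ M'.v 5 ∧ Extends (M.a 5) (M'.a 5) (M.v 5) ∧
      (∀ b, b ≠ M.v 10 → M'.a 2 b = M.a 2 b) ∧
      TabOK m (M'.a 5) (M'.a 2 (M.v 10)) (M'.v 5) ∧
      gens m (M'.a 5) (M'.a 2 (M.v 10)) =
        gens m (M.a 5) (M.a 2 (M.v 10)) ⊔ Subgroup.closure {g}) := by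
  refine Ex.opSeq (T2 := m * (14 * m + 20) + 3) ?_
  refine (Ex.forP (T := 14 * m + 17) (InsInv m M g) (by simpa [Op.exec] using hm) rfl rfl rfl ?_ ?_
    ?_).le (by simp only [Nat.add_assoc]; exact le_rfl)
  · refine ⟨hP, le_rfl, Extends.refl _ _, fun _ _ => rfl, hT, Or.inr ⟨rfl, g, hg, ?_, rfl, rfl⟩⟩
    intro x hx
    exact absurd hx (Nat.not_lt_zero _)
  · intro i hi M1 hf hv hI
    have h0 : M1.v 0 = m := (hf.v 0 rfl).trans hm
    have h3 : M1.v 3 = 0 := (hf.v 3 rfl).trans hz
    have h10 : M1.v 10 = M.v 10 := hf.v 10 rfl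
    refine (Ex.iteEq (T := 14 * m + 16) ?_ ?_)
    · -- not done yet
      intro h23
      rw [h3] at h23
      rcases hI.alt with h | ⟨-, g1, hg1, hfix, hgen, hcl⟩
      · exact absurd h23 h.1
      refine (Ex.opSeq (T2 := 14 * m + 14) ?_)
      -- j := X1[i]
      have hj : M1.a 10 0 i 0 = fn g1 i := hg1.lt hi
      set M2 := Op.exec M1 (.load 21 10 3 20 3) with hM2
      have hM2' : M2 = M1.setV 21 (fn g1 i) := by
        rw [hM2]
        simp only [Op.exec, h3, hv, hj]
      have hI2 : InsInv m M g i M2 := by
        rw [hM2']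
        exact ⟨hI.pool, hI.np, hI.ext, hI.other, hI.tab, by simpa using hI.alt⟩
      have v2 : ∀ x, x ≠ 21 → M2.v x = M1.v x := by
        intro x hx; rw [hM2', setV_v, if_neg hx]
      have v21 : M2.v 21 = fn g1 i := by rw [hM2']; simp
      have a2 : M2.a = M1.a := by rw [hM2']; rfl
      refine (Ex.iteEq (T := 14 * m + 13) ?_ ?_)
      · -- g1 fixes i
        intro he
        rw [v21, v2 20 (by decide), hv] at he
        refine (Ex.skip ?_).le (by omega)
        refine ⟨hI2.pool, hI2.np, hI2.ext, hI2.other, hI2.tab, Or.inr ⟨?_, g1, ?_, ?_, ?_, hcl⟩⟩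
        · rw [setV_v, if_neg (by decide), v2 23 (by decide)]; exact h23
        · rw [setV_a, a2]; exact hg1
        · intro x hx
          rcases Nat.lt_succ_iff_lt_or_eq.1 hx with h | h
          · exact hfix x h
          · rw [h]; exact he
        · rw [setV_a, a2]; exact hgen
      · intro hne
        rw [v21, v2 20 (by decide), hv] at hne
        refine (Ex.opSeq (T2 := 14 * m + 11) ?_)
        have hj' : fn g1 i < m := fn_lt g1 hi
        set j := fn g1 i with hjdef
        set p := M1.a 2 (M.v 10) i j with hp
        set M3 := Op.exec M2 (.load 22 2 10 20 21) with hM3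
        have hM3' : M3 = M2.setV 22 p := by
          rw [hM3]
          simp only [Op.exec, v2 10 (by decide), v2 20 (by decide), v21, h10, hv, a2, hp]
        have v3 : ∀ x, x ≠ 21 → x ≠ 22 → M3.v x = M1.v x := by
          intro x hx hx'; rw [hM3', setV_v, if_neg hx', v2 x hx]
        have v321 : M3.v 21 = j := by
          rw [hM3', setV_v, if_neg (by decide), v21]
        have v322 : M3.v 22 = p := by rw [hM3']; simp
        have a3 : M3.a = M1.a := by rw [hM3', setV_a, a2]
        have hpt := hI.tab i hi j hj'
        refine (Ex.iteEq (T := 14 * m + 10) ?_ ?_)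
        · -- new entry
          intro hp0
          rw [v322, v3 3 (by decide) (by decide), h3] at hp0
          have hcp := cpyL_spec (M := M3) (m := m) 10 3 5 5
            ((v3 0 (by decide) (by decide)).trans h0)
            ((v3 3 (by decide) (by decide)).trans h3) (by decide) (by decide)
            (Or.inl (by decide))
          refine ((hcp.bind (T2 := 5) (Q := fun M2 => InsInv m M g (i + 1) (M2.setV 20 (i + 1))))
            ?_).le (by omega)
          intro M4 hf4 ha4
          have v4 : ∀ x, x ≠ 21 → x ≠ 22 → x < 60 → M4.v x = M1.v x := by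
            intro x hx hx' hx''
            rw [hf4.v x (by simp [cpyL, forP, Prog.wv, Op.wv]; omega), v3 x hx hx']
          have v421 : M4.v 21 = j := (hf4.v 21 rfl).trans v321
          refine Ex.opSeq (T2 := 3) (Ex.opSeq (T2 := 1) (Ex.op ?_))
          set np := M1.v 5 with hnp
          have e1 : M4.v 5 = np := v4 5 (by decide) (by decide) (by decide)
          have e2 : M4.v 10 = M.v 10 := (v4 10 (by decide) (by decide) (by decide)).trans h10
          have e3 : M4.v 20 = i := (v4 20 (by decide) (by decide) (by decide)).trans hv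
          have ea : ∀ r, r ≠ 5 → M4.a r = M1.a r := by
            intro r hr
            rw [ha4, setRow_a_ne _ _ _ _ _ _ hr, a3]
          have e5 : M3.v 5 = np := v3 5 (by decide) (by decide)
          have e33 : M3.v 3 = 0 := (v3 3 (by decide) (by decide)).trans h3
          have ea5 : Extends (M1.a 5) (M4.a 5) np := by
            intro q hq
            rw [ha4, e5, setRow_a_ne' _ _ _ _ _ _ (by omega), a3]
          have er5 : RP (row (M4.a 5) np) g1 := by
            rw [ha4, e5, e33, a3]
            exact RP_setRow _ _ _ _ _ hg1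
          have hpool : PoolOK m (M4.a 5) (np + 1) := hI.pool.succ ea5 ⟨g1, er5⟩
          simp only [Op.exec, e1, e2, e3, v421]
          have htb : ∀ b, ((((M4.setA 2 (M.v 10) i j np).setV 5 ((M4.setA 2 (M.v 10) i j np).v 5 + 1)).setV 23 1).setV 20 (i + 1)).a 2 b =
              if b = M.v 10 then (fun i' j' => if i' = i ∧ j' = j then np else M1.a 2 b i' j')
                else M1.a 2 b := by
            intro b
            simp only [setV_a]
            funext i' j'
            rw [setA_a, ea 2 (by decide)]
            by_cases hb : b = M.v 10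
            · simp [hb]
            · simp [hb]
          have hta5 : ((((M4.setA 2 (M.v 10) i j np).setV 5 ((M4.setA 2 (M.v 10) i j np).v 5 + 1)).setV 23 1).setV 20 (i + 1)).a 5 = M4.a 5 := by
            simp only [setV_a]
            exact setA_a_ne _ _ _ _ _ _ _ (by decide)
          have hv5 : ((((M4.setA 2 (M.v 10) i j np).setV 5 ((M4.setA 2 (M.v 10) i j np).v 5 + 1)).setV 23 1).setV 20 (i + 1)).v 5 = np + 1 := by
            simp [e1]
          have hgs : gens m (M4.a 5) (fun i' j' => if i' = i ∧ j' = j then np else M1.a 2 (M.v 10) i' j') =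
              gens m (M.a 5) (M.a 2 (M.v 10)) ⊔ Subgroup.closure {g} := by
            rw [gens_set hi hj' hp0 (by rw [ea5.row hI.pool.pos]; exact hI.pool.one) er5]
            rw [gens_ext ea5 hI.tab.lt, hgen, hcl]
          refine ⟨?_, ?_, ?_, ?_, ?_, Or.inl ⟨?_, ?_⟩⟩
          · rw [hta5, hv5]; exact hpool
          · rw [hv5]; exact hI.np.trans (Nat.le_succ _)
          · rw [hta5]; exact hI.ext.trans ea5 hI.np
          · intro b hb
            rw [htb, if_neg hb]
            exact hI.other b hb
          · rw [hta5, hv5, htb, if_pos rfl]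
            intro i' hi' j' hj''
            simp only
            by_cases hc : i' = i ∧ j' = j
            · rw [if_pos hc, er5.pm]
              refine ⟨Nat.lt_succ_self _, fun _ => ?_⟩
              rw [hc.1, hc.2]
              exact ⟨hfix, rfl⟩
            · rw [if_neg hc]
              exact (hI.tab.ext ea5 (Nat.le_succ _)) i' hi' j' hj''
          · simp
          · rw [hta5, htb, if_pos rfl]
            exact hgs
        · -- sift through an existing entry
          intro hp0
          rw [v322, v3 3 (by decide) (by decide), h3] at hp0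
          obtain ⟨hpt1, hpt2⟩ := hpt
          obtain ⟨hpt3, hpt4⟩ := hpt2 hp0
          set h := pm m (row (M1.a 5) p) with hh
          have hrow : RP (row (M1.a 5) p) h := (hI.pool.vp p hpt1).rp
          have hin := invL_spec' (M := M3) (m := m) 5 22 11 3
            ((v3 0 (by decide) (by decide)).trans h0)
            ((v3 3 (by decide) (by decide)).trans h3) (by decide) (by decide)
            (Or.inl (by decide)) h (by rw [v322, a3]; exact hrow)
          refine ((hin.bind (T2 := m * 8 + 3)
            (Q := fun M2 => InsInv m M g (i + 1) (M2.setV 20 (i + 1)))) ?_).le (by omega)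
          intro M4 hf4 ha4
          have v4 : ∀ x, x ≠ 21 → x ≠ 22 → x < 60 → M4.v x = M1.v x := by
            intro x hx hx' hx''
            rw [hf4.v x (by simp [invL, forP, Prog.wv, Op.wv]; omega), v3 x hx hx']
          have e33 : M3.v 3 = 0 := (v3 3 (by decide) (by decide)).trans h3
          have e43 : M4.v 3 = 0 := (v4 3 (by decide) (by decide) (by decide)).trans h3
          have ea : ∀ r, r ≠ 11 → M4.a r = M1.a r := by
            intro r hr
            rw [ha4, setRow_a_ne _ _ _ _ _ _ hr, a3]
          have er : RP (row (M4.a 11) 0) h⁻¹ := by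
            rw [ha4, e33]
            exact RP_setRow _ _ _ _ _ (RP_fn _)
          have hcm := cmpL_spec (M := M4) (m := m) 10 3 11 3 10 3
            ((v4 0 (by decide) (by decide) (by decide)).trans h0) e43 (by decide) (by decide)
            (by decide) (Or.inl (by decide))
          refine hcm.post ?_
          intro M5 hf5 ha5
          have v5 : ∀ x, x ≠ 21 → x ≠ 22 → x < 60 → M5.v x = M1.v x := by
            intro x hx hx' hx''
            rw [hf5.v x (by simp [cmpL, forP, Prog.wv, Op.wv]; omega), v4 x hx hx' hx'']
          have eb : ∀ r, r ≠ 11 → r ≠ 10 → M5.a r = M1.a r := by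
            intro r hr hr'
            rw [ha5, setRow_a_ne _ _ _ _ _ _ hr', ea r hr]
          have ec : RP (row (M5.a 10) 0) (h⁻¹ * g1) := by
            rw [ha5, e43]
            apply RP_setRow
            apply RP.comp _ er
            rw [ea 10 (by decide)]
            exact hg1
          have hhm : h ∈ gens m (M.a 5) (M.a 2 (M.v 10)) := by
            rw [← hgen]
            exact mem_gens hi hj'
          refine ⟨?_, ?_, ?_, ?_, ?_, Or.inr ⟨?_, h⁻¹ * g1, ?_, ?_, ?_, ?_⟩⟩
          · rw [setV_a, eb 5 (by decide) (by decide), setV_v, if_neg (by decide),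
              v5 5 (by decide) (by decide) (by decide)]
            exact hI.pool
          · rw [setV_v, if_neg (by decide), v5 5 (by decide) (by decide) (by decide)]
            exact hI.np
          · rw [setV_a, eb 5 (by decide) (by decide)]
            exact hI.ext
          · rw [setV_a, eb 2 (by decide) (by decide)]
            exact hI.other
          · rw [setV_a, eb 5 (by decide) (by decide), eb 2 (by decide) (by decide), setV_v,
              if_neg (by decide), v5 5 (by decide) (by decide) (by decide)]
            exact hI.tab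
          · rw [setV_v, if_neg (by decide), v5 23 (by decide) (by decide) (by decide)]
            exact h23
          · rw [setV_a]; exact ec
          · intro x hx
            rcases Nat.lt_succ_iff_lt_or_eq.1 hx with hx1 | hx1
            · have hxm : x < m := hx1.trans hi
              rw [← fn_mul _ _ hxm, hfix x hx1]
              have e := hpt3 x hx1
              have : fn h⁻¹ (fn h x) = x := by
                rw [fn_mul _ _ hxm, inv_mul_cancel]
                exact fn_val 1 ⟨x, hxm⟩
              rwa [e] at this
            · rw [hx1, ← fn_mul _ _ hi]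
              change fn h⁻¹ j = i
              have : fn h⁻¹ (fn h i) = i := by
                rw [fn_mul _ _ hi, inv_mul_cancel]
                exact fn_val 1 ⟨i, hi⟩
              rwa [hpt4] at this
          · rw [setV_a, eb 5 (by decide) (by decide), eb 2 (by decide) (by decide)]
            exact hgen
          · rw [sup_closure_mul hhm, hcl]
    · intro h23
      rw [h3] at h23
      refine (Ex.skip ?_).le (by omega)
      rcases hI.alt with h | h
      · exact ⟨hI.pool, hI.np, hI.ext, hI.other, hI.tab, Or.inl (by simpa using h)⟩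
      · exact absurd h.1 h23
  · intro M' hf hv hI
    refine ⟨hI.pool, hI.np, hI.ext, hI.other, hI.tab, ?_⟩
    rcases hI.alt with h | ⟨-, g1, hg1, hfix, hgen, hcl⟩
    · exact h.2
    · have : g1 = 1 := by
        ext x
        have := hfix x x.2
        rw [fn_val] at this
        simpa using this
      rw [hgen, ← hcl, this]
      simp

end Pool.Agent.W984.OL
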