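import Pool.Agent.W984.OL.Flags

set_option autoImplicit false
set_option linter.unusedSimpArgs false
set_option linter.unusedVariables false

/-! One position of the new representative: find the flag, set the links, add a generator. -/

namespace Pool.Agent.W984.OL

open Equiv

/-- Treat position `v 45` of the new representative. -/
def linkStep : Prog :=
  .seq (.op (.load 46 1 4 45 3))
    (.ite (.eq 46 3) .skip
      (.seq (cpyL 1 4 8 3)
        (.seq (.op (.store 8 3 45 3 3))
          (.seq canonP
            (.seq (.op (.load 44 9 3 45 3))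
              (.seq (.op (.load 47 3 19 44 46))
                (.seq (.ite (.eq 47 3) setLinks .skip)
                  (.seq (.op (.load 43 4 19 44 46))
                    (.seq (cmpL 9 3 5 43 10 3) insertP)))))))))

/-- What is known when the treatment of the positions of the new representative `N` starts. -/
structure ZC (m k : ℕ) (G : Subgroup (Perm (Fin m))) (N : ℕ) (M : Mem) : Prop where
  hm : M.v 0 = m
  hz : M.v 3 = 0
  vN : M.v 4 = N
  v10 : M.v 10 = N
  pool : PoolOK m (M.a 5) (M.v 5)
  link : LinkOK m G (N + 1) (M.v 5) (M.a 1) (M.a 3) (M.a 4) (M.a 5)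
  lkle : ∀ a < N, ∀ y : Fin m, ∀ c, M.a 3 a y c ≤ N
  wk : ∀ a ≤ N, ∀ x, wd m (M.a 1) a x < k
  tab : ∀ a ≤ N, TabOK m (M.a 5) (M.a 2 a) (M.v 5)
  st : ∀ a < N, gens m (M.a 5) (M.a 2 a) = stab G (wd m (M.a 1) a)
  stN : gens m (M.a 5) (M.a 2 N) ≤ stab G (wd m (M.a 1) N)
  dist : ∀ a < N, ∀ b < N, ∀ g ∈ G, act g (wd m (M.a 1) a) = wd m (M.a 1) b → a = b
  newB : ∀ b < N, ∀ g ∈ G, act g (wd m (M.a 1) N) ≠ wd m (M.a 1) b
  flags : ∀ a < N, lev (wd m (M.a 1) a) + 1 < lev (wd m (M.a 1) N) → ∀ y : Fin m, ∀ c,
    wd m (M.a 1) a y = 0 → c ≠ 0 → c < k → M.a 3 a y c ≠ 0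

/-- The invariant of the loop over the positions. -/
structure ZInv (m k : ℕ) (G : Subgroup (Perm (Fin m))) (N : ℕ) (M : Mem) (z : ℕ) (M1 : Mem) :
    Prop where
  m0 : M1.v 0 = m
  z3 : M1.v 3 = 0
  vN : M1.v 4 = N
  v10 : M1.v 10 = N
  w1 : M1.a 1 = M.a 1
  grow : Grow m N (stab G (wd m (M.a 1) N)) M M1
  fl : FInv m G N (M.a 1) (M.a 3) (M.a 4) (M1.v 5) (M1.a 3) (M1.a 4) (M1.a 5)
  proc : ∀ z' : Fin m, (z' : ℕ) < z → wd m (M.a 1) N z' ≠ 0 → ∀ a < N, ∀ g ∈ G,
    act g (Function.update (wd m (M.a 1) N) z' 0) = wd m (M.a 1) a →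
      M1.a 3 a (g z') (wd m (M.a 1) N z') ≠ 0
  wit : ∀ z' : Fin m, (z' : ℕ) < z → wd m (M.a 1) N z' ≠ 0 →
    ∃ q ∈ gens m (M1.a 5) (M1.a 2 N), ∃ a < N, ∃ g ∈ G,
      act g (Function.update (wd m (M.a 1) N) z' 0) = wd m (M.a 1) a ∧
      M1.a 3 a (g z') (wd m (M.a 1) N z') = N + 1 ∧
      q z' = pm m (row (M1.a 5) (M1.a 4 a (g z') (wd m (M.a 1) N z'))) (g z')

/-- Time bound for one position. -/
def tLnk (m : ℕ) : ℕ := tCan m + tSet m + tIns m + 14 * m + 40

theorem linkStep_spec {m k : ℕ} {G : Subgroup (Perm (Fin m))} {N : ℕ} {M M1 : Mem}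
    (hC : ZC m k G N M) (z : Fin m) (hI : ZInv m k G N M z M1) (hz45 : M1.v 45 = z) :
    Ex linkStep M1 (tLnk m) (fun M2 => ZInv m k G N M (z + 1) M2) := by
  set B := wd m (M.a 1) N with hB
  unfold linkStep tLnk
  refine (Ex.opSeq (T2 := tCan m + tSet m + tIns m + 14 * m + 38) ?_)
  have e : Op.exec M1 (.load 46 1 4 45 3) = M1.setV 46 (B z) := by
    simp only [Op.exec, hI.z3, hI.vN, hz45, hI.w1]
    rfl
  rw [e]
  set M2 := M1.setV 46 (B z) with hM2
  have v2 : ∀ x, x ≠ 46 → M2.v x = M1.v x := by
    intro x hx; rw [hM2]; simp [hx]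
  have a2 : M2.a = M1.a := rfl
  have v246 : M2.v 46 = B z := by rw [hM2]; simp
  refine (Ex.iteEq (T := tCan m + tSet m + tIns m + 14 * m + 37) ?_ ?_)
  · intro h1
    rw [v246, v2 3 (by decide), hI.z3] at h1
    refine (Ex.skip ?_).le (by omega)
    refine ⟨(v2 0 (by decide)).trans hI.m0, (v2 3 (by decide)).trans hI.z3,
      (v2 4 (by decide)).trans hI.vN, (v2 10 (by decide)).trans hI.v10, hI.w1,
      hI.grow.congr rfl rfl rfl rfl rfl (v2 5 (by decide)), ?_, ?_, ?_⟩
    · rw [v2 5 (by decide)]; exact hI.fl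
    · intro z' hz' hne
      rcases Nat.lt_succ_iff_lt_or_eq.1 hz' with h2 | h2
      · exact hI.proc z' h2 hne
      · rw [Fin.ext h2] at hne
        exact absurd h1 hne
    · intro z' hz' hne
      rcases Nat.lt_succ_iff_lt_or_eq.1 hz' with h2 | h2
      · exact hI.wit z' h2 hne
      · rw [Fin.ext h2] at hne
        exact absurd h1 hne
  · intro h1
    rw [v246, v2 3 (by decide), hI.z3] at h1
    have hlevB : lev (Function.update B z 0) + 1 = lev B := lev_update_zero B z h1
    have v23 : M2.v 3 = 0 := (v2 3 (by decide)).trans hI.z3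
    refine (Ex.bind (T2 := tCan m + tSet m + tIns m + 8 * m + 30) (cpyL_spec (M := M2) (m := m)
      1 4 8 3 ((v2 0 (by decide)).trans hI.m0) v23 (by decide) (by decide)
      (Or.inl (by decide))) ?_).le (by omega)
    intro M3 hf3 ha3
    rw [v23, v2 4 (by decide), hI.vN, a2, hI.w1] at ha3
    have v3 : ∀ x, x ≠ 46 → x < 60 → M3.v x = M1.v x := by
      intro x hx hx'
      rw [hf3.v x (by simp [cpyL, forP, Prog.wv, Op.wv]; omega), v2 x hx]
    have v346 : M3.v 46 = B z := (hf3.v 46 rfl).trans v246
    have a3 : ∀ r, r ≠ 8 → M3.a r = M1.a r := by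
      intro r hr
      rw [ha3, setRow_a_ne _ _ _ _ _ _ hr, a2]
    refine (Ex.opSeq (T2 := tCan m + tSet m + tIns m + 8 * m + 28) ?_)
    have v33 : M3.v 3 = 0 := (v3 3 (by decide) (by decide)).trans hI.z3
    have v345 : M3.v 45 = z := (v3 45 (by decide) (by decide)).trans hz45
    have e4 : Op.exec M3 (.store 8 3 45 3 3) = M3.setA 8 0 z 0 0 := by
      simp only [Op.exec, v33, v345]
    rw [e4]
    set M4 := M3.setA 8 0 z 0 0 with hM4
    have v4 : M4.v = M3.v := rfl
    have a4 : ∀ r, r ≠ 8 → M4.a r = M1.a r := by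
      intro r hr
      rw [hM4, setA_a_ne _ _ _ _ _ _ _ hr, a3 r hr]
    have hcur : ∀ x : Fin m, M4.a 8 0 x 0 = Function.update B z 0 x := by
      intro x
      rw [hM4, setA_a]
      by_cases hxz : x = z
      · subst hxz; simp
      · have hne : (x : ℕ) ≠ z := fun h => hxz (Fin.ext h)
        rw [if_neg (by tauto), Function.update_of_ne hxz, ha3, setRow_a,
          if_pos ⟨rfl, rfl, x.2, rfl⟩]
        rfl
    have hk0 : 0 < k := lt_of_le_of_lt (Nat.zero_le _) (hC.wk N le_rfl z)
    have v40 : M4.v 0 = m := by rw [v4]; exact (v3 0 (by decide) (by decide)).trans hI.m0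
    have v43 : M4.v 3 = 0 := by rw [v4]; exact v33
    have hcan := canonP_spec (m := m) (k := k) (L := lev B - 1) (M := M4) (G := G) (N := N + 1)
      (np := M1.v 5) v40 v43 (by rw [a4 5 (by decide)]; exact hI.grow.pool)
      (by
        rw [a4 1 (by decide), a4 3 (by decide), a4 4 (by decide), a4 5 (by decide), hI.w1]
        exact hI.fl.link)
      (by
        rw [a4 1 (by decide), a4 3 (by decide), hI.w1]
        intro a ha hlt y c hy hc hck
        rcases Nat.lt_succ_iff_lt_or_eq.1 ha with h2 | h2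
        · have h3 := hC.flags a h2 (by change _ < lev B; omega) y c hy hc hck
          rw [(hI.fl.old a y c h3).1]
          exact h3
        · rw [h2] at hlt
          change lev B < lev B - 1 at hlt
          omega)
      (Function.update B z 0) hcur
      (by
        intro x
        by_cases hxz : x = z
        · rw [hxz, Function.update_self]; exact hk0
        · rw [Function.update_of_ne hxz]; exact hC.wk N le_rfl x)
      (by omega)
    rw [a4 1 (by decide), hI.w1] at hcan
    refine (Ex.bind (T2 := tSet m + tIns m + 8 * m + 27) hcan ?_).le (by omega)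
    rintro M5 hf5 ⟨hid, g, hgG, hg, hact⟩
    set a := M5.v 19 with ha'
    have haN : a < N := by
      rcases Nat.lt_succ_iff_lt_or_eq.1 hid with h2 | h2
      · exact h2
      · exfalso
        have h3 : lev (act g (Function.update B z 0)) = lev B := by rw [hact, h2]
        rw [lev_act] at h3
        omega
    have v5 : ∀ x, canonP.wv x = false → x ≠ 46 → x < 60 → M5.v x = M1.v x := by
      intro x h2 h3 h4
      rw [hf5.v x h2, v4, v3 x h3 h4]
    have v546 : M5.v 46 = B z := (hf5.v 46 rfl).trans v346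
    have a5 : ∀ r, canonP.wa r = false → r ≠ 8 → M5.a r = M1.a r := by
      intro r h2 h3
      rw [hf5.a r h2, a4 r h3]
    have v53 : M5.v 3 = 0 := (v5 3 rfl (by decide) (by decide)).trans hI.z3
    have v545 : M5.v 45 = z := (v5 45 rfl (by decide) (by decide)).trans hz45
    refine (Ex.opSeq (T2 := tSet m + tIns m + 8 * m + 25) (Ex.opSeq
      (T2 := tSet m + tIns m + 8 * m + 23) ?_))
    set u := g z with hu
    have hrow : M5.a 9 0 z 0 = u := hg z
    have e6 : Op.exec M5 (.load 44 9 3 45 3) = M5.setV 44 u := by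
      simp only [Op.exec, v53, v545, hrow]
    have e7 : Op.exec (M5.setV 44 u) (.load 47 3 19 44 46) =
        (M5.setV 44 u).setV 47 (M5.a 3 a u (B z)) := by
      simp only [Op.exec, setV_v, setV_a, if_neg (show ¬ (19 = 44) by decide), if_true,
        if_neg (show ¬ (46 = 44) by decide), v546]
      rfl
    rw [e6, e7]
    set M6 := (M5.setV 44 u).setV 47 (M5.a 3 a u (B z)) with hM6
    have v6 : ∀ x, x ≠ 44 → x ≠ 47 → M6.v x = M5.v x := by
      intro x h2 h3; rw [hM6]; simp [h2, h3]
    have v644 : M6.v 44 = u := by rw [hM6]; simp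
    have v647 : M6.v 47 = M5.a 3 a u (B z) := by rw [hM6]; simp
    have a6 : M6.a = M5.a := rfl
    have e51 : M5.a 1 = M.a 1 := (a5 1 rfl (by decide)).trans hI.w1
    have e52 : M5.a 2 = M1.a 2 := a5 2 rfl (by decide)
    have e53 : M5.a 3 = M1.a 3 := a5 3 rfl (by decide)
    have e54 : M5.a 4 = M1.a 4 := a5 4 rfl (by decide)
    have e55 : M5.a 5 = M1.a 5 := a5 5 rfl (by decide)
    have ev5 : M6.v 5 = M1.v 5 := (v6 5 (by decide) (by decide)).trans
      (v5 5 rfl (by decide) (by decide))
    have v619 : M6.v 19 = a := v6 19 (by decide) (by decide)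
    have v646 : M6.v 46 = B z := (v6 46 (by decide) (by decide)).trans v546
    have hfl6 : FInv m G N (M.a 1) (M.a 3) (M.a 4) (M6.v 5) (M6.a 3) (M6.a 4) (M6.a 5) := by
      rw [ev5, a6, e53, e54, e55]; exact hI.fl
    have hpool6 : PoolOK m (M6.a 5) (M6.v 5) := by
      rw [ev5, a6, e55]; exact hI.grow.pool
    have htab : ∀ b, b < N → TabOK m (M1.a 5) (M1.a 2 b) (M1.v 5) := by
      intro b hb
      rw [hI.grow.other b (by omega)]
      exact (hC.tab b hb.le).ext hI.grow.ext hI.grow.np
    have hgens : gens m (M6.a 5) (M6.a 2 a) = stab G (wd m (M.a 1) a) := by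
      rw [a6, e55, e52, hI.grow.other a (by omega), gens_ext hI.grow.ext (hC.tab a haN.le).lt]
      exact hC.st a haN
    -- after the links are set
    have hset : Ex (.ite (.eq 47 3) setLinks .skip) M6 (tSet m + 1) (fun M7 =>
        FInv m G N (M.a 1) (M.a 3) (M.a 4) (M7.v 5) (M7.a 3) (M7.a 4) (M7.a 5) ∧
        M7.a 3 a u (B z) = N + 1 ∧ PoolOK m (M7.a 5) (M7.v 5) ∧ M6.v 5 ≤ M7.v 5 ∧
        Extends (M6.a 5) (M7.a 5) (M6.v 5) ∧
        (∀ a' y c : ℕ, M6.a 3 a' y c ≠ 0 → M7.a 3 a' y c = M6.a 3 a' y c ∧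
          M7.a 4 a' y c = M6.a 4 a' y c)) := by
      refine Ex.iteEq ?_ ?_
      · intro h2
        rw [v647, v6 3 (by decide) (by decide), v53] at h2
        have hs := setLinks_spec (M := M6) (m := m) (g := g) (N := N) u
          ((v6 0 (by decide) (by decide)).trans ((v5 0 rfl (by decide) (by decide)).trans hI.m0))
          ((v6 3 (by decide) (by decide)).trans v53) hpool6
          (by
            rw [v619, a6, e52, ev5]
            exact (htab a haN).lt)
          v644 ((v6 4 (by decide) (by decide)).trans ((v5 4 rfl (by decide) (by decide)).trans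
            hI.vN)) (by rw [a6]; exact hg)
        rw [v619, v646, hgens] at hs
        refine hs.post ?_
        intro M7 hf7 hS
        have h0 : M6.a 3 a (g z) (B z) = 0 := h2
        obtain ⟨hF, hu1⟩ := hfl6.setL haN hgG rfl hact hC.newB hC.lkle h0 hS
        refine ⟨hF, hu1, hS.pool, hS.np, hS.ext, ?_⟩
        intro a' y c hne
        apply hS.off
        rintro ⟨rfl, rfl, v', rfl, -, t, ht, htv⟩
        -- the flags of the orbit were not set
        rcases hfl6.new a v' (B z) with h3 | h3
        · have hle := hC.lkle a haN v' (B z)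
          obtain ⟨h4, h5, h6, h7⟩ := hfl6.link.link a (by omega) v' (B z) hne
          have hlt : M6.a 3 a v' (B z) - 1 < N := by omega
          apply hC.newB _ hlt ((pm m (row (M6.a 5) (M6.a 4 a v' (B z)))) * t * g)
            (G.mul_mem (G.mul_mem h6 ht.1) hgG)
          have hup : Function.update (wd m (M.a 1) a) u (B z) = act g B := by
            rw [← hact, hu, ← act_update, Function.update_idem, Function.update_eq_self]
          rw [← h7, act_mul, act_mul, ← hup, act_update t, ht.2, htv]
        · have h4 := (hfl6.base a haN v' (B z) h3.1 t⁻¹ (inv_mem ht)).1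
          have h5 : t⁻¹ v' = u := by rw [← htv]; simp
          rw [h5, h0] at h4
          omega
      · intro h2
        rw [v647, v6 3 (by decide) (by decide), v53] at h2
        refine (Ex.skip ?_).le (by unfold tSet; omega)
        refine ⟨hfl6, ?_, hpool6, le_rfl, Extends.refl _ _, fun _ _ _ _ => ⟨rfl, rfl⟩⟩
        rw [a6]
        rcases hfl6.new a u (B z) with h3 | h3
        · exfalso
          obtain ⟨h4, h5, h6, h7⟩ := hfl6.link.link a (by omega) u (B z) h2
          have hle := hC.lkle a haN u (B z)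
          have h2' : M6.a 3 a u (B z) ≠ 0 := h2
          have hlt : M6.a 3 a u (B z) - 1 < N := by omega
          apply hC.newB _ hlt ((pm m (row (M6.a 5) (M6.a 4 a u (B z)))) * g)
            (G.mul_mem h6 hgG)
          have hup : Function.update (wd m (M.a 1) a) u (B z) = act g B := by
            rw [← hact, hu, ← act_update, Function.update_idem, Function.update_eq_self]
          rw [← h7, act_mul, ← hup]
        · exact h3.1
    refine (Ex.bind (T2 := tIns m + 8 * m + 20) hset ?_).le (by omega)
    rintro M7 hf7 ⟨hF7, hu7, hpool7, hnp7, hext7, hold7⟩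
    have v7 : ∀ x, setLinks.wv x = false → x ≠ 44 → x ≠ 47 → canonP.wv x = false → x ≠ 46 →
        x < 60 → M7.v x = M1.v x := by
      intro x h1 h2 h3 h4 h5 h6
      rw [hf7.v x (by simp [Prog.wv, h1]), v6 x h2 h3, v5 x h4 h5 h6]
    have v719 : M7.v 19 = a := (hf7.v 19 rfl).trans v619
    have v744 : M7.v 44 = u := (hf7.v 44 rfl).trans v644
    have v746 : M7.v 46 = B z := (hf7.v 46 rfl).trans v646
    have v73 : M7.v 3 = 0 := (hf7.v 3 rfl).trans ((v6 3 (by decide) (by decide)).trans v53)
    have v70 : M7.v 0 = m := v7 0 rfl (by decide) (by decide) rfl (by decide) (by decide) |>.trans hI.m0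
    have v710 : M7.v 10 = N := v7 10 rfl (by decide) (by decide) rfl (by decide) (by decide) |>.trans hI.v10
    have a71 : M7.a 1 = M.a 1 := (hf7.a 1 rfl).trans e51
    have a72 : M7.a 2 = M1.a 2 := (hf7.a 2 rfl).trans e52
    have a79 : M7.a 9 = M5.a 9 := hf7.a 9 rfl
    set p := M7.a 4 a u (B z) with hp
    have hlk7 : M7.a 3 a u (B z) ≠ 0 := by omega
    obtain ⟨hl1, hl2, hl3, hl4⟩ := hF7.link.link a (by omega) u (B z) hlk7
    rw [hu7, Nat.add_sub_cancel] at hl4
    refine (Ex.opSeq (T2 := tIns m + 8 * m + 4) ?_).le (by omega)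
    have e8 : Op.exec M7 (.load 43 4 19 44 46) = M7.setV 43 p := by
      simp only [Op.exec, v719, v744, v746]
      rfl
    rw [e8]
    set M8 := M7.setV 43 p with hM8
    have v8 : ∀ x, x ≠ 43 → M8.v x = M7.v x := by
      intro x hx; rw [hM8]; simp [hx]
    have v843 : M8.v 43 = p := by rw [hM8]; simp
    have a8 : M8.a = M7.a := rfl
    have v83 : M8.v 3 = 0 := (v8 3 (by decide)).trans v73
    refine (Ex.bind (T2 := tIns m) (cmpL_spec (M := M8) (m := m) 9 3 5 43 10 3
      ((v8 0 (by decide)).trans v70) v83 (by decide) (by decide) (by decide)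
      (Or.inl (by decide))) ?_).le (by omega)
    intro M9 hf9 ha9
    rw [v83, v843, a8, a79] at ha9
    have v9 : ∀ x, x ≠ 43 → x < 60 → M9.v x = M7.v x := by
      intro x hx hx'
      rw [hf9.v x (by simp [cmpL, forP, Prog.wv, Op.wv]; omega), v8 x hx]
    have a9 : ∀ r, r ≠ 10 → M9.a r = M7.a r := by
      intro r hr
      rw [ha9, setRow_a_ne _ _ _ _ _ _ hr, a8]
    set h := pm m (row (M7.a 5) p) with hh
    have hhrow : RP (row (M7.a 5) p) h := (hpool7.vp p hl2).rp
    have hx1 : RP (row (M9.a 10) 0) (h * g) := by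
      rw [ha9]
      exact RP_setRow _ _ _ _ _ (RP.comp hg hhrow)
    have hup : Function.update (wd m (M.a 1) a) u (B z) = act g B := by
      rw [← hact, hu, ← act_update, Function.update_idem, Function.update_eq_self]
    have hhg : h * g ∈ stab G B := by
      refine ⟨G.mul_mem hl3 hgG, ?_⟩
      rw [act_mul, ← hup]
      exact hl4
    have v95 : M9.v 5 = M7.v 5 := v9 5 (by decide) (by decide)
    have v910 : M9.v 10 = N := (v9 10 (by decide) (by decide)).trans v710
    -- growth so far
    have hG7 : Grow m N (stab G B) M M7 := by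
      have htN : TabOK m (M7.a 5) (M7.a 2 N) (M7.v 5) := by
        rw [a72]
        have : TabOK m (M6.a 5) (M1.a 2 N) (M6.v 5) := by
          rw [a6, e55, ev5]; exact hI.grow.tab
        exact this.ext hext7 hnp7
      have hgN : gens m (M7.a 5) (M7.a 2 N) = gens m (M1.a 5) (M1.a 2 N) := by
        have h5 : Extends (M1.a 5) (M7.a 5) (M1.v 5) := by
          have := hext7
          rw [a6, e55, ev5] at this
          exact this
        rw [a72]
        exact gens_ext h5 hI.grow.tab.lt
      have h5 : Extends (M1.a 5) (M7.a 5) (M1.v 5) := by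
        have := hext7
        rw [a6, e55, ev5] at this
        exact this
      refine ⟨hpool7, hI.grow.np.trans (by rw [← ev5]; exact hnp7), hI.grow.ext.trans h5 hI.grow.np,
        ?_, htN, ?_, ?_⟩
      · intro b hb
        rw [a72]; exact hI.grow.other b hb
      · rw [hgN]; exact hI.grow.le
      · rw [hgN]; exact hI.grow.sub
    have hins := insertP_grow (M := M9) (stab G B) hhg
      ((v9 0 (by decide) (by decide)).trans v70) ((v9 3 (by decide) (by decide)).trans v73)
      (by rw [a9 5 (by decide), v95]; exact hpool7)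
      (by rw [a9 5 (by decide), a9 2 (by decide), v95, v910]; exact hG7.tab) hx1
    rw [v910] at hins
    refine hins.post ?_
    rintro M10 hf10 ⟨hgr, hmem⟩
    have v10' : ∀ x, insertP.wv x = false → x ≠ 43 → x < 60 → M10.v x = M7.v x := by
      intro x h1 h2 h3
      rw [hf10.v x h1, v9 x h2 h3]
    have a10' : ∀ r, insertP.wa r = false → r ≠ 10 → M10.a r = M7.a r := by
      intro r h1 h2
      rw [hf10.a r h1, a9 r h2]
    have hgr' : Grow m N (stab G B) M7 M10 :=
      hgr.congr (a9 5 (by decide)).symm (a9 2 (by decide)).symm v95.symm rfl rfl rfl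
    have hext10 : Extends (M7.a 5) (M10.a 5) (M7.v 5) := hgr'.ext
    have hF10 : FInv m G N (M.a 1) (M.a 3) (M.a 4) (M10.v 5) (M10.a 3) (M10.a 4) (M10.a 5) := by
      rw [a10' 3 rfl (by decide), a10' 4 rfl (by decide)]
      exact hF7.ext hext10 hgr'.np
    have a103 : M10.a 3 = M7.a 3 := a10' 3 rfl (by decide)
    have a104 : M10.a 4 = M7.a 4 := a10' 4 rfl (by decide)
    refine ⟨(v10' 0 rfl (by decide) (by decide)).trans v70,
      (v10' 3 rfl (by decide) (by decide)).trans v73,
      (v10' 4 rfl (by decide) (by decide)).trans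
        ((v7 4 rfl (by decide) (by decide) rfl (by decide) (by decide)).trans hI.vN),
      (v10' 10 rfl (by decide) (by decide)).trans v710, (a10' 1 rfl (by decide)).trans a71,
      hG7.trans hgr', hF10, ?_, ?_⟩
    · intro z' hz' hne a' ha' g' hg' hact'
      rw [a103]
      rcases Nat.lt_succ_iff_lt_or_eq.1 hz' with h2 | h2
      · have h3 := hI.proc z' h2 hne a' ha' g' hg' hact'
        have h4 : M6.a 3 a' (g' z') (B z') ≠ 0 := by rw [a6, e53]; exact h3
        rw [(hold7 _ _ _ h4).1]
        exact h4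
      · have hzz : z' = z := Fin.ext h2
        subst hzz
        -- same representative, and the flags are in one orbit
        have h3 : act (g' * g⁻¹) (wd m (M.a 1) a) = wd m (M.a 1) a' := by
          rw [act_mul, ← hact, act_inv_act, hact']
        have h4 : a = a' := hC.dist a haN a' ha' _ (G.mul_mem hg' (G.inv_mem hgG)) h3
        rw [← h4] at h3 ⊢
        have h5 := (hF7.base a haN u (B z') hu7 (g' * g⁻¹)
          ⟨G.mul_mem hg' (G.inv_mem hgG), h3⟩).1
        have h6 : (g' * g⁻¹) u = g' z' := by rw [hu]; simp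
        rw [h6] at h5
        have h7 : M7.a 3 a (g' z') (wd m (M.a 1) N z') = N + 1 := h5
        omega
    · intro z' hz' hne
      rcases Nat.lt_succ_iff_lt_or_eq.1 hz' with h2 | h2
      · obtain ⟨q, hq, a', ha'', g', hg', h3, h4, h5⟩ := hI.wit z' h2 hne
        have h4' : M6.a 3 a' (g' z') (B z') = N + 1 := by rw [a6, e53]; exact h4
        obtain ⟨h6, h7⟩ := hold7 a' (g' z') (B z') (by rw [h4']; exact Nat.succ_ne_zero _)
        have hl := hI.fl.link.link a' (by omega) (g' z') (B z')
          (by
            have h4'' : M1.a 3 a' (g' z') (B z') = N + 1 := h4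
            rw [h4'']; exact Nat.succ_ne_zero _)
        have h8 : M7.a 4 a' (g' z') (B z') = M1.a 4 a' (g' z') (B z') := by
          rw [h7, a6, e54]
        have h9 : row (M7.a 5) (M1.a 4 a' (g' z') (B z')) =
            row (M1.a 5) (M1.a 4 a' (g' z') (B z')) := by
          have h5 : Extends (M1.a 5) (M7.a 5) (M1.v 5) := by
            have := hext7
            rw [a6, e55, ev5] at this
            exact this
          exact h5.row hl.2.1
        have h10 : M1.a 4 a' (g' z') (B z') < M7.v 5 := by
          have := hl.2.1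
          rw [← ev5] at this
          omega
        refine ⟨q, ?_, a', ha'', g', hg', h3, ?_, ?_⟩
        · have h11 : gens m (M1.a 5) (M1.a 2 N) ≤ gens m (M7.a 5) (M7.a 2 N) := by
            have h5 : Extends (M1.a 5) (M7.a 5) (M1.v 5) := by
              have := hext7
              rw [a6, e55, ev5] at this
              exact this
            rw [a72, gens_ext h5 hI.grow.tab.lt]
          exact hgr'.le (h11 hq)
        · rw [a103, h6]; exact h4'
        · rw [a104, h8, hext10.row h10, h9]
          exact h5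
      · have hzz : z' = z := Fin.ext h2
        subst hzz
        refine ⟨h * g, hmem, a, haN, g, hgG, hact, ?_, ?_⟩
        · rw [a103]; exact hu7
        · rw [a104, hext10.row hl2]
          rfl

end Pool.Agent.W984.OL
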