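import Pool.Agent.W984.OL.Schreier

set_option autoImplicit false
set_option linter.unusedSimpArgs false
set_option linter.unusedVariables false

/-! Setting the links of an orbit of flags. -/

namespace Pool.Agent.W984.OL

open Equiv

/-- Set the link of one flag. -/
def setOne : Prog :=
  .seq (.op (.load 47 6 3 40 3)) (.ite (.eq 47 3) .skip
    (.seq (.op (.store 3 19 40 46 48))
      (.seq (cmpL 9 3 7 40 12 3)
        (.seq (invL 12 3 5 5)
          (.seq (.op (.store 4 19 40 46 5)) (.op (.succ 5)))))))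

/-- Set the links of the orbit of the flag `(v 19, v 44, v 46)`. -/
def setLinks : Prog :=
  .seq (.op (.copy 11 19)) (.seq (.op (.copy 12 44)) (.seq orbitP
    (.seq (.op (.copy 48 4)) (.seq (.op (.succ 48)) (forP 40 0 setOne)))))

/-- The links of the flags `(a, v, d)`, `v < x` in the orbit of `u`, have been set. -/
structure SetL {m : ℕ} (a d N : ℕ) (u : Fin m) (g : Perm (Fin m)) (K : Subgroup (Perm (Fin m)))
    (x : ℕ) (M M' : Mem) : Prop where
  on : ∀ v : Fin m, (v : ℕ) < x → (∃ t ∈ K, t u = v) → M'.a 3 a v d = N + 1 ∧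
    M'.a 4 a v d < M'.v 5 ∧ ∃ t ∈ K, t u = v ∧ RP (row (M'.a 5) (M'.a 4 a v d)) (t * g)⁻¹
  off : ∀ a' y c, ¬ (a' = a ∧ c = d ∧ ∃ v : Fin m, (v : ℕ) = y ∧ y < x ∧ ∃ t ∈ K, t u = v) →
    M'.a 3 a' y c = M.a 3 a' y c ∧ M'.a 4 a' y c = M.a 4 a' y c
  pool : PoolOK m (M'.a 5) (M'.v 5)
  np : M.v 5 ≤ M'.v 5
  ext : Extends (M.a 5) (M'.a 5) (M.v 5)

theorem setOne_spec {m : ℕ} {M : Mem} {K : Subgroup (Perm (Fin m))} {g : Perm (Fin m)} {N : ℕ}
    (u v : Fin m) (hm : M.v 0 = m) (hz : M.v 3 = 0) (hP : PoolOK m (M.a 5) (M.v 5))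
    (hO : OrbR K u (M.a 6) (M.a 7)) (hv : M.v 40 = v) (h48 : M.v 48 = N + 1)
    (hg : RP (row (M.a 9) 0) g) :
    Ex setOne M (14 * m + 20) (fun M' => PoolOK m (M'.a 5) (M'.v 5) ∧ M.v 5 ≤ M'.v 5 ∧
      Extends (M.a 5) (M'.a 5) (M.v 5) ∧
      ((∃ t ∈ K, t u = v) → M'.a 3 (M.v 19) v (M.v 46) = N + 1 ∧
        M'.a 4 (M.v 19) v (M.v 46) < M'.v 5 ∧
        ∃ t ∈ K, t u = v ∧ RP (row (M'.a 5) (M'.a 4 (M.v 19) v (M.v 46))) (t * g)⁻¹) ∧
      ∀ a' y c : ℕ, ¬ (a' = M.v 19 ∧ c = M.v 46 ∧ y = (v : ℕ) ∧ ∃ t ∈ K, t u = v) →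
        M'.a 3 a' y c = M.a 3 a' y c ∧ M'.a 4 a' y c = M.a 4 a' y c) := by
  unfold setOne
  refine (Ex.opSeq (T2 := 14 * m + 18) ?_)
  have e : Op.exec M (.load 47 6 3 40 3) = M.setV 47 (M.a 6 0 v 0) := by
    simp only [Op.exec, hz, hv]
  rw [e]
  set M0 := M.setV 47 (M.a 6 0 v 0) with hM0
  have v0 : ∀ x, x ≠ 47 → M0.v x = M.v x := by
    intro x hx; rw [hM0]; simp [hx]
  refine (Ex.iteEq (T := 14 * m + 17) ?_ ?_)
  · intro h1
    have h1' : M.a 6 0 v 0 = 0 := by simpa [hM0, hz] using h1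
    have hno : ¬ ∃ t ∈ K, t u = v := by
      rintro ⟨t, ht, htv⟩
      have := hO.all t ht
      rw [htv] at this
      exact this h1'
    refine (Ex.skip ?_).le (by omega)
    refine ⟨hP, le_rfl, Extends.refl _ _, fun h => absurd h hno, fun a' y c _ => ⟨rfl, rfl⟩⟩
  · intro h1
    have h1' : M.a 6 0 v 0 ≠ 0 := by simpa [hM0, hz] using h1
    obtain ⟨t, htK, ht, htu⟩ := hO.sound v h1'
    refine (Ex.opSeq (T2 := 14 * m + 13) ?_).le (by omega)
    have e1 : Op.exec M0 (.store 3 19 40 46 48) = M0.setA 3 (M.v 19) v (M.v 46) (N + 1) := by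
      simp only [Op.exec, v0 19 (by decide), v0 40 (by decide), v0 46 (by decide),
        v0 48 (by decide), hv, h48]
    rw [e1]
    set M1 := M0.setA 3 (M.v 19) v (M.v 46) (N + 1) with hM1
    have v1 : ∀ x, x ≠ 47 → M1.v x = M.v x := by
      intro x hx; rw [hM1, setA_v, v0 x hx]
    have a1 : ∀ r, r ≠ 3 → M1.a r = M.a r := by
      intro r hr; rw [hM1, setA_a_ne _ _ _ _ _ _ _ hr]; rfl
    have v13 : M1.v 3 = 0 := (v1 3 (by decide)).trans hz
    refine (Ex.bind (T2 := 6 * m + 8) (cmpL_spec (M := M1) (m := m) 9 3 7 40 12 3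
      ((v1 0 (by decide)).trans hm) v13 (by decide) (by decide) (by decide)
      (Or.inl (by decide))) ?_).le (by omega)
    intro M2 hf2 ha2
    rw [v13, v1 40 (by decide), hv, a1 7 (by decide), a1 9 (by decide)] at ha2
    have v2 : ∀ x, x ≠ 47 → x < 60 → M2.v x = M.v x := by
      intro x hx hx'
      rw [hf2.v x (by simp [cmpL, forP, Prog.wv, Op.wv]; omega), v1 x hx]
    have htmp : RP (row (M2.a 12) 0) (t * g) := by
      rw [ha2]
      exact RP_setRow _ _ _ _ _ (RP.comp hg ht)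
    have a2 : ∀ r, r ≠ 3 → r ≠ 12 → M2.a r = M.a r := by
      intro r hr hr'
      rw [ha2, setRow_a_ne _ _ _ _ _ _ hr', a1 r hr]
    have v23 : M2.v 3 = 0 := (v2 3 (by decide) (by decide)).trans hz
    have v25 : M2.v 5 = M.v 5 := v2 5 (by decide) (by decide)
    refine (Ex.bind (T2 := 3) (invL_spec' (M := M2) (m := m) 12 3 5 5
      ((v2 0 (by decide) (by decide)).trans hm) v23 (by decide) (by decide)
      (Or.inl (by decide)) (t * g) (by rw [v23]; exact htmp)) ?_).le (by omega)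
    intro M3 hf3 ha3
    rw [v25] at ha3
    have v3 : ∀ x, x ≠ 47 → x < 60 → M3.v x = M.v x := by
      intro x hx hx'
      rw [hf3.v x (by simp [invL, forP, Prog.wv, Op.wv]; omega), v2 x hx hx']
    have a3 : ∀ r, r ≠ 3 → r ≠ 5 → r ≠ 12 → M3.a r = M.a r := by
      intro r hr hr' hr''
      rw [ha3, setRow_a_ne _ _ _ _ _ _ hr', a2 r hr hr'']
    have a33 : M3.a 3 = M1.a 3 := by
      rw [ha3, setRow_a_ne _ _ _ _ _ _ (by decide), ha2, setRow_a_ne _ _ _ _ _ _ (by decide)]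
    have hext : Extends (M.a 5) (M3.a 5) (M.v 5) := by
      intro q hq
      rw [ha3, setRow_a_ne' _ _ _ _ _ _ (by omega), a2 5 (by decide) (by decide)]
    have hrow : RP (row (M3.a 5) (M.v 5)) (t * g)⁻¹ := by
      rw [ha3]
      exact RP_setRow _ _ _ _ _ (RP_fn _)
    refine Ex.opSeq (T2 := 1) (Ex.op ?_)
    have e4 : Op.exec (Op.exec M3 (.store 4 19 40 46 5)) (.succ 5) =
        (M3.setA 4 (M.v 19) v (M.v 46) (M.v 5)).setV 5 (M.v 5 + 1) := by
      simp only [Op.exec, v3 19 (by decide) (by decide), v3 40 (by decide) (by decide),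
        v3 46 (by decide) (by decide), v3 5 (by decide) (by decide), hv, setA_v]
    rw [e4]
    set M4 := (M3.setA 4 (M.v 19) v (M.v 46) (M.v 5)).setV 5 (M.v 5 + 1) with hM4
    have a45 : M4.a 5 = M3.a 5 := by
      rw [hM4, setV_a, setA_a_ne _ _ _ _ _ _ _ (by decide)]
    have a43 : M4.a 3 = M1.a 3 := by
      rw [hM4, setV_a, setA_a_ne _ _ _ _ _ _ _ (by decide), a33]
    have a44 : ∀ a' y c, M4.a 4 a' y c = if a' = M.v 19 ∧ y = v ∧ c = M.v 46 then M.v 5
        else M.a 4 a' y c := by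
      intro a' y c
      rw [hM4, setV_a, setA_a, a3 4 (by decide) (by decide) (by decide)]
      simp
    have a13 : ∀ a' y c, M1.a 3 a' y c = if a' = M.v 19 ∧ y = v ∧ c = M.v 46 then N + 1
        else M.a 3 a' y c := by
      intro a' y c
      rw [hM1, setA_a]
      simp [hM0]
    have v45 : M4.v 5 = M.v 5 + 1 := by rw [hM4]; simp
    refine ⟨?_, ?_, ?_, ?_, ?_⟩
    · rw [a45, v45]
      exact hP.succ hext ⟨_, hrow⟩
    · rw [v45]; exact Nat.le_succ _
    · rw [a45]; exact hext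
    · intro _
      rw [a43, a13, if_pos ⟨rfl, rfl, rfl⟩, a44, if_pos ⟨rfl, rfl, rfl⟩, v45, a45]
      exact ⟨rfl, Nat.lt_succ_self _, t, htK, htu, hrow⟩
    · intro a' y c hne
      have hne' : ¬ (a' = M.v 19 ∧ y = v ∧ c = M.v 46) := by
        rintro ⟨h2, h3, h4⟩
        exact hne ⟨h2, h4, h3, t, htK, htu⟩
      rw [a43, a13, if_neg hne', a44, if_neg hne']
      exact ⟨rfl, rfl⟩

/-- Time bound for `setLinks`. -/
def tSet (m : ℕ) : ℕ := tOrb m + m * (14 * m + 23) + 20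

theorem setLinks_spec {m : ℕ} {M : Mem} {g : Perm (Fin m)} {N : ℕ}
    (u : Fin m) (hm : M.v 0 = m) (hz : M.v 3 = 0) (hP : PoolOK m (M.a 5) (M.v 5))
    (hT : ∀ i < m, ∀ j < m, M.a 2 (M.v 19) i j < M.v 5)
    (hu : M.v 44 = u) (hN : M.v 4 = N) (hg : RP (row (M.a 9) 0) g) :
    Ex setLinks M (tSet m) (fun M' =>
      SetL (M.v 19) (M.v 46) N u g (gens m (M.a 5) (M.a 2 (M.v 19))) m M M') := by
  unfold setLinks tSet
  refine (Ex.opSeq (T2 := tOrb m + m * (14 * m + 23) + 18)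
    (Ex.opSeq (T2 := tOrb m + m * (14 * m + 23) + 16) ?_))
  set M1 := Op.exec (Op.exec M (.copy 11 19)) (.copy 12 44) with hM1
  have v1 : ∀ x, x ≠ 11 → x ≠ 12 → M1.v x = M.v x := by
    intro x hx hx'; rw [hM1]; simp [Op.exec, hx, hx']
  have v111 : M1.v 11 = M.v 19 := by rw [hM1]; simp [Op.exec]
  have v112 : M1.v 12 = u := by rw [hM1]; simp [Op.exec, hu]
  have a1 : M1.a = M.a := rfl
  have ho := orbitP_spec (M := M1) (m := m) (np := M.v 5)
    ((v1 0 (by decide) (by decide)).trans hm) ((v1 3 (by decide) (by decide)).trans hz)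
    (by rw [a1]; exact hP) u v112 (by rw [v111, a1]; exact hT)
  rw [v111, a1] at ho
  set K := gens m (M.a 5) (M.a 2 (M.v 19)) with hK
  refine (Ex.bind (T2 := m * (14 * m + 23) + 7) ho ?_).le (by omega)
  intro M2 hf2 hO
  have v2 : ∀ x, orbitP.wv x = false → x ≠ 11 → x ≠ 12 → M2.v x = M.v x := by
    intro x hx hx' hx''
    rw [hf2.v x hx, v1 x hx' hx'']
  refine (Ex.opSeq (T2 := m * (14 * m + 23) + 5) (Ex.opSeq (T2 := m * (14 * m + 23) + 3) ?_))
  set M3 := Op.exec (Op.exec M2 (.copy 48 4)) (.succ 48) with hM3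
  have v3 : ∀ x, x ≠ 48 → M3.v x = M2.v x := by
    intro x hx; rw [hM3]; simp [Op.exec, hx]
  have v348 : M3.v 48 = N + 1 := by
    rw [hM3]
    simp [Op.exec, v2 4 rfl (by decide) (by decide), hN]
  have a3 : M3.a = M2.a := rfl
  have f3 : ∀ r, orbitP.wa r = false → M3.a r = M.a r := by
    intro r hr
    rw [a3, hf2.a r hr, a1]
  refine Ex.forP (T := 14 * m + 20) (fun x M4 => SetL (M.v 19) (M.v 46) N u g K x M M4)
    ((v3 0 (by decide)).trans ((v2 0 rfl (by decide) (by decide)).trans hm)) rfl rfl rfl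
    ?_ ?_ (fun M' _ _ h => h)
  · have e5 : M3.a 5 = M.a 5 := f3 5 rfl
    have ev5 : M3.v 5 = M.v 5 := (v3 5 (by decide)).trans (v2 5 rfl (by decide) (by decide))
    refine ⟨fun v hv => absurd hv (Nat.not_lt_zero _), ?_, ?_, ?_, ?_⟩
    · intro a' y c _
      simp only [setV_a]
      rw [f3 3 rfl, f3 4 rfl]
      exact ⟨rfl, rfl⟩
    · simp only [setV_a, setV_v, if_neg (show ¬ (5 = 40) by decide)]
      rw [e5, ev5]; exact hP
    · simp only [setV_a, setV_v, if_neg (show ¬ (5 = 40) by decide)]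
      rw [ev5]
    · simp only [setV_a]
      rw [e5]; exact Extends.refl _ _
  · intro v hv M4 hf4 hv4 hI
    have w4 : ∀ x, (forP 40 0 setOne).wv x = false → x ≠ 48 → orbitP.wv x = false → x ≠ 11 →
        x ≠ 12 → M4.v x = M.v x := by
      intro x h1 h2 h3 h4 h5
      rw [hf4.v x h1, v3 x h2, v2 x h3 h4 h5]
    have e19 : M4.v 19 = M.v 19 := w4 19 rfl (by decide) rfl (by decide) (by decide)
    have e46 : M4.v 46 = M.v 46 := w4 46 rfl (by decide) rfl (by decide) (by decide)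
    have e6 : M4.a 6 = M2.a 6 := hf4.a 6 rfl
    have e7 : M4.a 7 = M2.a 7 := hf4.a 7 rfl
    have e9 : M4.a 9 = M.a 9 := (hf4.a 9 rfl).trans (f3 9 rfl)
    have hs := setOne_spec (M := M4) (m := m) (K := K) (g := g) (N := N) u ⟨v, hv⟩
      ((w4 0 rfl (by decide) rfl (by decide) (by decide)).trans hm)
      ((w4 3 rfl (by decide) rfl (by decide) (by decide)).trans hz) hI.pool
      (by rw [e6, e7]; exact hO) hv4 ((hf4.v 48 rfl).trans v348) (by rw [e9]; exact hg)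
    rw [e19, e46] at hs
    refine hs.post ?_
    intro M5 hf5 hQ
    obtain ⟨h1, h2, h3, h4, h5⟩ := hQ
    have ev5 : (M5.setV 40 (v + 1)).v 5 = M5.v 5 := by simp
    refine ⟨?_, ?_, ?_, ?_, ?_⟩
    · intro v' hv' hex
      rw [setV_a, ev5]
      rcases Nat.lt_succ_iff_lt_or_eq.1 hv' with h6 | h6
      · obtain ⟨h7, h8, t, h9, h10, h11⟩ := hI.on v' h6 hex
        have hne : ¬ (M.v 19 = M.v 19 ∧ M.v 46 = M.v 46 ∧ (v' : ℕ) = (⟨v, hv⟩ : Fin m) ∧
            ∃ t ∈ K, t u = ⟨v, hv⟩) := by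
          rintro ⟨-, -, h12, -⟩
          have : (v' : ℕ) = v := h12
          omega
        obtain ⟨h12, h13⟩ := h5 _ _ _ hne
        rw [h12, h13]
        refine ⟨h7, h8.trans_le h2, t, h9, h10, ?_⟩
        rw [h3.row h8]
        exact h11
      · have hvv : v' = ⟨v, hv⟩ := Fin.ext h6
        rw [hvv] at hex ⊢
        exact h4 hex
    · intro a' y c hne
      rw [setV_a]
      have hne1 : ¬ (a' = M.v 19 ∧ c = M.v 46 ∧ y = (⟨v, hv⟩ : Fin m) ∧
          ∃ t ∈ K, t u = ⟨v, hv⟩) := by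
        rintro ⟨h6, h7, h8, h9⟩
        exact hne ⟨h6, h7, ⟨v, hv⟩, h8.symm, by rw [h8]; exact Nat.lt_succ_self _, h9⟩
      have hne2 : ¬ (a' = M.v 19 ∧ c = M.v 46 ∧ ∃ v' : Fin m, (v' : ℕ) = y ∧ y < v ∧
          ∃ t ∈ K, t u = v') := by
        rintro ⟨h6, h7, v', h8, h9, h10⟩
        exact hne ⟨h6, h7, v', h8, by omega, h10⟩
      obtain ⟨h6, h7⟩ := h5 a' y c hne1
      obtain ⟨h8, h9⟩ := hI.off a' y c hne2
      exact ⟨h6.trans h8, h7.trans h9⟩
    · rw [setV_a, ev5]; exact h1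
    · rw [ev5]; exact hI.np.trans h2
    · rw [setV_a]; exact hI.ext.trans h3 hI.np

end Pool.Agent.W984.OL
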