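import Pool.Agent.W984.OL.Model

set_option autoImplicit false

/-! Rules for the running time of programs of the random access machine. -/

namespace Pool.Agent.W984.OL

@[simp] theorem setV_v (M : Mem) (x n y : ℕ) : (M.setV x n).v y = if y = x then n else M.v y := rfl
@[simp] theorem setV_a (M : Mem) (x n : ℕ) : (M.setV x n).a = M.a := rfl
@[simp] theorem setV_out (M : Mem) (x n : ℕ) : (M.setV x n).out = M.out := rfl
@[simp] theorem setA_v (M : Mem) (r i j l n : ℕ) : (M.setA r i j l n).v = M.v := rfl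
@[simp] theorem setA_out (M : Mem) (r i j l n : ℕ) : (M.setA r i j l n).out = M.out := rfl
theorem setA_a (M : Mem) (r i j l n r' i' j' l' : ℕ) : (M.setA r i j l n).a r' i' j' l' =
    if r' = r ∧ i' = i ∧ j' = j ∧ l' = l then n else M.a r' i' j' l' := rfl
theorem setA_a_ne (M : Mem) (r i j l n r' : ℕ) (h : r' ≠ r) :
    (M.setA r i j l n).a r' = M.a r' := by
  funext i' j' l'
  rw [setA_a, if_neg (fun h' => h h'.1)]

/-! ## Frames -/

/-- Does the instruction write to register `x`? -/
def Op.wv (x : ℕ) : Op → Bool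
  | .const y _ => x == y
  | .copy y _ => x == y
  | .succ y => x == y
  | .pred y => x == y
  | .load y _ _ _ _ => x == y
  | .store _ _ _ _ _ => false
  | .emit _ => false

/-- Does the instruction write to array `r`? -/
def Op.wa (r : ℕ) : Op → Bool
  | .store r' _ _ _ _ => r == r'
  | _ => false

/-- Does the instruction output? -/
def Op.em : Op → Bool
  | .emit _ => true
  | _ => false

/-- Does the program write to register `x`? -/
def Prog.wv (x : ℕ) : Prog → Bool
  | .skip => false
  | .op o => o.wv x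
  | .seq p q => p.wv x || q.wv x
  | .ite _ p q => p.wv x || q.wv x
  | .loop _ p => p.wv x

/-- Does the program write to array `r`? -/
def Prog.wa (r : ℕ) : Prog → Bool
  | .skip => false
  | .op o => o.wa r
  | .seq p q => p.wa r || q.wa r
  | .ite _ p q => p.wa r || q.wa r
  | .loop _ p => p.wa r

/-- Does the program output? -/
def Prog.em : Prog → Bool
  | .skip => false
  | .op o => o.em
  | .seq p q => p.em || q.em
  | .ite _ p q => p.em || q.em
  | .loop _ p => p.em

theorem Op.exec_v (o : Op) (M : Mem) (x : ℕ) (h : o.wv x = false) : (o.exec M).v x = M.v x := by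
  cases o <;> simp_all [Op.wv, Op.exec]

theorem Op.exec_a (o : Op) (M : Mem) (r : ℕ) (h : o.wa r = false) : (o.exec M).a r = M.a r := by
  cases o
  case store r' i j l x =>
    simp only [Op.wa, beq_eq_false_iff_ne, ne_eq] at h
    exact setA_a_ne _ _ _ _ _ _ _ h
  all_goals simp_all [Op.exec]

theorem Op.exec_out (o : Op) (M : Mem) (h : o.em = false) : (o.exec M).out = M.out := by
  cases o <;> simp_all [Op.em, Op.exec]

theorem step_v (x : ℕ) (c : Config) (h : ∀ p ∈ c.1, p.wv x = false) :
    (∀ p ∈ (step c).1, p.wv x = false) ∧ (step c).2.v x = c.2.v x := by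
  obtain ⟨K, M⟩ := c
  cases K with
  | nil => exact ⟨h, rfl⟩
  | cons p K =>
    simp only [List.mem_cons, forall_eq_or_imp] at h
    cases p with
    | skip => exact ⟨h.2, rfl⟩
    | op o => exact ⟨h.2, o.exec_v M x h.1⟩
    | seq p q =>
      simp only [Prog.wv, Bool.or_eq_false_iff] at h
      refine ⟨?_, rfl⟩
      simp only [step, List.mem_cons, forall_eq_or_imp]
      exact ⟨h.1.1, h.1.2, h.2⟩
    | ite t p q =>
      simp only [Prog.wv, Bool.or_eq_false_iff] at h
      simp only [step]
      split_ifs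
      · simp only [List.mem_cons, forall_eq_or_imp]
        exact ⟨⟨h.1.1, h.2⟩, trivial⟩
      · simp only [List.mem_cons, forall_eq_or_imp]
        exact ⟨⟨h.1.2, h.2⟩, trivial⟩
    | loop t p =>
      simp only [step]
      split_ifs
      · simp only [List.mem_cons, forall_eq_or_imp]
        exact ⟨⟨h.1, h.1, h.2⟩, trivial⟩
      · exact ⟨h.2, rfl⟩

theorem step_a (r : ℕ) (c : Config) (h : ∀ p ∈ c.1, p.wa r = false) :
    (∀ p ∈ (step c).1, p.wa r = false) ∧ (step c).2.a r = c.2.a r := by
  obtain ⟨K, M⟩ := c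
  cases K with
  | nil => exact ⟨h, rfl⟩
  | cons p K =>
    simp only [List.mem_cons, forall_eq_or_imp] at h
    cases p with
    | skip => exact ⟨h.2, rfl⟩
    | op o => exact ⟨h.2, o.exec_a M r h.1⟩
    | seq p q =>
      simp only [Prog.wa, Bool.or_eq_false_iff] at h
      refine ⟨?_, rfl⟩
      simp only [step, List.mem_cons, forall_eq_or_imp]
      exact ⟨h.1.1, h.1.2, h.2⟩
    | ite t p q =>
      simp only [Prog.wa, Bool.or_eq_false_iff] at h
      simp only [step]
      split_ifs
      · simp only [List.mem_cons, forall_eq_or_imp]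
        exact ⟨⟨h.1.1, h.2⟩, trivial⟩
      · simp only [List.mem_cons, forall_eq_or_imp]
        exact ⟨⟨h.1.2, h.2⟩, trivial⟩
    | loop t p =>
      simp only [step]
      split_ifs
      · simp only [List.mem_cons, forall_eq_or_imp]
        exact ⟨⟨h.1, h.1, h.2⟩, trivial⟩
      · exact ⟨h.2, rfl⟩

theorem step_out (c : Config) (h : ∀ p ∈ c.1, p.em = false) :
    (∀ p ∈ (step c).1, p.em = false) ∧ (step c).2.out = c.2.out := by
  obtain ⟨K, M⟩ := c
  cases K with
  | nil => exact ⟨h, rfl⟩
  | cons p K =>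
    simp only [List.mem_cons, forall_eq_or_imp] at h
    cases p with
    | skip => exact ⟨h.2, rfl⟩
    | op o => exact ⟨h.2, o.exec_out M h.1⟩
    | seq p q =>
      simp only [Prog.em, Bool.or_eq_false_iff] at h
      refine ⟨?_, rfl⟩
      simp only [step, List.mem_cons, forall_eq_or_imp]
      exact ⟨h.1.1, h.1.2, h.2⟩
    | ite t p q =>
      simp only [Prog.em, Bool.or_eq_false_iff] at h
      simp only [step]
      split_ifs
      · simp only [List.mem_cons, forall_eq_or_imp]
        exact ⟨⟨h.1.1, h.2⟩, trivial⟩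
      · simp only [List.mem_cons, forall_eq_or_imp]
        exact ⟨⟨h.1.2, h.2⟩, trivial⟩
    | loop t p =>
      simp only [step]
      split_ifs
      · simp only [List.mem_cons, forall_eq_or_imp]
        exact ⟨⟨h.1, h.1, h.2⟩, trivial⟩
      · exact ⟨h.2, rfl⟩

/-! ## Evaluation -/

/-- Program `p`, started in the memory `M`, ends in the memory `M'` after exactly `t` steps. -/
def Ev (p : Prog) (M : Mem) (t : ℕ) (M' : Mem) : Prop :=
  ∀ K, step^[t] (p :: K, M) = (K, M')

/-- The memory `M'` agrees with `M` on everything that `p` does not write. -/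
structure Fr (p : Prog) (M M' : Mem) : Prop where
  v : ∀ x, p.wv x = false → M'.v x = M.v x
  a : ∀ r, p.wa r = false → M'.a r = M.a r
  out : p.em = false → M'.out = M.out

theorem Ev.fr {p : Prog} {M M' : Mem} {t : ℕ} (h : Ev p M t M') : Fr p M M' := by
  have h0 := h []
  refine ⟨fun x hx => ?_, fun r hr => ?_, fun ho => ?_⟩
  · have key : ∀ t, (∀ q ∈ (step^[t] ([p], M)).1, q.wv x = false) ∧
        (step^[t] ([p], M)).2.v x = M.v x := by
      intro t
      induction t with
      | zero => simpa using hx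
      | succ t ih =>
        rw [Function.iterate_succ_apply']
        obtain ⟨h1, h2⟩ := step_v x _ ih.1
        exact ⟨h1, h2.trans ih.2⟩
    have := (key t).2
    rwa [h0] at this
  · have key : ∀ t, (∀ q ∈ (step^[t] ([p], M)).1, q.wa r = false) ∧
        (step^[t] ([p], M)).2.a r = M.a r := by
      intro t
      induction t with
      | zero => simpa using hr
      | succ t ih =>
        rw [Function.iterate_succ_apply']
        obtain ⟨h1, h2⟩ := step_a r _ ih.1
        exact ⟨h1, h2.trans ih.2⟩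
    have := (key t).2
    rwa [h0] at this
  · have key : ∀ t, (∀ q ∈ (step^[t] ([p], M)).1, q.em = false) ∧
        (step^[t] ([p], M)).2.out = M.out := by
      intro t
      induction t with
      | zero => simpa using ho
      | succ t ih =>
        rw [Function.iterate_succ_apply']
        obtain ⟨h1, h2⟩ := step_out _ ih.1
        exact ⟨h1, h2.trans ih.2⟩
    have := (key t).2
    rwa [h0] at this

/-- Program `p`, started in `M`, ends after at most `T` steps in a memory satisfying `Q`. -/
def Ex (p : Prog) (M : Mem) (T : ℕ) (Q : Mem → Prop) : Prop :=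
  ∃ t ≤ T, ∃ M', Ev p M t M' ∧ Q M'

theorem Ex.mono {p : Prog} {M : Mem} {T T' : ℕ} {Q Q' : Mem → Prop} (h : Ex p M T Q)
    (hT : T ≤ T') (hQ : ∀ M', Fr p M M' → Q M' → Q' M') : Ex p M T' Q' := by
  obtain ⟨t, ht, M', he, hq⟩ := h
  exact ⟨t, ht.trans hT, M', he, hQ M' he.fr hq⟩

theorem Ex.post {p : Prog} {M : Mem} {T : ℕ} {Q Q' : Mem → Prop} (h : Ex p M T Q)
    (hQ : ∀ M', Fr p M M' → Q M' → Q' M') : Ex p M T Q' := h.mono le_rfl hQ

theorem Ex.skip {M : Mem} {Q : Mem → Prop} (h : Q M) : Ex .skip M 1 Q :=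
  ⟨1, le_rfl, M, fun _ => rfl, h⟩

theorem Ex.op {o : Op} {M : Mem} {Q : Mem → Prop} (h : Q (o.exec M)) : Ex (.op o) M 1 Q :=
  ⟨1, le_rfl, _, fun _ => rfl, h⟩

theorem Ex.seq {p q : Prog} {M : Mem} {T1 T2 : ℕ} {Q : Mem → Prop}
    (h : Ex p M T1 (fun M1 => Ex q M1 T2 Q)) : Ex (.seq p q) M (T1 + T2 + 1) Q := by
  obtain ⟨t1, ht1, M1, e1, t2, ht2, M2, e2, hq⟩ := h
  refine ⟨t2 + (t1 + 1), by omega, M2, fun K => ?_, hq⟩
  rw [Function.iterate_add_apply, Function.iterate_succ_apply]
  change step^[t2] (step^[t1] (p :: q :: K, M)) = (K, M2)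
  rw [e1, e2]

theorem Ex.bind {p q : Prog} {M : Mem} {T1 T2 : ℕ} {R Q : Mem → Prop}
    (h : Ex p M T1 R) (h' : ∀ M1, Fr p M M1 → R M1 → Ex q M1 T2 Q) :
    Ex (.seq p q) M (T1 + T2 + 1) Q := Ex.seq (h.post h')

theorem Ex.opSeq {o : Op} {q : Prog} {M : Mem} {T2 : ℕ} {Q : Mem → Prop}
    (h : Ex q (o.exec M) T2 Q) : Ex (.seq (.op o) q) M (T2 + 2) Q := by
  have := Ex.seq (T1 := 1) (Ex.op (o := o) (M := M) (Q := fun M1 => Ex q M1 T2 Q) h)
  exact this.mono (by omega) (fun _ _ h => h)

theorem Ex.iteTrue {t : Test} {p q : Prog} {M : Mem} {T : ℕ} {Q : Mem → Prop}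
    (ht : t.holds M = true) (h : Ex p M T Q) : Ex (.ite t p q) M (T + 1) Q := by
  obtain ⟨s, hs, M', e, hq⟩ := h
  refine ⟨s + 1, by omega, M', fun K => ?_, hq⟩
  rw [Function.iterate_succ_apply]
  change step^[s] (if t.holds M then (p :: K, M) else (q :: K, M)) = _
  rw [if_pos ht]
  exact e K

theorem Ex.iteFalse {t : Test} {p q : Prog} {M : Mem} {T : ℕ} {Q : Mem → Prop}
    (ht : t.holds M = false) (h : Ex q M T Q) : Ex (.ite t p q) M (T + 1) Q := by
  obtain ⟨s, hs, M', e, hq⟩ := h
  refine ⟨s + 1, by omega, M', fun K => ?_, hq⟩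
  rw [Function.iterate_succ_apply]
  change step^[s] (if t.holds M then (p :: K, M) else (q :: K, M)) = _
  rw [if_neg (by simp [ht])]
  exact e K

/-- Branch on equality of two registers, with separate assumptions in the two cases. -/
theorem Ex.iteEq {x y : ℕ} {p q : Prog} {M : Mem} {T : ℕ} {Q : Mem → Prop}
    (h1 : M.v x = M.v y → Ex p M T Q) (h2 : M.v x ≠ M.v y → Ex q M T Q) :
    Ex (.ite (.eq x y) p q) M (T + 1) Q := by
  by_cases h : M.v x = M.v y
  · exact Ex.iteTrue (by simp [Test.holds, h]) (h1 h)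
  · exact Ex.iteFalse (by simp [Test.holds, h]) (h2 h)

theorem Ex.loopFalse {t : Test} {p : Prog} {M : Mem} {Q : Mem → Prop}
    (ht : t.holds M = false) (h : Q M) : Ex (.loop t p) M 1 Q := by
  refine ⟨1, le_rfl, M, fun K => ?_, h⟩
  rw [Function.iterate_one]
  change (if t.holds M then (p :: .loop t p :: K, M) else (K, M)) = _
  rw [if_neg (by simp [ht])]

theorem Ex.loopTrue {t : Test} {p : Prog} {M : Mem} {T1 T2 : ℕ} {Q : Mem → Prop}
    (ht : t.holds M = true) (h : Ex p M T1 (fun M1 => Ex (.loop t p) M1 T2 Q)) :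
    Ex (.loop t p) M (T1 + T2 + 1) Q := by
  obtain ⟨t1, ht1, M1, e1, t2, ht2, M2, e2, hq⟩ := h
  refine ⟨t2 + (t1 + 1), by omega, M2, fun K => ?_, hq⟩
  rw [Function.iterate_add_apply, Function.iterate_succ_apply]
  change step^[t2] (step^[t1] (if t.holds M then (p :: .loop t p :: K, M) else (K, M))) = (K, M2)
  rw [if_pos ht, e1, e2]

/-- `for x = 0, …, v n - 1 do body`. -/
def forP (x n : ℕ) (body : Prog) : Prog :=
  .seq (.op (.const x 0)) (.loop (.lt x n) (.seq body (.op (.succ x))))

theorem Fr.trans {p q r : Prog} {M M1 M2 : Mem} (h1 : Fr p M M1) (h2 : Fr q M1 M2)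
    (hv : ∀ x, r.wv x = false → p.wv x = false ∧ q.wv x = false)
    (ha : ∀ x, r.wa x = false → p.wa x = false ∧ q.wa x = false)
    (ho : r.em = false → p.em = false ∧ q.em = false) : Fr r M M2 :=
  ⟨fun x hx => (h2.v x (hv x hx).2).trans (h1.v x (hv x hx).1),
    fun x hx => (h2.a x (ha x hx).2).trans (h1.a x (ha x hx).1),
    fun hx => (h2.out (ho hx).2).trans (h1.out (ho hx).1)⟩

theorem Ex.forP {x n : ℕ} {body : Prog} {M : Mem} {T N : ℕ} {Q : Mem → Prop}
    (I : ℕ → Mem → Prop)
    (hN : M.v n = N) (hxn : (n == x) = false) (hwx : body.wv x = false)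
    (hwn : body.wv n = false)
    (h0 : I 0 (M.setV x 0))
    (hs : ∀ i < N, ∀ M1, Fr (forP x n body) M M1 → M1.v x = i → I i M1 →
      Ex body M1 T (fun M2 => I (i + 1) (M2.setV x (i + 1))))
    (hQ : ∀ M', Fr (OL.forP x n body) M M' → M'.v x = N → I N M' → Q M') :
    Ex (OL.forP x n body) M (N * (T + 3) + 3) Q := by
  have hxn' : n ≠ x := by simpa using hxn
  have hfn : (OL.forP x n body).wv n = false := by
    simp only [OL.forP, Prog.wv, Op.wv, hwn, hxn, Bool.or_false]
  have key : ∀ d i, i + d = N → ∀ M1, Fr (OL.forP x n body) M M1 → M1.v x = i → I i M1 →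
      Ex (.loop (.lt x n) (.seq body (.op (.succ x)))) M1 (d * (T + 3) + 1) Q := by
    intro d
    induction d with
    | zero =>
      intro i hi M1 hf hv hI
      have hiN : i = N := by omega
      subst hiN
      rw [Nat.zero_mul, Nat.zero_add]
      refine Ex.loopFalse ?_ (hQ M1 hf hv hI)
      simp only [Test.holds, decide_eq_false_iff_not]
      rw [hf.v n hfn, hN, hv]
      exact lt_irrefl _
    | succ d ih =>
      intro i hi M1 hf hv hI
      have hiN : i < N := by omega
      have ht : (Test.lt x n).holds M1 = true := by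
        simp only [Test.holds, decide_eq_true_eq]
        rw [hf.v n hfn, hN, hv]
        exact hiN
      have hb := hs i hiN M1 hf hv hI
      have h1 : Ex (.seq body (.op (.succ x))) M1 (T + 1 + 1)
          (fun M2 => Ex (.loop (.lt x n) (.seq body (.op (.succ x)))) M2 (d * (T + 3) + 1) Q) := by
        refine Ex.bind hb ?_
        intro M2 hf2 hI2
        refine Ex.op ?_
        have hv2 : M2.v x = i := (hf2.v x hwx).trans hv
        have he : (Op.succ x).exec M2 = M2.setV x (i + 1) := by
          simp only [Op.exec, hv2]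
        rw [he]
        refine ih (i + 1) (by omega) _ ?_ (by simp) hI2
        refine ⟨fun y hy => ?_, fun r hr => ?_, fun ho => ?_⟩
        · simp only [OL.forP, Prog.wv, Op.wv, Bool.or_eq_false_iff, beq_eq_false_iff_ne] at hy
          rw [setV_v, if_neg hy.1, hf2.v y hy.2.1]
          exact hf.v y (by simp only [OL.forP, Prog.wv, Op.wv, hy.2.1, Bool.or_eq_false_iff, beq_eq_false_iff_ne]; tauto)
        · rw [setV_a]
          simp only [OL.forP, Prog.wa, Op.wa, Bool.or_eq_false_iff] at hr
          rw [hf2.a r hr.2.1]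
          exact hf.a r (by simp only [OL.forP, Prog.wa, Op.wa, hr.2.1, Bool.or_eq_false_iff]; tauto)
        · rw [setV_out]
          simp only [OL.forP, Prog.em, Op.em, Bool.or_eq_false_iff] at ho
          rw [hf2.out ho.2.1]
          exact hf.out (by simp only [OL.forP, Prog.em, Op.em, ho.2.1, Bool.or_eq_false_iff]; tauto)
      refine (Ex.loopTrue ht h1).mono (le_of_eq ?_) (fun _ _ h => h)
      ring
  have hf0 : Fr (OL.forP x n body) M (M.setV x 0) := by
    refine ⟨fun y hy => ?_, fun r hr => rfl, fun ho => rfl⟩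
    simp only [OL.forP, Prog.wv, Op.wv, Bool.or_eq_false_iff, beq_eq_false_iff_ne] at hy
    rw [setV_v, if_neg hy.1]
  have h1 := key N 0 (by omega) (M.setV x 0) hf0 (by simp) h0
  exact (Ex.opSeq (o := .const x 0) (M := M) h1).mono (by omega) (fun _ _ h => h)

end Pool.Agent.W984.OL
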