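import Pool.Agent.W984.OL.Expand

set_option autoImplicit false
set_option linter.unusedSimpArgs false
set_option linter.unusedVariables false

/-! The complete algorithm. -/

namespace Pool.Agent.W984.OL

open Equiv

/-- Output the word number `v 6`. -/
def emitP : Prog := forP 52 0 (.seq (.op (.load 51 1 6 52 3)) (.op (.emit 51)))

/-- The main loop. -/
def loopP : Prog := .loop (.lt 6 4) (.seq emitP (.seq expandP (.op (.succ 6))))

/-- Put the input generators into table `0`. -/
def genP : Prog := forP 50 2 (.seq (cpyL 0 50 10 3) insertP)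

/-- The initialisation. -/
def initP : Prog := .seq (.op (.const 4 1)) (.seq (.op (.const 5 1)) (.seq (idL 5 3) genP))

/-- The complete algorithm. -/
def mainP : Prog := .seq initP loopP

theorem emitP_spec {m k : ℕ} {G : Subgroup (Perm (Fin m))} {M : Mem} (hI : Inv m k G M) :
    Ex emitP M (m * 6 + 3) (fun M' =>
      M'.out = M.out ++ List.ofFn (fun x => wd m (M.a 1) (M.v 6) x)) := by
  refine Ex.forP (T := 3) (fun i M1 => M1.out = M.out ++
    (List.ofFn (fun x => wd m (M.a 1) (M.v 6) x)).take i) hI.hm rfl rfl rfl ?_ ?_ ?_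
  · simp
  · intro i hi M1 hf hv hI1
    refine Ex.opSeq (Ex.op ?_)
    have v3 : M1.v 3 = 0 := (hf.v 3 rfl).trans hI.hz
    have v6 : M1.v 6 = M.v 6 := hf.v 6 rfl
    have a1 : M1.a 1 = M.a 1 := hf.a 1 rfl
    have e : (Op.exec (Op.exec M1 (.load 51 1 6 52 3)) (.emit 51)).out =
        M1.out ++ [wd m (M.a 1) (M.v 6) ⟨i, hi⟩] := by
      simp only [Op.exec, setV_v, setV_a, setV_out, if_true, v3, v6, hv, a1]
      rfl
    rw [setV_out, e, hI1, List.append_assoc]
    congr 1
    rw [List.take_add_one]
    congr 1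
    rw [List.getElem?_eq_getElem (by simpa using hi)]
    simp
  · intro M' _ _ h
    rw [h]
    congr 1
    rw [List.take_of_length_le]
    simp

/-- The words output from representative `i` on, up to `N`. -/
def outs (m : ℕ) (W : ℕ → ℕ → ℕ → ℕ) (i N : ℕ) : List (List ℕ) :=
  (List.range' i (N - i)).map (fun a => List.ofFn (fun x => wd m W a x))

theorem card_reps {m k : ℕ} {G : Subgroup (Perm (Fin m))} {M : Mem} (hI : Inv m k G M) :
    M.v 4 ≤ k ^ m := by
  have h : Function.Injective (fun a : Fin (M.v 4) => fun x : Fin m =>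
      (⟨wd m (M.a 1) a x, hI.wk a a.2 x⟩ : Fin k)) := by
    intro a b hab
    apply Fin.ext
    apply hI.dist a a.2 b b.2 1 (one_mem _)
    rw [act_one]
    funext x
    have := congrFun hab x
    simpa using congrArg Fin.val this
  have := Fintype.card_le_of_injective _ h
  simpa using this

/-- The main loop lists the remaining representatives. -/
theorem loop_lists {m k : ℕ} {G : Subgroup (Perm (Fin m))} :
    ∀ n, ∀ M, Inv m k G M → k ^ m + 1 - M.v 6 = n →
      ∃ Mf, Inv m k G Mf ∧ Mf.v 6 = Mf.v 4 ∧ M.v 4 ≤ Mf.v 4 ∧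
        (∀ a < M.v 4, Mf.a 1 a = M.a 1 a) ∧
        ∀ (c : Config) (t0 D : ℕ), step^[t0] c = ([loopP], M) → c.2.out = M.out →
          t0 + (m * 6 + 6) ≤ D → tExp m k + 3 + (m * 6 + 6) ≤ D →
            ListsWords D (outs m (Mf.a 1) (M.v 6) (Mf.v 4)) c := by
  intro n
  induction n with
  | zero =>
    intro M hI hn
    have h1 := card_reps hI
    have h2 := hI.cle
    omega
  | succ n ih =>
    intro M hI hn
    rcases Nat.lt_or_eq_of_le hI.cle with hlt | heq
    · obtain ⟨t1, ht1, M1, he1, ho1⟩ := emitP_spec hI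
      have hf1 := he1.fr
      have a1 : ∀ r, M1.a r = M.a r := fun r => hf1.a r rfl
      have a1' : M1.a = M.a := funext a1
      have hI1 : Inv m k G M1 := hI.congr a1' (fun x hx =>
        hf1.v x (by simp [emitP, forP, Prog.wv, Op.wv]; omega))
      have v16 : M1.v 6 = M.v 6 := hf1.v 6 rfl
      have v14 : M1.v 4 = M.v 4 := hf1.v 4 rfl
      obtain ⟨t2, ht2, M2, he2, hS2, hd2⟩ := expandP_spec hI1 (by rw [v16, v14]; exact hlt)
      have hf2 := he2.fr
      have v26 : M2.v 6 = M.v 6 := hS2.cur.trans v16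
      have o2 : M2.out = M1.out := hf2.out rfl
      have hlt2 : M2.v 6 < M2.v 4 := by
        rw [v26]
        have := hS2.le
        omega
      have hwd2 : wd m (M2.a 1) (M2.v 6) = wd m (M1.a 1) (M1.v 6) := by
        unfold wd
        rw [hS2.cur, hS2.rows _ (by rw [v16, v14]; exact hlt)]
      have hI3 : Inv m k G (M2.setV 6 (M2.v 6 + 1)) := by
        refine hS2.inv.next hlt2 ?_
        intro y c h1 h2 h3
        rw [hwd2] at h1
        rw [hS2.cur]
        exact hd2 y c h1 h2 h3
      set M3 := M2.setV 6 (M2.v 6 + 1) with hM3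
      have v36 : M3.v 6 = M.v 6 + 1 := by rw [hM3, setV_v, if_pos rfl, v26]
      obtain ⟨Mf, hIf, hff, hle, hrows, hlist⟩ := ih M3 hI3 (by
        rw [v36]
        have h1 := card_reps hI
        omega)
      have v34 : M3.v 4 = M2.v 4 := rfl
      have a31 : M3.a 1 = M2.a 1 := rfl
      have hrow : ∀ a < M.v 4, Mf.a 1 a = M.a 1 a := by
        intro a ha
        rw [hrows a (by rw [v34]; have := hS2.le; omega), a31, hS2.rows a (by rw [v14]; exact ha),
          a1]
      have hle' : M.v 4 ≤ Mf.v 4 := by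
        have := hS2.le
        rw [v34] at hle
        omega
      refine ⟨Mf, hIf, hff, hle', hrow, ?_⟩
      intro c t0 D hc hco hD1 hD2
      have hne : M.v 6 < Mf.v 4 := by omega
      have houts : outs m (Mf.a 1) (M.v 6) (Mf.v 4) =
          List.ofFn (fun x => wd m (M.a 1) (M.v 6) x) :: outs m (Mf.a 1) (M.v 6 + 1) (Mf.v 4) := by
        unfold outs
        have e : Mf.v 4 - M.v 6 = (Mf.v 4 - (M.v 6 + 1)) + 1 := by omega
        rw [e, List.range'_succ, List.map_cons]
        congr 2
        funext x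
        unfold wd
        rw [hrow _ hlt]
      rw [houts]
      -- the configuration after the output of the word
      have hc1 : step^[t1 + (2 + t0)] c =
          ([.seq expandP (.op (.succ 6)), loopP], M1) := by
        rw [Function.iterate_add_apply, Function.iterate_add_apply, hc]
        have : step^[2] ([loopP], M) = (emitP :: [.seq expandP (.op (.succ 6)), loopP], M) := by
          have h1 : step ([loopP], M) =
              ([.seq emitP (.seq expandP (.op (.succ 6))), loopP], M) := by
            change (if (Test.lt 6 4).holds M = true then _ else _) = _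
            rw [if_pos]
            · rfl
            · simp only [Test.holds, decide_eq_true_eq]
              exact hlt
          rw [show (2 : ℕ) = 1 + 1 from rfl, Function.iterate_add_apply, Function.iterate_one, h1]
          rfl
        rw [this, he1]
      refine ⟨t1 + (2 + t0), by omega, ?_, ?_⟩
      · rw [hc1, hco]
        exact ho1
      · rw [hc1]
        have hc2 : step^[1 + (t2 + 1)] ([.seq expandP (.op (.succ 6)), loopP], M1) =
            ([loopP], M3) := by
          rw [Function.iterate_add_apply, Function.iterate_add_apply, Function.iterate_one]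
          change step (step^[t2] (expandP :: [.op (.succ 6), loopP], M1)) = _
          rw [he2]
          rfl
        have := hlist ([.seq expandP (.op (.succ 6)), loopP], M1) (1 + (t2 + 1)) D hc2
          (by rw [hM3, setV_out, o2]) (by omega) hD2
        rw [v36] at this
        exact this
    · refine ⟨M, hI, heq, le_rfl, fun _ _ => rfl, ?_⟩
      intro c t0 D hc hco hD1 hD2
      have : outs m (M.a 1) (M.v 6) (M.v 4) = [] := by
        unfold outs
        rw [heq, Nat.sub_self]
        rfl
      rw [this]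
      have hc1 : step^[1 + t0] c = ([], M) := by
        rw [Function.iterate_add_apply, hc, Function.iterate_one]
        change (if (Test.lt 6 4).holds M = true then _ else _) = _
        rw [if_neg]
        simp only [Test.holds, decide_eq_true_eq]
        omega
      refine ⟨1 + t0, by omega, ?_, ?_⟩
      · rw [hc1]
      · rw [hc1, hco]

/-! ## Initialisation -/

/-- Time bound for the initialisation. -/
def tInit (m s : ℕ) : ℕ := s * (tIns m + 6 * m + 7) + 4 * m + 20

theorem initP_spec {k m : ℕ} (hk : 1 ≤ k) (S : List (Perm (Fin m))) :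
    Ex initP (input k m S) (tInit m S.length) (fun M' =>
      Inv m k (Subgroup.closure {s | s ∈ S}) M' ∧ M'.v 6 = 0) := by
  set G := Subgroup.closure {s : Perm (Fin m) | s ∈ S} with hG
  unfold initP tInit
  refine (Ex.opSeq (T2 := S.length * (tIns m + 6 * m + 7) + 4 * m + 18) (Ex.opSeq
    (T2 := S.length * (tIns m + 6 * m + 7) + 4 * m + 16) ?_))
  set M1 := Op.exec (Op.exec (input k m S) (.const 4 1)) (.const 5 1) with hM1
  have v10 : M1.v 0 = m := rfl
  have v11 : M1.v 1 = k := rfl
  have v12 : M1.v 2 = S.length := rfl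
  have v13 : M1.v 3 = 0 := rfl
  have v14 : M1.v 4 = 1 := rfl
  have v15 : M1.v 5 = 1 := rfl
  have v16 : M1.v 6 = 0 := rfl
  have v110 : M1.v 10 = 0 := rfl
  have a1 : ∀ r, r ≠ 0 → ∀ i j l, M1.a r i j l = 0 := by
    intro r hr i j l
    change (if r = 0 ∧ l = 0 then _ else 0) = 0
    rw [if_neg (fun h => hr h.1)]
  have a10 : ∀ i (hi : i < S.length), RP (row (M1.a 0) i) (S.get ⟨i, hi⟩) := by
    intro i hi x
    change (if (0 : ℕ) = 0 ∧ (0 : ℕ) = 0 then (if h : i < S.length ∧ (x : ℕ) < m then _ else 0)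
      else 0) = _
    rw [if_pos ⟨rfl, rfl⟩, dif_pos ⟨hi, x.2⟩]
  refine (Ex.bind (T2 := S.length * (tIns m + 6 * m + 7) + 3) (idL_spec (M := M1) (m := m) 5 3 v10
    v13 (by decide)) ?_).le (by omega)
  intro M2 hf2 ha2
  rw [v13] at ha2
  have a2 : ∀ r, r ≠ 0 → r ≠ 5 → ∀ i j l, M2.a r i j l = 0 := by
    intro r h1 h2 i j l
    rw [ha2, setRow_a_ne _ _ _ _ _ _ h2, a1 r h1]
  have a20 : ∀ i (hi : i < S.length), RP (row (M2.a 0) i) (S.get ⟨i, hi⟩) := by
    intro i hi
    rw [ha2, setRow_a_ne _ _ _ _ _ _ (by decide)]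
    exact a10 i hi
  have hone : RP (row (M2.a 5) 0) (1 : Perm (Fin m)) := by
    rw [ha2]
    exact RP_setRow _ _ _ _ _ RP_id
  have hpool2 : PoolOK m (M2.a 5) 1 := by
    refine ⟨le_rfl, hone, fun p hp => ?_⟩
    have : p = 0 := by omega
    rw [this]
    exact hone.vp
  have v20 : M2.v 0 = m := (hf2.v 0 rfl).trans v10
  have v23 : M2.v 3 = 0 := (hf2.v 3 rfl).trans v13
  have v25 : M2.v 5 = 1 := (hf2.v 5 rfl).trans v15
  have v210 : M2.v 10 = 0 := (hf2.v 10 rfl).trans v110
  have htab2 : TabOK m (M2.a 5) (M2.a 2 0) 1 := by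
    intro i hi j hj
    rw [a2 2 (by decide) (by decide)]
    exact ⟨by decide, fun h => absurd rfl h⟩
  have hgen2 : gens m (M2.a 5) (M2.a 2 0) = ⊥ := by
    unfold gens
    rw [Subgroup.closure_eq_bot_iff]
    rintro _ ⟨i, hi, j, hj, rfl⟩
    rw [a2 2 (by decide) (by decide), hone.pm]
    rfl
  refine Ex.forP (T := tIns m + 6 * m + 4) (fun i M3 => Grow m 0 G M2 M3 ∧
    ∀ i' (hi' : i' < S.length), i' < i → S.get ⟨i', hi'⟩ ∈ gens m (M3.a 5) (M3.a 2 0))
    ((hf2.v 2 rfl).trans v12) rfl rfl rfl ?_ ?_ ?_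
  · refine ⟨?_, fun i' _ hi' => absurd hi' (Nat.not_lt_zero _)⟩
    exact (Grow.refl (M := M2) (by rw [v25]; exact hpool2) (by rw [v25]; exact htab2)).congr
      rfl rfl rfl rfl rfl rfl
  · intro i hi M3 hf3 hv3 hI
    obtain ⟨hg3, hd3⟩ := hI
    have w3 : ∀ x, genP.wv x = false → M3.v x = M2.v x := fun x hx => hf3.v x hx
    have v33 : M3.v 3 = 0 := (w3 3 rfl).trans v23
    have v30 : M3.v 0 = m := (w3 0 rfl).trans v20
    have a30 : M3.a 0 = M2.a 0 := hf3.a 0 rfl
    refine (Ex.bind (T2 := tIns m) (cpyL_spec (M := M3) (m := m) 0 50 10 3 v30 v33 (by decide)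
      (by decide) (Or.inl (by decide))) ?_).le (by omega)
    intro M4 hf4 ha4
    rw [v33, hv3, a30] at ha4
    have v4 : ∀ x, x < 60 → M4.v x = M3.v x := by
      intro x hx
      exact hf4.v x (by simp [cpyL, forP, Prog.wv, Op.wv]; omega)
    have a4 : ∀ r, r ≠ 10 → M4.a r = M3.a r := by
      intro r hr
      rw [ha4, setRow_a_ne _ _ _ _ _ _ hr]
    have hx1 : RP (row (M4.a 10) 0) (S.get ⟨i, hi⟩) := by
      rw [ha4]
      exact RP_setRow _ _ _ _ _ (a20 i hi)
    have v410 : M4.v 10 = 0 := (v4 10 (by decide)).trans ((w3 10 rfl).trans v210)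
    have hmemG : S.get ⟨i, hi⟩ ∈ G := Subgroup.subset_closure (List.get_mem S ⟨i, hi⟩)
    have hins := insertP_grow (M := M4) G hmemG ((v4 0 (by decide)).trans v30)
      ((v4 3 (by decide)).trans v33)
      (by rw [a4 5 (by decide), v4 5 (by decide)]; exact hg3.pool)
      (by rw [a4 5 (by decide), a4 2 (by decide), v4 5 (by decide), v410]; exact hg3.tab) hx1
    rw [v410] at hins
    refine hins.post ?_
    rintro M5 hf5 ⟨hg5, hm5⟩
    have hg5' : Grow m 0 G M3 M5 := hg5.congr (a4 5 (by decide)).symm (a4 2 (by decide)).symm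
      (v4 5 (by decide)).symm rfl rfl rfl
    refine ⟨(hg3.trans hg5').congr rfl rfl rfl rfl rfl rfl, ?_⟩
    intro i' hi' hlt
    rcases Nat.lt_succ_iff_lt_or_eq.1 hlt with h | h
    · exact hg5'.le (hd3 i' hi' h)
    · subst h
      exact hm5
  · intro M3 hf3 _ hI
    obtain ⟨hg3, hd3⟩ := hI
    have w3 : ∀ x, genP.wv x = false → M3.v x = M2.v x := fun x hx => hf3.v x hx
    have v36 : M3.v 6 = 0 := (w3 6 rfl).trans ((hf2.v 6 rfl).trans v16)
    have v34 : M3.v 4 = 1 := (w3 4 rfl).trans ((hf2.v 4 rfl).trans v14)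
    have v31 : M3.v 1 = k := (w3 1 rfl).trans ((hf2.v 1 rfl).trans v11)
    have a31 : ∀ i j l, M3.a 1 i j l = 0 := by
      intro i j l
      rw [hf3.a 1 rfl]
      exact a2 1 (by decide) (by decide) i j l
    have a33 : ∀ i j l, M3.a 3 i j l = 0 := by
      intro i j l
      rw [hf3.a 3 rfl]
      exact a2 3 (by decide) (by decide) i j l
    have hwd : ∀ a, wd m (M3.a 1) a = fun _ => 0 := by
      intro a
      funext x
      exact a31 a x 0
    have hlev0 : lev (fun _ : Fin m => (0 : ℕ)) = 0 := by
      unfold lev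
      simp
    have hgenG : gens m (M3.a 5) (M3.a 2 0) = G := by
      apply le_antisymm
      · refine hg3.sub.trans ?_
        rw [hgen2]
        exact sup_le bot_le le_rfl
      · rw [hG, Subgroup.closure_le]
        intro s hs
        obtain ⟨i, hi, rfl⟩ := List.getElem_of_mem hs
        exact hd3 i hi hi
    have hst0 : stab G (fun _ : Fin m => (0 : ℕ)) = G := by
      ext g
      rw [mem_stab]
      constructor
      · exact fun h => h.1
      · intro h
        exact ⟨h, rfl⟩
    refine ⟨⟨(w3 0 rfl).trans v20, v31, (w3 3 rfl).trans v23, hg3.pool, ?_, ?_, ?_, ?_, ?_, ?_, ?_,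
      ?_, ?_, ?_, ?_, ?_, ?_⟩, v36⟩
    · refine ⟨by omega, fun x => a31 _ _ _, ?_⟩
      intro a ha y c hne
      exact absurd (a33 _ _ _) hne
    · intro a ha x
      rw [hwd]
      exact hk
    · rw [v34]
      intro a ha
      have : a = 0 := by omega
      rw [this]
      exact hg3.tab
    · rw [v34]
      intro a ha
      have : a = 0 := by omega
      rw [this, hgenG, hwd, hst0]
    · rw [v34]
      intro a ha i j
      rw [hg3.other a (by omega)]
      exact a2 2 (by decide) (by decide) a i j
    · intro a ha i j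
      exact a33 a i j
    · rw [v34]
      intro a ha b hb y c h1 h2 h3 g hg h4
      exfalso
      rw [hwd, hwd] at h4
      have h5 : lev (Function.update (fun _ : Fin m => (0 : ℕ)) y c) = 1 := by
        rw [lev_update_of_ne_zero _ _ _ rfl h2, hlev0]
      have h6 : lev (act g (Function.update (fun _ : Fin m => (0 : ℕ)) y c)) = 0 := by
        rw [h4, hlev0]
      rw [lev_act, h5] at h6
      omega
    · rw [v34]
      intro a ha b hb g hg h4
      omega
    · intro b hb a hab
      rw [hwd, hwd]
    · rw [v36]; exact Nat.zero_le _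
    · rw [v36]
      intro a ha
      exact absurd ha (Nat.not_lt_zero _)
    · intro _ a ha
      rw [hwd, hwd]
      exact Nat.le_succ _
    · intro _ w hw hl
      rw [hwd, hlev0] at hl
      refine ⟨0, by omega, 1, one_mem _, ?_⟩
      rw [act_one, hwd]
      funext x
      by_contra hne
      have : 0 < lev w := by
        unfold lev
        exact Finset.card_pos.2 ⟨x, by simpa using hne⟩
      omega

/-! ## Polynomial bounds -/

/-- Functions bounded by a polynomial. -/
def PB (f : ℕ → ℕ → ℕ → ℕ) : Prop := ∃ c, ∀ m k s, f m k s ≤ (m + k + s + 2) ^ c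

theorem PB.const (a : ℕ) : PB (fun _ _ _ => a) := by
  refine ⟨a, fun m k s => ?_⟩
  calc a ≤ 2 ^ a := Nat.lt_two_pow_self.le
    _ ≤ (m + k + s + 2) ^ a := Nat.pow_le_pow_left (by omega) a

theorem PB.m : PB (fun m _ _ => m) := ⟨1, fun m k s => by rw [pow_one]; dsimp only; omega⟩
theorem PB.k : PB (fun _ k _ => k) := ⟨1, fun m k s => by rw [pow_one]; dsimp only; omega⟩
theorem PB.s : PB (fun _ _ s => s) := ⟨1, fun m k s => by rw [pow_one]; dsimp only; omega⟩

theorem PB.mul {f g : ℕ → ℕ → ℕ → ℕ} (hf : PB f) (hg : PB g) :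
    PB (fun m k s => f m k s * g m k s) := by
  obtain ⟨c, hc⟩ := hf
  obtain ⟨d, hd⟩ := hg
  refine ⟨c + d, fun m k s => ?_⟩
  rw [pow_add]
  exact Nat.mul_le_mul (hc m k s) (hd m k s)

theorem PB.add {f g : ℕ → ℕ → ℕ → ℕ} (hf : PB f) (hg : PB g) :
    PB (fun m k s => f m k s + g m k s) := by
  obtain ⟨c, hc⟩ := hf
  obtain ⟨d, hd⟩ := hg
  refine ⟨c + d + 1, fun m k s => ?_⟩
  set X := m + k + s + 2 with hX
  have h1 : 1 ≤ X := by omega
  have h2 : f m k s ≤ X ^ (c + d) := (hc m k s).trans (Nat.pow_le_pow_right h1 (by omega))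
  have h3 : g m k s ≤ X ^ (c + d) := (hd m k s).trans (Nat.pow_le_pow_right h1 (by omega))
  calc f m k s + g m k s ≤ X ^ (c + d) * 2 := by omega
    _ ≤ X ^ (c + d) * X := Nat.mul_le_mul_left _ (by omega)
    _ = X ^ (c + d + 1) := (pow_succ _ _).symm

/-- The bound on the delay. -/
def tAll (m k s : ℕ) : ℕ := tInit m s + tExp m k + (m * 6 + 20)

theorem tAll_PB : PB tAll := by
  unfold tAll tInit tExp tNew tSch tSchP tLnk tCan tSet tIns tOrb
  repeat' first
    | exact PB.m
    | exact PB.k
    | exact PB.s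
    | exact PB.const _
    | apply PB.add
    | apply PB.mul

/-! ## The theorem -/

theorem main : ∃ (p : Prog) (c : ℕ), ∀ (k m : ℕ), 2 ≤ k → ∀ S : List (Perm (Fin m)),
    ∃ ws : List (Fin m → Fin k),
      (∀ α : Fin m → Fin k, ∃! i : Fin ws.length, SameOrbit S α (ws.get i)) ∧
      ListsWords ((m + k + S.length + 2) ^ c)
        (ws.map (fun w => List.ofFn (fun x => (w x : ℕ)))) ([p], input k m S) := by
  obtain ⟨c, hc⟩ := tAll_PB
  refine ⟨mainP, c, fun k m hk S => ?_⟩
  set G := Subgroup.closure {s : Perm (Fin m) | s ∈ S} with hG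
  obtain ⟨t1, ht1, M1, he1, hI1, h16⟩ := initP_spec (by omega : 1 ≤ k) S
  obtain ⟨Mf, hIf, hff, hle, hrows, hlist⟩ := loop_lists _ M1 hI1 rfl
  have hk0 : 0 < k := by omega
  set word : ℕ → Fin m → Fin k := fun a x =>
    if h : wd m (Mf.a 1) a x < k then ⟨wd m (Mf.a 1) a x, h⟩ else ⟨0, hk0⟩ with hword
  have hwval : ∀ a < Mf.v 4, ∀ x, (word a x : ℕ) = wd m (Mf.a 1) a x := by
    intro a ha x
    rw [hword]
    simp only
    rw [dif_pos (hIf.wk a ha x)]
  refine ⟨(List.range (Mf.v 4)).map word, ?_, ?_⟩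
  · intro α
    have hcomp := rep_of_done hIf (L := m + 1) (fun a ha _ y c h1 h2 h3 =>
      hIf.done a (by rw [hff]; exact ha) y c h1 h2 h3)
    obtain ⟨a, ha, g, hg, h⟩ := hcomp (lev (fun x => (α x : ℕ)))
      ((Finset.card_le_univ _).trans (by simp)) (fun x => (α x : ℕ)) (fun x => (α x).2) rfl
    have hlen : ((List.range (Mf.v 4)).map word).length = Mf.v 4 := by simp
    refine ⟨⟨a, by rw [hlen]; exact ha⟩, ?_, ?_⟩
    · refine ⟨g, hg, fun x => ?_⟩
      apply Fin.ext
      rw [List.get_eq_getElem, List.getElem_map, List.getElem_range, hwval a ha, ← h, act_apply]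
    · rintro ⟨b, hb⟩ ⟨g', hg', h'⟩
      rw [hlen] at hb
      apply Fin.ext
      simp only
      apply hIf.dist b hb a ha (g * g'⁻¹) (G.mul_mem hg (G.inv_mem hg'))
      rw [act_mul]
      have e : wd m (Mf.a 1) b = act g' (fun x => (α x : ℕ)) := by
        funext x
        have h1 := congrArg Fin.val (h' (g'⁻¹ x))
        rw [List.get_eq_getElem, List.getElem_map, List.getElem_range] at h1
        rw [show g' (g'⁻¹ x) = x by simp, hwval b hb] at h1
        exact h1
      rw [e, act_inv_act, h]
  · have houts : outs m (Mf.a 1) (M1.v 6) (Mf.v 4) =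
        ((List.range (Mf.v 4)).map word).map (fun w => List.ofFn (fun x => (w x : ℕ))) := by
      unfold outs
      rw [h16, Nat.sub_zero, List.map_map, List.range_eq_range']
      apply List.map_congr_left
      intro a ha
      rw [List.mem_range'_1] at ha
      simp only [Function.comp]
      congr 1
      funext x
      exact (hwval a (by omega) x).symm
    rw [← houts]
    have hc1 : step^[t1 + 1] ([mainP], input k m S) = ([loopP], M1) := by
      rw [Function.iterate_add_apply, Function.iterate_one]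
      change step^[t1] (initP :: [loopP], input k m S) = _
      exact he1 _
    have hout : (input k m S).out = M1.out := (he1.fr.out rfl).symm
    have hD := hc m k S.length
    unfold tAll at hD
    exact hlist _ (t1 + 1) _ hc1 hout (by omega) (by omega)

end Pool.Agent.W984.OL
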