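import Pool.Agent.W984.OL.Rows

set_option autoImplicit false

/-! Permutation groups acting on words: the facts used for the correctness of the algorithm. -/

namespace Pool.Agent.W984.OL

open Equiv

variable {m : ℕ}

/-! ## Action on words -/

/-- `act g w` has the letter `w x` in position `g x`. -/
def act (g : Perm (Fin m)) (w : Fin m → ℕ) : Fin m → ℕ := fun x => w (g⁻¹ x)

theorem act_apply (g : Perm (Fin m)) (w : Fin m → ℕ) (x : Fin m) : act g w (g x) = w x := by
  simp [act]

theorem act_one (w : Fin m → ℕ) : act 1 w = w := by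
  funext x; simp [act]

theorem act_mul (g h : Perm (Fin m)) (w : Fin m → ℕ) : act (g * h) w = act g (act h w) := by
  funext x; simp [act, mul_inv_rev]

theorem act_inv_act (g : Perm (Fin m)) (w : Fin m → ℕ) : act g⁻¹ (act g w) = w := by
  rw [← act_mul, inv_mul_cancel, act_one]

theorem act_act_inv (g : Perm (Fin m)) (w : Fin m → ℕ) : act g (act g⁻¹ w) = w := by
  rw [← act_mul, mul_inv_cancel, act_one]

theorem eq_act_inv {g : Perm (Fin m)} {w w' : Fin m → ℕ} (h : act g w = w') : w = act g⁻¹ w' := by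
  rw [← h, act_inv_act]

theorem act_update (g : Perm (Fin m)) (w : Fin m → ℕ) (x : Fin m) (c : ℕ) :
    act g (Function.update w x c) = Function.update (act g w) (g x) c := by
  funext y
  by_cases h : y = g x
  · subst h
    rw [act_apply, Function.update_self, Function.update_self]
  · rw [Function.update_of_ne h]
    unfold act
    rw [Function.update_of_ne]
    intro h'
    apply h
    rw [← h']
    simp

/-- Number of non-blank letters. -/
def lev (w : Fin m → ℕ) : ℕ := (Finset.univ.filter (fun x => w x ≠ 0)).card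

theorem lev_act (g : Perm (Fin m)) (w : Fin m → ℕ) : lev (act g w) = lev w := by
  unfold lev
  apply Finset.card_bij (fun x _ => g⁻¹ x)
  · intro x hx
    rw [Finset.mem_filter] at hx ⊢
    exact ⟨Finset.mem_univ _, hx.2⟩
  · intro x _ y _ h
    exact g⁻¹.injective h
  · intro y hy
    rw [Finset.mem_filter] at hy
    refine ⟨g y, ?_, by simp⟩
    rw [Finset.mem_filter, act_apply]
    exact ⟨Finset.mem_univ _, hy.2⟩

theorem lev_update_of_ne_zero (w : Fin m → ℕ) (x : Fin m) (c : ℕ) (hx : w x = 0) (hc : c ≠ 0) :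
    lev (Function.update w x c) = lev w + 1 := by
  unfold lev
  have : Finset.univ.filter (fun y => Function.update w x c y ≠ 0) =
      insert x (Finset.univ.filter (fun y => w y ≠ 0)) := by
    ext y
    rw [Finset.mem_filter, Finset.mem_insert, Finset.mem_filter]
    by_cases h : y = x
    · subst h; simp [hc]
    · rw [Function.update_of_ne h]; simp [h]
  rw [this, Finset.card_insert_of_notMem]
  rw [Finset.mem_filter]
  exact fun h => h.2 hx

theorem lev_update_zero (w : Fin m → ℕ) (x : Fin m) (hx : w x ≠ 0) :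
    lev (Function.update w x 0) + 1 = lev w := by
  have h := lev_update_of_ne_zero (Function.update w x 0) x (w x) (by simp) hx
  rw [Function.update_idem, Function.update_eq_self] at h
  exact h.symm

/-- The word `w` cut off at position `x`. -/
def trunc (w : Fin m → ℕ) (x : ℕ) : Fin m → ℕ := fun y => if (y : ℕ) < x then w y else 0

theorem trunc_zero (w : Fin m → ℕ) : trunc w 0 = fun _ => 0 := by
  funext y; simp [trunc]

theorem trunc_all (w : Fin m → ℕ) : trunc w m = w := by
  funext y; simp [trunc, y.2]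

theorem trunc_succ_zero (w : Fin m → ℕ) (x : Fin m) (h : w x = 0) :
    trunc w (x + 1) = trunc w x := by
  funext y
  unfold trunc
  by_cases h1 : (y : ℕ) < x
  · rw [if_pos h1, if_pos (by omega)]
  · rw [if_neg h1]
    by_cases h2 : (y : ℕ) < x + 1
    · have : y = x := Fin.ext (by omega)
      rw [if_pos h2, this, h]
    · rw [if_neg h2]

theorem trunc_succ (w : Fin m → ℕ) (x : Fin m) :
    trunc w (x + 1) = Function.update (trunc w x) x (w x) := by
  funext y
  by_cases h : y = x
  · subst h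
    rw [Function.update_self]
    simp [trunc]
  · rw [Function.update_of_ne h]
    unfold trunc
    have : (y : ℕ) ≠ x := fun h' => h (Fin.ext h')
    by_cases h1 : (y : ℕ) < x
    · rw [if_pos h1, if_pos (by omega)]
    · rw [if_neg h1, if_neg (by omega)]

theorem trunc_self (w : Fin m → ℕ) (x : Fin m) : trunc w x x = 0 := by
  simp [trunc]

theorem lev_trunc_lt (w : Fin m → ℕ) (x : Fin m) (h : w x ≠ 0) : lev (trunc w x) < lev w := by
  unfold lev
  apply Finset.card_lt_card
  rw [Finset.ssubset_iff_of_subset]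
  · refine ⟨x, ?_, ?_⟩
    · rw [Finset.mem_filter]; exact ⟨Finset.mem_univ _, h⟩
    · rw [Finset.mem_filter, trunc_self]; simp
  · intro y hy
    rw [Finset.mem_filter] at hy ⊢
    refine ⟨Finset.mem_univ _, fun h' => hy.2 ?_⟩
    unfold trunc
    split_ifs
    · exact h'
    · rfl

/-! ## Closed sets, orbits, Schreier generators -/

theorem closed_of_gens {S : Set (Perm (Fin m))} {X : Set (Fin m)}
    (h : ∀ s ∈ S, ∀ v ∈ X, s v ∈ X) : ∀ g ∈ Subgroup.closure S, ∀ v ∈ X, g v ∈ X := by
  intro g hg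
  induction hg using Subgroup.closure_induction with
  | mem s hs => exact h s hs
  | one => intro v hv; simpa using hv
  | mul a b _ _ ha hb => intro v hv; exact ha _ (hb v hv)
  | inv a _ ha =>
    have hp : ∀ n : ℕ, ∀ v ∈ X, (a ^ n) v ∈ X := by
      intro n
      induction n with
      | zero => intro v hv; simpa using hv
      | succ n ih => intro v hv; rw [pow_succ', Perm.mul_apply]; exact ha _ (ih v hv)
    intro v hv
    have h1 : a⁻¹ = a ^ (orderOf a - 1) := by
      rw [inv_eq_iff_mul_eq_one, ← pow_succ']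
      have : orderOf a - 1 + 1 = orderOf a := Nat.sub_add_cancel (orderOf_pos a)
      rw [this, pow_orderOf_eq_one]
    rw [h1]
    exact hp _ v hv

theorem schreier {S : Set (Perm (Fin m))} {O : Set (Fin m)} {y : Fin m} (t : Fin m → Perm (Fin m))
    (hcl : ∀ v ∈ O, ∀ s ∈ S, s v ∈ O) (hy : y ∈ O) (ht : t y = 1) (L : Subgroup (Perm (Fin m)))
    (hL : ∀ v ∈ O, ∀ s ∈ S, (t (s v))⁻¹ * s * t v ∈ L) :
    ∀ g ∈ Subgroup.closure S, g y = y → g ∈ L := by
  have hO := closed_of_gens (fun s hs v hv => hcl v hv s hs)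
  have key : ∀ g ∈ Subgroup.closure S, ∀ v ∈ O, (t (g v))⁻¹ * g * t v ∈ L := by
    intro g hg
    induction hg using Subgroup.closure_induction with
    | mem s hs => exact fun v hv => hL v hv s hs
    | one => intro v hv; simp
    | mul a b ha' hb' ha hb =>
      intro v hv
      have h1 := L.mul_mem (ha (b v) (hO b hb' v hv)) (hb v hv)
      have e : (t (a (b v)))⁻¹ * a * t (b v) * ((t (b v))⁻¹ * b * t v) =
          (t ((a * b) v))⁻¹ * (a * b) * t v := by
        rw [Perm.mul_apply]; group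
      rwa [e] at h1
    | inv a ha' ha =>
      intro v hv
      have h2 : a⁻¹ v ∈ O := hO a⁻¹ (inv_mem ha') v hv
      have h1 := L.inv_mem (ha (a⁻¹ v) h2)
      have e : ((t (a (a⁻¹ v)))⁻¹ * a * t (a⁻¹ v))⁻¹ = (t (a⁻¹ v))⁻¹ * a⁻¹ * t v := by
        rw [show a (a⁻¹ v) = v by simp]; group
      rwa [e] at h1
  intro g hg hgy
  have := key g hg y hy
  rw [hgy, ht] at this
  simpa using this

open Classical in
/-- The points reached from `y` by at most `r` generators. -/
noncomputable def ball (S : Set (Perm (Fin m))) (y : Fin m) : ℕ → Finset (Fin m)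
  | 0 => {y}
  | r + 1 => ball S y r ∪ Finset.univ.filter (fun u => ∃ v ∈ ball S y r, ∃ s ∈ S, s v = u)

open Classical in
theorem ball_closed (S : Set (Perm (Fin m))) (y : Fin m) :
    ∀ v ∈ ball S y m, ∀ s ∈ S, s v ∈ ball S y m := by
  have hsub : ∀ r, ball S y r ⊆ ball S y (r + 1) := by
    intro r
    rw [ball]
    exact Finset.subset_union_left
  have hmono : Monotone (fun r => (ball S y r).card) :=
    monotone_nat_of_le_succ (fun r => Finset.card_le_card (hsub r))
  have hstab : ∀ r, (ball S y r).card = (ball S y (r + 1)).card →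
      (ball S y (r + 1)).card = (ball S y (r + 2)).card := by
    intro r hr
    have h1 : ball S y r = ball S y (r + 1) := Finset.eq_of_subset_of_card_le (hsub r) hr.ge
    have h2 : ball S y (r + 1) = ball S y (r + 2) := by
      conv_lhs => rw [ball]
      conv_rhs => rw [ball]
      rw [← h1]
    rw [← h2]
  have h := Nat.stabilises_of_monotone (b := m) (n := m + 1) hmono
    (fun r => (Finset.card_le_univ _).trans (by simp)) hstab (by omega)
  have h1 : ball S y m = ball S y (m + 1) := Finset.eq_of_subset_of_card_le (hsub m) h.le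
  intro v hv s hs
  rw [h1, ball, Finset.mem_union, Finset.mem_filter]
  exact Or.inr ⟨Finset.mem_univ _, v, hv, s, hs, rfl⟩

open Classical in
theorem ball_self (S : Set (Perm (Fin m))) (y : Fin m) (r : ℕ) : y ∈ ball S y r := by
  induction r with
  | zero => simp [ball]
  | succ r ih => rw [ball]; exact Finset.mem_union_left _ ih

/-! ## Reading permutations from rows -/

/-- The row `f` contains some permutation. -/
def VP (m : ℕ) (f : ℕ → ℕ) : Prop := ∃ g : Perm (Fin m), RP f g

open Classical in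
/-- The permutation in a row (the identity if there is none). -/
noncomputable def pm (m : ℕ) (f : ℕ → ℕ) : Perm (Fin m) :=
  if h : ∃ g : Perm (Fin m), RP f g then h.choose else 1

theorem VP.rp {f : ℕ → ℕ} (h : VP m f) : RP f (pm m f) := by
  unfold pm
  rw [dif_pos (show ∃ g : Perm (Fin m), RP f g from h)]
  exact Exists.choose_spec h

theorem RP.pm {f : ℕ → ℕ} {g : Perm (Fin m)} (h : RP f g) : pm m f = g :=
  RP.unique (VP.rp ⟨g, h⟩) h

theorem RP.vp {f : ℕ → ℕ} {g : Perm (Fin m)} (h : RP f g) : VP m f := ⟨g, h⟩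

/-- The pool of permutations `P 0, …, P (np - 1)`; the first one is the identity. -/
structure PoolOK (m : ℕ) (P : ℕ → ℕ → ℕ → ℕ) (np : ℕ) : Prop where
  pos : 1 ≤ np
  one : RP (row P 0) (1 : Perm (Fin m))
  vp : ∀ p < np, VP m (row P p)

/-- `P'` extends the pool `P`. -/
def Extends (P P' : ℕ → ℕ → ℕ → ℕ) (np : ℕ) : Prop := ∀ p < np, P' p = P p

theorem Extends.refl (P : ℕ → ℕ → ℕ → ℕ) (np : ℕ) : Extends P P np := fun _ _ => rfl

theorem Extends.trans {P P' P'' : ℕ → ℕ → ℕ → ℕ} {np np' : ℕ} (h : Extends P P' np)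
    (h' : Extends P' P'' np') (hle : np ≤ np') : Extends P P'' np :=
  fun p hp => (h' p (hp.trans_le hle)).trans (h p hp)

theorem Extends.row {P P' : ℕ → ℕ → ℕ → ℕ} {np : ℕ} (h : Extends P P' np) {p : ℕ} (hp : p < np) :
    row P' p = row P p := by
  unfold OL.row
  rw [h p hp]

/-- The generators stored in a table. -/
def gset (m : ℕ) (P : ℕ → ℕ → ℕ → ℕ) (tb : ℕ → ℕ → ℕ) : Set (Perm (Fin m)) :=
  {g | ∃ i < m, ∃ j < m, g = pm m (row P (tb i j))}

/-- The group generated by a table. -/
def gens (m : ℕ) (P : ℕ → ℕ → ℕ → ℕ) (tb : ℕ → ℕ → ℕ) : Subgroup (Perm (Fin m)) :=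
  Subgroup.closure (gset m P tb)

/-- The conditions on a table of generators. -/
def TabOK (m : ℕ) (P : ℕ → ℕ → ℕ → ℕ) (tb : ℕ → ℕ → ℕ) (np : ℕ) : Prop :=
  ∀ i < m, ∀ j < m, tb i j < np ∧ (tb i j ≠ 0 →
    (∀ x < i, fn (pm m (row P (tb i j))) x = x) ∧ fn (pm m (row P (tb i j))) i = j)

theorem gens_ext {P P' : ℕ → ℕ → ℕ → ℕ} {tb : ℕ → ℕ → ℕ} {np : ℕ} (h : Extends P P' np)
    (ht : ∀ i < m, ∀ j < m, tb i j < np) : gens m P' tb = gens m P tb := by
  unfold gens gset
  congr 1
  ext g
  constructor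
  · rintro ⟨i, hi, j, hj, rfl⟩
    exact ⟨i, hi, j, hj, by rw [h.row (ht i hi j hj)]⟩
  · rintro ⟨i, hi, j, hj, rfl⟩
    exact ⟨i, hi, j, hj, by rw [h.row (ht i hi j hj)]⟩

theorem TabOK.ext {P P' : ℕ → ℕ → ℕ → ℕ} {tb : ℕ → ℕ → ℕ} {np np' : ℕ} (h : TabOK m P tb np)
    (he : Extends P P' np) (hn : np ≤ np') : TabOK m P' tb np' := by
  intro i hi j hj
  obtain ⟨h1, h2⟩ := h i hi j hj
  rw [he.row h1]
  exact ⟨h1.trans_le hn, h2⟩

theorem TabOK.lt {P : ℕ → ℕ → ℕ → ℕ} {tb : ℕ → ℕ → ℕ} {np : ℕ} (h : TabOK m P tb np) :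
    ∀ i < m, ∀ j < m, tb i j < np := fun i hi j hj => (h i hi j hj).1

/-- Setting a blank entry adds a generator. -/
theorem gens_set {P : ℕ → ℕ → ℕ → ℕ} {tb : ℕ → ℕ → ℕ} {i j p : ℕ} {g : Perm (Fin m)}
    (hi : i < m) (hj : j < m) (h0 : tb i j = 0) (h1 : RP (row P 0) (1 : Perm (Fin m)))
    (hg : RP (row P p) g) :
    gens m P (fun i' j' => if i' = i ∧ j' = j then p else tb i' j') =
      gens m P tb ⊔ Subgroup.closure {g} := by
  unfold gens
  rw [← Subgroup.closure_union]
  apply le_antisymm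
  · rw [Subgroup.closure_le]
    rintro _ ⟨i', hi', j', hj', rfl⟩
    simp only
    by_cases h : i' = i ∧ j' = j
    · rw [if_pos h, hg.pm]
      exact Subgroup.subset_closure (Or.inr rfl)
    · rw [if_neg h]
      exact Subgroup.subset_closure (Or.inl ⟨i', hi', j', hj', rfl⟩)
  · rw [Subgroup.closure_le]
    rintro x (⟨i', hi', j', hj', rfl⟩ | rfl)
    · by_cases h : i' = i ∧ j' = j
      · rw [h.1, h.2, h0, h1.pm]
        exact one_mem _
      · exact Subgroup.subset_closure ⟨i', hi', j', hj', by simp only; rw [if_neg h]⟩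
    · exact Subgroup.subset_closure ⟨i, hi, j, hj, by simp only; rw [if_pos ⟨trivial, trivial⟩, hg.pm]⟩

theorem sup_closure_mul {K : Subgroup (Perm (Fin m))} {h g : Perm (Fin m)} (hh : h ∈ K) :
    K ⊔ Subgroup.closure {h⁻¹ * g} = K ⊔ Subgroup.closure {g} := by
  apply le_antisymm
  · apply sup_le le_sup_left
    rw [Subgroup.closure_le, Set.singleton_subset_iff]
    exact mul_mem (Subgroup.mem_sup_left (inv_mem hh))
      (Subgroup.mem_sup_right (Subgroup.subset_closure rfl))
  · apply sup_le le_sup_left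
    rw [Subgroup.closure_le, Set.singleton_subset_iff]
    have e : g = h * (h⁻¹ * g) := by group
    change g ∈ _
    have h2 : h * (h⁻¹ * g) ∈ K ⊔ Subgroup.closure {h⁻¹ * g} :=
      mul_mem (Subgroup.mem_sup_left hh) (Subgroup.mem_sup_right (Subgroup.subset_closure rfl))
    rwa [← e] at h2

theorem mem_gset {P : ℕ → ℕ → ℕ → ℕ} {tb : ℕ → ℕ → ℕ} {i j : ℕ} (hi : i < m) (hj : j < m) :
    pm m (row P (tb i j)) ∈ gset m P tb := ⟨i, hi, j, hj, rfl⟩

theorem mem_gens {P : ℕ → ℕ → ℕ → ℕ} {tb : ℕ → ℕ → ℕ} {i j : ℕ} (hi : i < m) (hj : j < m) :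
    pm m (row P (tb i j)) ∈ gens m P tb := Subgroup.subset_closure (mem_gset hi hj)

end Pool.Agent.W984.OL
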