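import Mathlib

set_option autoImplicit false

/-!
# A random access machine with an output tape

Registers `v x` and three-dimensional arrays `a r i j l` hold natural numbers. The only arithmetic is
adding or subtracting one, so no number ever exceeds the largest number of the input and of the
program by more than the running time. Programs are structured (sequences, branches, loops); the
machine executes them step by step with a stack of programs still to be executed, and every step
costs one unit of time. Output is written symbol by symbol and is never read or erased.
-/

namespace Pool.Agent.W984.OL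

/-- Memory: registers `v x`, arrays `a r i j l`, and the list `out` of the symbols output so far. -/
@[ext]
structure Mem where
  /-- registers -/
  v : ℕ → ℕ
  /-- arrays -/
  a : ℕ → ℕ → ℕ → ℕ → ℕ
  /-- output tape -/
  out : List ℕ

/-- Write `n` to register `x`. -/
def Mem.setV (M : Mem) (x n : ℕ) : Mem := ⟨fun y => if y = x then n else M.v y, M.a, M.out⟩

/-- Write `n` to the cell `(i, j, l)` of array `r`. -/
def Mem.setA (M : Mem) (r i j l n : ℕ) : Mem :=
  ⟨M.v, fun r' i' j' l' => if r' = r ∧ i' = i ∧ j' = j ∧ l' = l then n else M.a r' i' j' l', M.out⟩

/-- Elementary instructions. -/
inductive Op where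
  /-- `v x := c` -/
  | const (x c : ℕ)
  /-- `v x := v y` -/
  | copy (x y : ℕ)
  /-- `v x := v x + 1` -/
  | succ (x : ℕ)
  /-- `v x := v x - 1` (and `0` if `v x = 0`) -/
  | pred (x : ℕ)
  /-- `v x := a r (v i) (v j) (v l)` -/
  | load (x r i j l : ℕ)
  /-- `a r (v i) (v j) (v l) := v x` -/
  | store (r i j l x : ℕ)
  /-- output the symbol `v x` -/
  | emit (x : ℕ)

/-- Effect of an elementary instruction. -/
def Op.exec (M : Mem) : Op → Mem
  | .const x c => M.setV x c
  | .copy x y => M.setV x (M.v y)
  | .succ x => M.setV x (M.v x + 1)
  | .pred x => M.setV x (M.v x - 1)
  | .load x r i j l => M.setV x (M.a r (M.v i) (M.v j) (M.v l))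
  | .store r i j l x => M.setA r (M.v i) (M.v j) (M.v l) (M.v x)
  | .emit x => ⟨M.v, M.a, M.out ++ [M.v x]⟩

/-- Tests: compare two registers. -/
inductive Test where
  /-- `v x < v y` -/
  | lt (x y : ℕ)
  /-- `v x = v y` -/
  | eq (x y : ℕ)

/-- Truth of a test. -/
def Test.holds (M : Mem) : Test → Bool
  | .lt x y => decide (M.v x < M.v y)
  | .eq x y => decide (M.v x = M.v y)

/-- Programs. -/
inductive Prog where
  /-- do nothing -/
  | skip
  /-- an elementary instruction -/
  | op (o : Op)
  /-- first `p`, then `q` -/
  | seq (p q : Prog)
  /-- if the test holds then `p` else `q` -/
  | ite (t : Test) (p q : Prog)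
  /-- while the test holds do `p` -/
  | loop (t : Test) (p : Prog)

/-- A configuration: the programs still to be executed, the first one being the next, and the
memory. -/
abbrev Config := List Prog × Mem

/-- One step of the machine. The machine has halted when no program is left. -/
def step : Config → Config
  | ([], M) => ([], M)
  | (.skip :: K, M) => (K, M)
  | (.op o :: K, M) => (K, o.exec M)
  | (.seq p q :: K, M) => (p :: q :: K, M)
  | (.ite t p q :: K, M) => if t.holds M then (p :: K, M) else (q :: K, M)
  | (.loop t p :: K, M) => if t.holds M then (p :: .loop t p :: K, M) else (K, M)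

/-- Started in the configuration `c`, the machine outputs the words of the given list one after the
other with delay at most `D`: within `D` steps the output of the first word is complete, within `D`
further steps that of the second word, and so on; and within `D` steps after the output of the last
word (or after the start if the list is empty) the machine halts, without any further output. -/
def ListsWords (D : ℕ) : List (List ℕ) → Config → Prop
  | [], c => ∃ t ≤ D, (step^[t] c).1 = [] ∧ (step^[t] c).2.out = c.2.out
  | w :: ws, c => ∃ t ≤ D, (step^[t] c).2.out = c.2.out ++ w ∧ ListsWords D ws (step^[t] c)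

/-- The initial memory for an alphabet with `k` letters and a list `S` of permutations of the
positions `0, …, m - 1`: the registers `0`, `1`, `2` contain `m`, `k` and the length of `S`; the
cell `(i, x, 0)` of array `0` contains the image of the position `x` under the `i`-th element of
`S`; all other registers and cells contain `0`, and nothing has been output. -/
def input (k m : ℕ) (S : List (Equiv.Perm (Fin m))) : Mem where
  v := fun x => if x = 0 then m else if x = 1 then k else if x = 2 then S.length else 0
  a := fun r i x l =>
    if r = 0 ∧ l = 0 then
      (if h : i < S.length ∧ x < m then ((S.get ⟨i, h.1⟩) ⟨x, h.2⟩ : ℕ) else 0)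
    else 0
  out := []

/-- The words `α` and `β` of length `m` lie in the same orbit of the group generated by the
permutations in `S`: some element `g` of this group moves the letter of `α` in position `x` to the
position `g x` of `β`, for all `x`. -/
def SameOrbit {k m : ℕ} (S : List (Equiv.Perm (Fin m))) (α β : Fin m → Fin k) : Prop :=
  ∃ g ∈ Subgroup.closure {s : Equiv.Perm (Fin m) | s ∈ S}, ∀ x, β (g x) = α x

end Pool.Agent.W984.OL
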