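import Pool.Agent.W984.OL.LinkStep

set_option autoImplicit false
set_option linter.unusedSimpArgs false
set_option linter.unusedVariables false

/-! Creating a new representative. -/

namespace Pool.Agent.W984.OL

open Equiv

/-- The loop over the positions of the new representative. -/
def linkP : Prog := forP 45 0 linkStep

/-- Create the representative obtained from number `v 6` by writing the letter `v 8` at
position `v 7`. -/
def newrepP : Prog :=
  .seq (cpyL 1 6 1 4)
    (.seq (.op (.store 1 4 7 3 8))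
      (.seq (.op (.copy 11 6))
        (.seq (.op (.copy 12 7))
          (.seq orbitP
            (.seq (.op (.copy 10 4))
              (.seq schreierP (.seq linkP (.op (.succ 4)))))))))

/-- The invariant of the data base: there are `v 4` representatives, of which `v 6` are
expanded. -/
structure Inv (m k : ℕ) (G : Subgroup (Perm (Fin m))) (M : Mem) : Prop where
  hm : M.v 0 = m
  hk : M.v 1 = k
  hz : M.v 3 = 0
  pool : PoolOK m (M.a 5) (M.v 5)
  link : LinkOK m G (M.v 4) (M.v 5) (M.a 1) (M.a 3) (M.a 4) (M.a 5)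
  wk : ∀ a < M.v 4, ∀ x, wd m (M.a 1) a x < k
  tab : ∀ a < M.v 4, TabOK m (M.a 5) (M.a 2 a) (M.v 5)
  st : ∀ a < M.v 4, gens m (M.a 5) (M.a 2 a) = stab G (wd m (M.a 1) a)
  fresh2 : ∀ a ≥ M.v 4, ∀ i j, M.a 2 a i j = 0
  fresh3 : ∀ a ≥ M.v 4, ∀ i j, M.a 3 a i j = 0
  compl : ∀ a < M.v 4, ∀ b < M.v 4, ∀ y : Fin m, ∀ c, wd m (M.a 1) a y = 0 → c ≠ 0 → c < k →
    ∀ g ∈ G, act g (Function.update (wd m (M.a 1) a) y c) = wd m (M.a 1) b → M.a 3 a y c ≠ 0
  dist : ∀ a < M.v 4, ∀ b < M.v 4, ∀ g ∈ G, act g (wd m (M.a 1) a) = wd m (M.a 1) b → a = b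
  mono : ∀ b < M.v 4, ∀ a ≤ b, lev (wd m (M.a 1) a) ≤ lev (wd m (M.a 1) b)
  cle : M.v 6 ≤ M.v 4
  done : ∀ a < M.v 6, ∀ y : Fin m, ∀ c, wd m (M.a 1) a y = 0 → c ≠ 0 → c < k → M.a 3 a y c ≠ 0
  up : M.v 6 < M.v 4 → ∀ a < M.v 4, lev (wd m (M.a 1) a) ≤ lev (wd m (M.a 1) (M.v 6)) + 1
  cover : M.v 6 < M.v 4 → ∀ w : Fin m → ℕ, (∀ x, w x < k) → lev w ≤ lev (wd m (M.a 1) (M.v 6)) →
    ∃ a < M.v 4, ∃ g ∈ G, act g w = wd m (M.a 1) a

/-- Time bound for `newrepP`. -/
def tNew (m : ℕ) : ℕ := tOrb m + tSch m + m * (tLnk m + 3) + 6 * m + 30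

theorem newrepP_spec {m k : ℕ} {G : Subgroup (Perm (Fin m))} {M : Mem} (hI : Inv m k G M)
    (hcur : M.v 6 < M.v 4) (y : Fin m) (hy : M.v 7 = y) (c : ℕ) (hc : M.v 8 = c) (hc0 : c ≠ 0)
    (hck : c < k) (hblank : wd m (M.a 1) (M.v 6) y = 0) (hunset : M.a 3 (M.v 6) y c = 0) :
    Ex newrepP M (tNew m) (fun M' => Inv m k G M' ∧ M'.v 4 = M.v 4 + 1 ∧
      (∀ a < M.v 4, M'.a 1 a = M.a 1 a) ∧
      (∀ a y' c' : ℕ, M.a 3 a y' c' ≠ 0 → M'.a 3 a y' c' ≠ 0) ∧
      M'.a 3 (M.v 6) y c ≠ 0) := by
  unfold newrepP tNew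
  set N := M.v 4 with hN
  set cur := M.v 6 with hcur'
  refine (Ex.bind (T2 := tOrb m + tSch m + m * (tLnk m + 3) + 26)
    (cpyL_spec (M := M) (m := m) 1 6 1 4 hI.hm hI.hz (by decide) (by decide)
      (Or.inr (by omega))) ?_).le (by omega)
  intro M1 hf1 ha1
  rw [← hN, ← hcur'] at ha1
  have v1 : ∀ x, x < 60 → M1.v x = M.v x := by
    intro x hx
    rw [hf1.v x (by simp [cpyL, forP, Prog.wv, Op.wv]; omega)]
  refine (Ex.opSeq (T2 := tOrb m + tSch m + m * (tLnk m + 3) + 24) (Ex.opSeq
    (T2 := tOrb m + tSch m + m * (tLnk m + 3) + 22) (Ex.opSeq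
    (T2 := tOrb m + tSch m + m * (tLnk m + 3) + 20) ?_)))
  have e2 : Op.exec M1 (.store 1 4 7 3 8) = M1.setA 1 N y 0 c := by
    simp only [Op.exec, v1 4 (by decide), v1 7 (by decide), v1 3 (by decide), v1 8 (by decide),
      hy, hI.hz, hc, ← hN]
  rw [e2]
  set M3 := Op.exec (Op.exec (M1.setA 1 N y 0 c) (.copy 11 6)) (.copy 12 7) with hM3
  have v3 : ∀ x, x ≠ 11 → x ≠ 12 → x < 60 → M3.v x = M.v x := by
    intro x h1 h2 h3
    rw [hM3]; simp [Op.exec, h1, h2, v1 x h3]
  have v311 : M3.v 11 = cur := by rw [hM3]; simp [Op.exec, v1 6 (by decide), ← hcur']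
  have v312 : M3.v 12 = y := by rw [hM3]; simp [Op.exec, v1 7 (by decide), hy]
  have a3' : M3.a = (M1.setA 1 N y 0 c).a := rfl
  have a3 : ∀ r, r ≠ 1 → M3.a r = M.a r := by
    intro r hr
    rw [a3', setA_a_ne _ _ _ _ _ _ _ hr, ha1, setRow_a_ne _ _ _ _ _ _ hr]
  -- the new word
  set B := Function.update (wd m (M.a 1) cur) y c with hBdef
  have hw1 : ∀ a, a ≠ N → M3.a 1 a = M.a 1 a := by
    intro a ha
    funext j l
    rw [a3', setA_a, if_neg (by tauto), ha1, setRow_a_ne' _ _ _ _ _ _ ha]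
  have hwN : wd m (M3.a 1) N = B := by
    funext x
    change M3.a 1 N x 0 = B x
    rw [a3', setA_a, hBdef]
    by_cases hx : x = y
    · subst hx; simp
    · have hne : (x : ℕ) ≠ y := fun h => hx (Fin.ext h)
      rw [if_neg (by tauto), Function.update_of_ne hx, ha1, setRow_a,
        if_pos ⟨rfl, rfl, x.2, rfl⟩]
      rfl
  have hwd : ∀ a, a ≠ N → wd m (M3.a 1) a = wd m (M.a 1) a := by
    intro a ha
    unfold wd
    rw [hw1 a ha]
  have hlevB : lev B = lev (wd m (M.a 1) cur) + 1 := lev_update_of_ne_zero _ _ _ hblank hc0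
  have v33 : M3.v 3 = 0 := (v3 3 (by decide) (by decide) (by decide)).trans hI.hz
  have v30 : M3.v 0 = m := (v3 0 (by decide) (by decide) (by decide)).trans hI.hm
  have v35 : M3.v 5 = M.v 5 := v3 5 (by decide) (by decide) (by decide)
  have ho := orbitP_spec (M := M3) (m := m) (np := M.v 5) v30 v33
    (by rw [a3 5 (by decide)]; exact hI.pool) y v312
    (by rw [v311, a3 2 (by decide)]; exact (hI.tab cur hcur).lt)
  rw [v311, a3 5 (by decide), a3 2 (by decide), hI.st cur hcur] at ho
  set K := stab G (wd m (M.a 1) cur) with hK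
  refine (Ex.bind (T2 := tSch m + m * (tLnk m + 3) + 19) ho ?_).le (by omega)
  intro M4 hf4 hO
  have v4 : ∀ x, orbitP.wv x = false → x ≠ 11 → x ≠ 12 → x < 60 → M4.v x = M.v x := by
    intro x h1 h2 h3 h4
    rw [hf4.v x h1, v3 x h2 h3 h4]
  have a4 : ∀ r, orbitP.wa r = false → r ≠ 1 → M4.a r = M.a r := by
    intro r h1 h2
    rw [hf4.a r h1, a3 r h2]
  have a41 : M4.a 1 = M3.a 1 := hf4.a 1 rfl
  refine (Ex.opSeq (T2 := tSch m + m * (tLnk m + 3) + 17) ?_)
  have e5 : Op.exec M4 (.copy 10 4) = M4.setV 10 N := by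
    simp only [Op.exec, v4 4 rfl (by decide) (by decide) (by decide), ← hN]
  rw [e5]
  set M5 := M4.setV 10 N with hM5
  have v5 : ∀ x, x ≠ 10 → M5.v x = M4.v x := by
    intro x hx; rw [hM5]; simp [hx]
  have v510 : M5.v 10 = N := by rw [hM5]; simp
  have a5 : M5.a = M4.a := rfl
  have e55 : M5.a 5 = M.a 5 := a4 5 rfl (by decide)
  have e52 : M5.a 2 = M.a 2 := a4 2 rfl (by decide)
  have e53 : M5.a 3 = M.a 3 := a4 3 rfl (by decide)
  have e54 : M5.a 4 = M.a 4 := a4 4 rfl (by decide)
  have ev5 : M5.v 5 = M.v 5 := (v5 5 (by decide)).trans (v4 5 rfl (by decide) (by decide) (by decide))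
  have hgset : gset m (M.a 5) (M.a 2 cur) ⊆ (K : Set (Perm (Fin m))) := by
    intro s hs
    have : s ∈ gens m (M.a 5) (M.a 2 cur) := Subgroup.subset_closure hs
    rw [hI.st cur hcur] at this
    exact this
  have hne : N ≠ cur := by omega
  -- the table of the new representative is empty
  have htabN : TabOK m (M.a 5) (M.a 2 N) (M.v 5) := by
    intro i hi j hj
    rw [hI.fresh2 N le_rfl i j]
    exact ⟨hI.pool.pos, fun h => absurd rfl h⟩
  have hgenN : gens m (M.a 5) (M.a 2 N) = ⊥ := by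
    unfold gens
    rw [Subgroup.closure_eq_bot_iff]
    rintro _ ⟨i, hi, j, hj, rfl⟩
    rw [hI.fresh2 N le_rfl i j, hI.pool.one.pm]
    rfl
  -- in the stabiliser of `wd cur`, fixing `y` implies fixing `B`
  have hstB : ∀ g ∈ K, g y = y → g ∈ stab G B := by
    intro g hg hgy
    refine ⟨hg.1, ?_⟩
    rw [hBdef, act_update, hgy, hg.2]
  have hS : SchC m (stab G B) cur (M.v 5) M5 := by
    refine ⟨(v5 0 (by decide)).trans ((v4 0 rfl (by decide) (by decide) (by decide)).trans hI.hm),
      (v5 3 (by decide)).trans ((v4 3 rfl (by decide) (by decide) (by decide)).trans hI.hz),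
      (v5 6 (by decide)).trans (v4 6 rfl (by decide) (by decide) (by decide)),
      by rw [v510]; exact hne, ?_, ?_, ?_, ?_, ?_, ?_⟩
    · rw [e52, ev5]; exact (hI.tab cur hcur).lt
    · rw [e55, ev5]; exact hI.pool
    · rw [e55, ev5, e52, v510]; exact htabN
    · intro v hv
      obtain ⟨t, _, ht, _⟩ := hO.sound v hv
      exact ht.vp
    · intro v hv s hs
      rw [e55, e52] at hs
      obtain ⟨t, htK, ht, htv⟩ := hO.sound v hv
      have := hO.all (s * t) (K.mul_mem (hgset hs) htK)
      rw [Perm.mul_apply, htv] at this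
      exact this
    · intro v hv s hs
      rw [e55, e52] at hs
      obtain ⟨t, htK, ht, htv⟩ := hO.sound v hv
      have h1 := hO.all (s * t) (K.mul_mem (hgset hs) htK)
      rw [Perm.mul_apply, htv] at h1
      obtain ⟨t', ht'K, ht', ht'v⟩ := hO.sound (s v) h1
      have ht1 : pm m (row (M5.a 7) v) = t := ht.pm
      have ht2 : pm m (row (M5.a 7) (s v)) = t' := ht'.pm
      rw [ht1, ht2]
      apply hstB _ (K.mul_mem (K.mul_mem (K.inv_mem ht'K) (hgset hs)) htK)
      rw [Perm.mul_apply, Perm.mul_apply, htv, ← ht'v]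
      simp
  have hs := schreierP_spec hS
  rw [v510] at hs
  refine (Ex.bind (T2 := m * (tLnk m + 3) + 3 + 2) hs ?_).le (by omega)
  rintro M6 hf6 ⟨hg6, hsch⟩
  have hg6' : Grow m N (stab G B) M M6 := hg6.congr e55.symm e52.symm ev5.symm rfl rfl rfl
  have v6 : ∀ x, schreierP.wv x = false → x ≠ 10 → orbitP.wv x = false → x ≠ 11 → x ≠ 12 →
      x < 60 → M6.v x = M.v x := by
    intro x h1 h2 h3 h4 h5 h6
    rw [hf6.v x h1, v5 x h2, v4 x h3 h4 h5 h6]
  have a6 : ∀ r, schreierP.wa r = false → orbitP.wa r = false → r ≠ 1 → M6.a r = M.a r := by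
    intro r h1 h2 h3
    rw [hf6.a r h1]
    exact a4 r h2 h3
  have a61 : M6.a 1 = M3.a 1 := (hf6.a 1 rfl).trans a41
  have e63 : M6.a 3 = M.a 3 := a6 3 rfl rfl (by decide)
  have e64 : M6.a 4 = M.a 4 := a6 4 rfl rfl (by decide)
  have v610 : M6.v 10 = N := (hf6.v 10 rfl).trans v510
  have hgen6 : gens m (M6.a 5) (M6.a 2 N) ≤ stab G B := by
    refine hg6'.sub.trans ?_
    rw [hgenN]
    exact sup_le bot_le le_rfl
  -- the point stabiliser is contained in the new group
  have hpt : ∀ g ∈ K, g y = y → g ∈ gens m (M6.a 5) (M6.a 2 N) := by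
    have key := schreier (S := gset m (M.a 5) (M.a 2 cur)) (O := {v : Fin m | M5.a 6 0 v 0 ≠ 0})
      (y := y) (fun v => pm m (row (M5.a 7) v)) ?_ ?_ ?_ (gens m (M6.a 5) (M6.a 2 N)) ?_
    · intro g hg
      have h1 : Subgroup.closure (gset m (M.a 5) (M.a 2 cur)) = K := hI.st cur hcur
      rw [h1] at key
      exact key g hg
    · intro v hv s hs
      exact hS.cl v hv s (by rw [e55, e52]; exact hs)
    · have h1 := hO.all 1 (one_mem _)
      change M4.a 6 0 y 0 ≠ 0
      simpa using h1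
    · exact hO.one.pm
    · intro v hv s hs
      exact hsch v hv s (by rw [e55, e52]; exact hs)
  -- the new word is not equivalent to an old one
  have hnewB : ∀ b < N, ∀ g ∈ G, act g B ≠ wd m (M.a 1) b := by
    intro b hb g hg h
    exact hI.compl cur hcur b hb y c hblank hc0 hck g hg h hunset
  have hwdN : ∀ a < N, wd m (M6.a 1) a = wd m (M.a 1) a := by
    intro a ha
    rw [a61]; exact hwd a (by omega)
  have hwdB : wd m (M6.a 1) N = B := by rw [a61]; exact hwN
  have hC : ZC m k G N M6 := by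
    refine ⟨(v6 0 rfl (by decide) rfl (by decide) (by decide) (by decide)).trans hI.hm,
      (v6 3 rfl (by decide) rfl (by decide) (by decide) (by decide)).trans hI.hz,
      v6 4 rfl (by decide) rfl (by decide) (by decide) (by decide), v610, hg6'.pool,
      ⟨Nat.succ_pos _, ?_, ?_⟩, ?_, ?_, ?_, ?_, ?_, ?_, ?_, ?_⟩
    · intro x
      have h0 : (0 : ℕ) ≠ N := by
        have := hI.link.pos
        omega
      have := hw1 0 h0
      rw [a61, this]
      exact hI.link.root x
    · intro a ha y' c' hne'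
      rw [e63] at hne' ⊢
      rw [e64]
      rcases Nat.lt_succ_iff_lt_or_eq.1 ha with h1 | h1
      · obtain ⟨h2, h3, h4, h5⟩ := hI.link.link a h1 y' c' hne'
        rw [hg6'.ext.row h3, hwdN a h1]
        refine ⟨h2.trans (Nat.le_succ _), h3.trans_le hg6'.np, h4, ?_⟩
        rw [h5]
        exact (hwdN _ (by omega)).symm
      · rw [h1] at hne'
        exact absurd (hI.fresh3 N le_rfl _ _) hne'
    · intro a ha y' c'
      rw [e63]
      by_cases h : M.a 3 a y' c' = 0
      · omega
      · exact (hI.link.link a ha y' c' h).1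
    · intro a ha x
      rcases Nat.lt_or_eq_of_le ha with h1 | h1
      · rw [hwdN a h1]; exact hI.wk a h1 x
      · rw [h1, hwdB, hBdef]
        by_cases hx : x = y
        · rw [hx, Function.update_self]; exact hck
        · rw [Function.update_of_ne hx]; exact hI.wk cur hcur x
    · intro a ha
      rcases Nat.lt_or_eq_of_le ha with h1 | h1
      · rw [hg6'.other a (by omega)]
        exact (hI.tab a h1).ext hg6'.ext hg6'.np
      · rw [h1]; exact hg6'.tab
    · intro a ha
      rw [hg6'.other a (by omega), gens_ext hg6'.ext (hI.tab a ha).lt, hI.st a ha, hwdN a ha]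
    · rw [hwdB]; exact hgen6
    · intro a ha b hb g hg h
      rw [hwdN a ha, hwdN b hb] at h
      exact hI.dist a ha b hb g hg h
    · intro b hb g hg h
      rw [hwdB, hwdN b hb] at h
      exact hnewB b hb g hg h
    · intro a ha hlt y' c' h1 h2 h3
      rw [hwdN a ha, hwdB, hlevB] at hlt
      rw [hwdN a ha] at h1
      rw [e63]
      have hac : a < cur := by
        by_contra hge
        have := hI.mono a ha cur (by omega)
        omega
      exact hI.done a hac y' c' h1 h2 h3
  -- the loop over the positions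
  have hloop : Ex linkP M6 (m * (tLnk m + 3) + 3) (fun M7 => ZInv m k G N M6 m M7) := by
    refine Ex.forP (T := tLnk m) (fun z M7 => ZInv m k G N M6 z M7) hC.hm rfl rfl rfl ?_ ?_
      (fun M' _ _ h => h)
    · refine ⟨?_, ?_, ?_, ?_, rfl, ?_, ?_, ?_, ?_⟩
      · simpa using hC.hm
      · simpa using hC.hz
      · simpa using hC.vN
      · simpa using hC.v10
      · exact (Grow.refl hC.pool hg6'.tab).congr rfl rfl rfl rfl rfl (by simp)
      · have e : (M6.setV 45 0).v 5 = M6.v 5 := by simp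
        rw [e]
        refine ⟨hC.link, fun a y' c' _ => ⟨rfl, rfl⟩, fun a y' c' => Or.inl rfl, ?_⟩
        intro a ha v d hd
        have := hC.lkle a ha v d
        have hd' : M6.a 3 a v d = N + 1 := hd
        omega
      · intro z' hz'; exact absurd hz' (Nat.not_lt_zero _)
      · intro z' hz'; exact absurd hz' (Nat.not_lt_zero _)
    · intro z hz M7 hf7 hv7 hZ
      refine (linkStep_spec hC ⟨z, hz⟩ hZ hv7).post ?_
      intro M8 hf8 h8
      obtain ⟨b0, b1, b2, b3, b4, b5, b6, b7, b8⟩ := h8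
      refine ⟨?_, ?_, ?_, ?_, b4, ?_, ?_, b7, b8⟩
      · simpa using b0
      · simpa using b1
      · simpa using b2
      · simpa using b3
      · exact b5.congr rfl rfl rfl rfl rfl (by simp)
      · have e : (M8.setV 45 (z + 1)).v 5 = M8.v 5 := by simp
        rw [e]; exact b6
  refine Ex.bind (T2 := 1) hloop ?_
  intro M7 hf7 hZ
  refine Ex.op ?_
  have e8 : Op.exec M7 (.succ 4) = M7.setV 4 (N + 1) := by
    simp only [Op.exec, hZ.vN]
  rw [e8]
  have f7 : ∀ x, linkP.wv x = false → schreierP.wv x = false → x ≠ 10 → orbitP.wv x = false →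
      x ≠ 11 → x ≠ 12 → x < 60 → M7.v x = M.v x := by
    intro x h0 h1 h2 h3 h4 h5 h6
    rw [hf7.v x h0, v6 x h1 h2 h3 h4 h5 h6]
  have v71 : M7.v 1 = k := (f7 1 rfl rfl (by decide) rfl (by decide) (by decide) (by decide)).trans hI.hk
  have v76 : M7.v 6 = cur := f7 6 rfl rfl (by decide) rfl (by decide) (by decide) (by decide)
  have hwd7 : ∀ a, wd m (M7.a 1) a = wd m (M6.a 1) a := by
    intro a; rw [hZ.w1]
  have hg7 : Grow m N (stab G B) M6 M7 := by
    have := hZ.grow
    rwa [hwdB] at this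
  have hfl := hZ.fl
  have hold : ∀ a y' c' : ℕ, M.a 3 a y' c' ≠ 0 → M7.a 3 a y' c' ≠ 0 := by
    intro a y' c' h
    rw [← e63] at h
    rw [(hfl.old a y' c' h).1]
    exact h
  have hrow7 : ∀ a, a ≠ N → M7.a 1 a = M.a 1 a := by
    intro a ha
    rw [hZ.w1, a61]
    exact hw1 a ha
  -- the stabiliser of the new word
  have hstN : gens m (M7.a 5) (M7.a 2 N) = stab G B := by
    apply le_antisymm
    · exact hg7.sub.trans (sup_le hgen6 le_rfl)
    · intro q hq
      have hBy : B y = c := by rw [hBdef, Function.update_self]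
      have hBz : B (q y) = c := by
        conv_lhs => rw [← hq.2]
        rw [act_apply, hBy]
      obtain ⟨q1, hq1, a1, ha1', g1, hg1, h11, h12, h13⟩ := hZ.wit y y.2
        (by rw [hwdB, hBy]; exact hc0)
      obtain ⟨q2, hq2, a2, ha2', g2, hg2, h21, h22, h23⟩ := hZ.wit (q y) (q y).2
        (by rw [hwdB, hBz]; exact hc0)
      rw [hwdB] at h11 h12 h13 h21 h22 h23
      rw [hBy] at h12 h13
      rw [hBz] at h22 h23
      have h3 : act (g2 * q * g1⁻¹) (wd m (M6.a 1) a1) = wd m (M6.a 1) a2 := by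
        rw [act_mul, ← h11, act_inv_act, act_mul, act_update, hq.2, h21]
      have h4 : a1 = a2 := hC.dist a1 ha1' a2 ha2' _
        (G.mul_mem (G.mul_mem hg2 hq.1) (G.inv_mem hg1)) h3
      subst h4
      obtain ⟨h5, h6⟩ := hfl.base a1 ha1' (g1 y) c h12 (g2 * q * g1⁻¹)
        ⟨G.mul_mem (G.mul_mem hg2 hq.1) (G.inv_mem hg1), h3⟩
      have h7 : (g2 * q * g1⁻¹) (g1 y) = g2 (q y) := by simp
      rw [h7] at h6
      have h8 : q2 (q y) = q1 y := by rw [h23, h6, h13]
      have h9 : (q1⁻¹ * q2 * q) y = y := by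
        rw [Perm.mul_apply, Perm.mul_apply, h8]; simp
      have hq1' : q1 ∈ stab G B := hg7.sub.trans (sup_le hgen6 le_rfl) hq1
      have hq2' : q2 ∈ stab G B := hg7.sub.trans (sup_le hgen6 le_rfl) hq2
      have h10 : q1⁻¹ * q2 * q ∈ stab G B := mul_mem (mul_mem (inv_mem hq1') hq2') hq
      have hK' : q1⁻¹ * q2 * q ∈ K := by
        refine ⟨h10.1, ?_⟩
        have e : wd m (M.a 1) cur = Function.update B y 0 := by
          rw [hBdef, Function.update_idem, ← hblank, Function.update_eq_self]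
        rw [e, act_update, h9, h10.2]
      have h14 := hg7.le (hpt _ hK' h9)
      have h15 : q = q2⁻¹ * q1 * (q1⁻¹ * q2 * q) := by group
      rw [h15]
      exact mul_mem (mul_mem (inv_mem hq2) hq1) h14
  have hflag : M7.a 3 cur y c ≠ 0 := by
    have h1 := hZ.proc y y.2 (by rw [hwdB, hBdef, Function.update_self]; exact hc0) cur
      (by omega) 1 (one_mem _) (by
        rw [act_one, hwdB, hBdef, Function.update_idem, ← hblank, Function.update_eq_self]
        exact (hwdN cur hcur).symm)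
    rw [hwdB] at h1
    have h2 : B y = c := by rw [hBdef, Function.update_self]
    rw [h2] at h1
    exact h1
  refine ⟨?_, ?_, ?_, ?_, ?_⟩
  · have ev4 : (M7.setV 4 (N + 1)).v 4 = N + 1 := by simp
    have ev5' : (M7.setV 4 (N + 1)).v 5 = M7.v 5 := by simp
    have ev6 : (M7.setV 4 (N + 1)).v 6 = cur := by simpa using v76
    have hwA : ∀ a < N, wd m (M7.a 1) a = wd m (M.a 1) a := by
      intro a ha; rw [hwd7, hwdN a ha]
    have hwB : wd m (M7.a 1) N = B := by rw [hwd7, hwdB]
    refine ⟨by simpa using hZ.m0, by simpa using v71, by simpa using hZ.z3, ?_, ?_, ?_, ?_, ?_,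
      ?_, ?_, ?_, ?_, ?_, ?_, ?_, ?_, ?_⟩
    · rw [setV_a, ev5']; exact hg7.pool
    · rw [ev4, ev5', setV_a, hZ.w1]; exact hfl.link
    · rw [ev4, setV_a]
      intro a ha x
      rw [hwd7]
      exact hC.wk a (by omega) x
    · rw [ev4, ev5', setV_a]
      intro a ha
      rcases Nat.lt_succ_iff_lt_or_eq.1 ha with h1 | h1
      · rw [hg7.other a (by omega)]
        exact (hC.tab a (by omega)).ext hg7.ext hg7.np
      · rw [h1]; exact hg7.tab
    · rw [ev4, setV_a]
      intro a ha
      rcases Nat.lt_succ_iff_lt_or_eq.1 ha with h1 | h1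
      · rw [hg7.other a (by omega), gens_ext hg7.ext (hC.tab a (by omega)).lt, hC.st a h1, hwd7]
      · rw [h1, hstN, hwB]
    · rw [ev4, setV_a]
      intro a ha i j
      rw [hg7.other a (by omega), hg6'.other a (by omega)]
      exact hI.fresh2 a (by omega) i j
    · rw [ev4, setV_a]
      intro a ha i j
      rcases hfl.new a i j with h1 | h1
      · rw [h1, e63]; exact hI.fresh3 a (by omega) i j
      · omega
    · rw [ev4, setV_a]
      intro a ha b hb y' c' h1 h2 h3 g hg h4
      rcases Nat.lt_succ_iff_lt_or_eq.1 ha with ha1 | ha1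
      · rw [hwA a ha1] at h1 h4
        rcases Nat.lt_succ_iff_lt_or_eq.1 hb with hb1 | hb1
        · rw [hwA b hb1] at h4
          exact hold a y' c' (hI.compl a ha1 b hb1 y' c' h1 h2 h3 g hg h4)
        · rw [hb1, hwB] at h4
          have hBz : B (g y') = c' := by
            rw [← h4, act_apply, Function.update_self]
          have h5 := hZ.proc (g y') (g y').2 (by rw [hwdB, hBz]; exact h2) a ha1 g⁻¹
            (G.inv_mem hg) (by
              rw [hwdB, ← h4, act_update g, Function.update_idem, act_update, act_inv_act]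
              have : g⁻¹ (g y') = y' := by simp
              rw [this, ← h1, Function.update_eq_self]
              exact (hwdN a ha1).symm)
          rw [hwdB, hBz] at h5
          have h6 : g⁻¹ (g y') = y' := by simp
          rw [h6] at h5
          exact h5
      · exfalso
        rw [ha1, hwB] at h1 h4
        have h5 : lev (Function.update B y' c') = lev B + 1 := lev_update_of_ne_zero _ _ _ h1 h2
        have h6 : lev (wd m (M7.a 1) b) = lev B + 1 := by rw [← h4, lev_act, h5]
        rcases Nat.lt_succ_iff_lt_or_eq.1 hb with hb1 | hb1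
        · rw [hwA b hb1] at h6
          have h7 : lev (wd m (M.a 1) b) ≤ lev (wd m (M.a 1) cur) + 1 := hI.up hcur b hb1
          omega
        · rw [hb1, hwB] at h6
          omega
    · rw [ev4, setV_a]
      intro a ha b hb g hg h
      rcases Nat.lt_succ_iff_lt_or_eq.1 ha with ha1 | ha1
      · rcases Nat.lt_succ_iff_lt_or_eq.1 hb with hb1 | hb1
        · rw [hwA a ha1, hwA b hb1] at h
          exact hI.dist a ha1 b hb1 g hg h
        · rw [hwA a ha1, hb1, hwB] at h
          exact absurd (eq_act_inv h).symm (hnewB a ha1 g⁻¹ (G.inv_mem hg))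
      · rcases Nat.lt_succ_iff_lt_or_eq.1 hb with hb1 | hb1
        · rw [hwA b hb1, ha1, hwB] at h
          exact absurd h (hnewB b hb1 g hg)
        · rw [ha1, hb1]
    · rw [ev4, setV_a]
      intro b hb a hab
      rcases Nat.lt_succ_iff_lt_or_eq.1 hb with hb1 | hb1
      · rw [hwA a (by omega), hwA b hb1]
        exact hI.mono b hb1 a hab
      · rw [hb1, hwB, hlevB]
        rcases Nat.lt_or_eq_of_le hab with h1 | h1
        · rw [hwA a (by omega)]
          exact hI.up hcur a (by omega)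
        · rw [h1, hb1, hwB, hlevB]
    · rw [ev4, ev6]; omega
    · rw [ev6, setV_a]
      intro a ha y' c' h1 h2 h3
      rw [hwA a (by omega)] at h1
      exact hold a y' c' (hI.done a ha y' c' h1 h2 h3)
    · rw [ev4, ev6, setV_a]
      intro _ a ha
      rw [hwA cur hcur]
      rcases Nat.lt_succ_iff_lt_or_eq.1 ha with ha1 | ha1
      · rw [hwA a ha1]; exact hI.up hcur a ha1
      · rw [ha1, hwB, hlevB]
    · rw [ev4, ev6, setV_a]
      intro _ w hw hlw
      rw [hwA cur hcur] at hlw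
      obtain ⟨a, ha, g, hg, h⟩ := hI.cover hcur w hw hlw
      exact ⟨a, by omega, g, hg, by rw [hwA a ha]; exact h⟩
  · simp
  · intro a ha
    rw [setV_a]
    exact hrow7 a (by omega)
  · rw [setV_a]; exact hold
  · rw [setV_a]; exact hflag

end Pool.Agent.W984.OL
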