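import Pool.Agent.W984.OL.Insert

set_option autoImplicit false
set_option linter.unusedSimpArgs false
set_option linter.unusedVariables false

/-! Computing the orbit of a point, with a transversal. -/

namespace Pool.Agent.W984.OL

open Equiv

/-- Innermost part of the orbit computation. -/
def orbBody : Prog :=
  .seq (.op (.load 28 2 11 26 27))
    (.seq (.op (.load 29 5 28 25 3))
      (.seq (.op (.load 13 6 3 29 3))
        (.ite (.eq 13 3)
          (.seq (.op (.const 13 1)) (.seq (.op (.store 6 3 29 3 13)) (cmpL 7 25 5 28 7 29)))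
          .skip)))

/-- All generators are applied to the point `v 25`. -/
def orbGens : Prog := forP 26 0 (forP 27 0 orbBody)

/-- One point. -/
def orbPoint : Prog := .seq (.op (.load 13 6 3 25 3)) (.ite (.eq 13 3) .skip orbGens)

/-- One round. -/
def orbRound : Prog := forP 25 0 orbPoint

/-- Compute the orbit of the point `v 12` under the group generated by the table `v 11`. -/
def orbitP : Prog :=
  .seq (zeroL 6 3) (.seq (.op (.const 13 1)) (.seq (.op (.store 6 3 12 3 13))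
    (.seq (idL 7 12) (forP 24 0 orbRound))))

/-- The state of the orbit computation: marked points are reached by the transversal elements. -/
structure OrbS {m : ℕ} (K : Subgroup (Perm (Fin m))) (y : ℕ) (A6 A7 : ℕ → ℕ → ℕ → ℕ) : Prop where
  sound : ∀ v < m, A6 0 v 0 ≠ 0 → ∃ t ∈ K, RP (row A7 v) t ∧ fn t y = v
  st : A6 0 y 0 ≠ 0
  one : RP (row A7 y) (1 : Perm (Fin m))

theorem orbBody_spec {m : ℕ} {M : Mem} {np : ℕ} (hm : M.v 0 = m) (hz : M.v 3 = 0)
    (hP : PoolOK m (M.a 5) np) (K : Subgroup (Perm (Fin m))) (y : ℕ) (hy : y < m)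
    (hO : OrbS K y (M.a 6) (M.a 7)) (hv : M.v 25 < m) (hTv : M.a 6 0 (M.v 25) 0 ≠ 0)
    (hp : M.a 2 (M.v 11) (M.v 26) (M.v 27) < np)
    (hK : pm m (row (M.a 5) (M.a 2 (M.v 11) (M.v 26) (M.v 27))) ∈ K) :
    Ex orbBody M (8 * m + 15) (fun M' => OrbS K y (M'.a 6) (M'.a 7) ∧
      (∀ x, M.a 6 0 x 0 ≠ 0 → M'.a 6 0 x 0 ≠ 0) ∧
      M'.a 6 0 (fn (pm m (row (M.a 5) (M.a 2 (M.v 11) (M.v 26) (M.v 27)))) (M.v 25)) 0 ≠ 0) := by
  set p := M.a 2 (M.v 11) (M.v 26) (M.v 27) with hpdef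
  set s := pm m (row (M.a 5) p) with hs
  set v := M.v 25 with hvdef
  have hrow : RP (row (M.a 5) p) s := (hP.vp p hp).rp
  have hu : M.a 5 p v 0 = fn s v := hrow.lt hv
  set u := fn s v with hudef
  have hum : u < m := fn_lt s hv
  unfold orbBody
  refine (Ex.opSeq (T2 := 8 * m + 13) ?_)
  have e1 : Op.exec M (.load 28 2 11 26 27) = M.setV 28 p := rfl
  rw [e1]
  refine (Ex.opSeq (T2 := 8 * m + 11) ?_)
  have e2 : Op.exec (M.setV 28 p) (.load 29 5 28 25 3) = (M.setV 28 p).setV 29 u := by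
    simp only [Op.exec, setV_v, setV_a, if_neg (show ¬ (25 = 28) by decide),
      if_neg (show ¬ (3 = 28) by decide), if_true, hz, ← hvdef, hu]
  rw [e2]
  refine (Ex.opSeq (T2 := 8 * m + 9) ?_)
  have e3 : Op.exec ((M.setV 28 p).setV 29 u) (.load 13 6 3 29 3) =
      ((M.setV 28 p).setV 29 u).setV 13 (M.a 6 0 u 0) := by
    simp only [Op.exec, setV_v, setV_a, if_neg (show ¬ (3 = 28) by decide),
      if_neg (show ¬ (3 = 29) by decide), if_true, hz]
  rw [e3]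
  refine (Ex.iteEq (T := 8 * m + 8) ?_ ?_)
  · intro h
    have h' : M.a 6 0 u 0 = 0 := by simpa [hz] using h
    have huv : u ≠ v := by intro h2; rw [h2] at h'; exact hTv h'
    have huy : u ≠ y := by intro h2; rw [h2] at h'; exact hO.st h'
    refine (Ex.opSeq (T2 := 8 * m + 6) (Ex.opSeq (T2 := 8 * m + 4) ?_)).le (by omega)
    set M3 := Op.exec (Op.exec (((M.setV 28 p).setV 29 u).setV 13 (M.a 6 0 u 0)) (.const 13 1))
      (.store 6 3 29 3 13) with hM3
    have hM3a : ∀ r, r ≠ 6 → M3.a r = M.a r := by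
      intro r hr
      rw [hM3]
      simp only [Op.exec]
      rw [setA_a_ne _ _ _ _ _ _ _ hr]
      rfl
    have hM36 : ∀ x, M3.a 6 0 x 0 = if x = u then 1 else M.a 6 0 x 0 := by
      intro x
      rw [hM3]
      simp [Op.exec, setA_a, hz]
    have hM3v : ∀ x, x ≠ 13 → x ≠ 28 → x ≠ 29 → M3.v x = M.v x := by
      intro x h1 h2 h3
      rw [hM3]
      simp [Op.exec, h1, h2, h3]
    have hM328 : M3.v 28 = p := by rw [hM3]; simp [Op.exec]
    have hM329 : M3.v 29 = u := by rw [hM3]; simp [Op.exec]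
    have hM325 : M3.v 25 = v := hM3v 25 (by decide) (by decide) (by decide)
    have hc := cmpL_spec (M := M3) (m := m) 7 25 5 28 7 29
      ((hM3v 0 (by decide) (by decide) (by decide)).trans hm)
      ((hM3v 3 (by decide) (by decide) (by decide)).trans hz) (by decide) (by decide) (by decide)
      (Or.inl (by decide))
    refine (hc.post ?_).le (by omega)
    intro M4 hf4 ha4
    rw [hM328, hM329, hM325, hM3a 7 (by decide), hM3a 5 (by decide)] at ha4
    have a6 : M4.a 6 = M3.a 6 := by rw [ha4, setRow_a_ne _ _ _ _ _ _ (by decide)]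
    have a7 : ∀ x, x ≠ u → row (M4.a 7) x = row (M.a 7) x := by
      intro x hx
      rw [ha4, row_setRow_ne _ _ _ _ _ _ hx, hM3a 7 (by decide)]
    obtain ⟨t, htK, ht, hty⟩ := hO.sound v hv hTv
    have a7u : RP (row (M4.a 7) u) (s * t) := by
      rw [ha4]
      exact RP_setRow _ _ _ _ _ (RP.comp ht hrow)
    refine ⟨⟨?_, ?_, ?_⟩, ?_, ?_⟩
    · intro x hx hx6
      by_cases hxu : x = u
      · refine ⟨s * t, K.mul_mem hK htK, by rw [hxu]; exact a7u, ?_⟩
        rw [← fn_mul _ _ hy, hty, hxu]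
      · rw [a6, hM36, if_neg hxu] at hx6
        obtain ⟨t', h1, h2, h3⟩ := hO.sound x hx hx6
        exact ⟨t', h1, by rw [a7 x hxu]; exact h2, h3⟩
    · rw [a6, hM36]
      split_ifs
      · exact one_ne_zero
      · exact hO.st
    · rw [a7 y (Ne.symm huy)]
      exact hO.one
    · intro x hx
      rw [a6, hM36]
      split_ifs
      · exact one_ne_zero
      · exact hx
    · rw [a6, hM36, if_pos rfl]
      exact one_ne_zero
  · intro h
    have h' : M.a 6 0 u 0 ≠ 0 := by simpa [hz] using h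
    refine (Ex.skip ?_).le (by omega)
    exact ⟨hO, fun x hx => hx, h'⟩

theorem orbGens_spec {m : ℕ} {M : Mem} {np : ℕ} (hm : M.v 0 = m) (hz : M.v 3 = 0)
    (hP : PoolOK m (M.a 5) np) (y : ℕ) (hy : y < m)
    (hT : ∀ i < m, ∀ j < m, M.a 2 (M.v 11) i j < np)
    (hO : OrbS (gens m (M.a 5) (M.a 2 (M.v 11))) y (M.a 6) (M.a 7)) (hv : M.v 25 < m)
    (hTv : M.a 6 0 (M.v 25) 0 ≠ 0) :
    Ex orbGens M (m * (m * (8 * m + 18) + 6) + 3) (fun M' =>
      OrbS (gens m (M.a 5) (M.a 2 (M.v 11))) y (M'.a 6) (M'.a 7) ∧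
      (∀ x, M.a 6 0 x 0 ≠ 0 → M'.a 6 0 x 0 ≠ 0) ∧
      ∀ s ∈ gset m (M.a 5) (M.a 2 (M.v 11)), M'.a 6 0 (fn s (M.v 25)) 0 ≠ 0) := by
  set K := gens m (M.a 5) (M.a 2 (M.v 11)) with hK
  refine (Ex.forP (T := m * (8 * m + 18) + 3) (fun i M1 => OrbS K y (M1.a 6) (M1.a 7) ∧
    (∀ x, M.a 6 0 x 0 ≠ 0 → M1.a 6 0 x 0 ≠ 0) ∧
    ∀ i' < i, ∀ j < m, M1.a 6 0 (fn (pm m (row (M.a 5) (M.a 2 (M.v 11) i' j))) (M.v 25)) 0 ≠ 0)
    hm rfl rfl rfl ?_ ?_ ?_)
  · exact ⟨hO, fun x hx => hx, fun i' hi' => absurd hi' (Nat.not_lt_zero _)⟩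
  · intro i hi M1 hf hv1 hI
    obtain ⟨hO1, hmono1, hdone1⟩ := hI
    refine (Ex.forP (T := 8 * m + 15) (fun j M2 => OrbS K y (M2.a 6) (M2.a 7) ∧
      (∀ x, M1.a 6 0 x 0 ≠ 0 → M2.a 6 0 x 0 ≠ 0) ∧
      ∀ j' < j, M2.a 6 0 (fn (pm m (row (M.a 5) (M.a 2 (M.v 11) i j'))) (M.v 25)) 0 ≠ 0)
      ((hf.v 0 rfl).trans hm) rfl rfl rfl ?_ ?_ ?_)
    · exact ⟨hO1, fun x hx => hx, fun j' hj' => absurd hj' (Nat.not_lt_zero _)⟩
    · intro j hj M2 hf2 hv2 hI2
      obtain ⟨hO2, hmono2, hdone2⟩ := hI2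
      have v25 : M2.v 25 = M.v 25 := (hf2.v 25 rfl).trans (hf.v 25 rfl)
      have v11 : M2.v 11 = M.v 11 := (hf2.v 11 rfl).trans (hf.v 11 rfl)
      have v26 : M2.v 26 = i := (hf2.v 26 rfl).trans hv1
      have a5 : M2.a 5 = M.a 5 := (hf2.a 5 rfl).trans (hf.a 5 rfl)
      have a2 : M2.a 2 = M.a 2 := (hf2.a 2 rfl).trans (hf.a 2 rfl)
      have hb := orbBody_spec (M := M2) (m := m) (np := np)
        ((hf2.v 0 rfl).trans ((hf.v 0 rfl).trans hm))
        ((hf2.v 3 rfl).trans ((hf.v 3 rfl).trans hz)) (by rw [a5]; exact hP) K y hy hO2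
        (by rw [v25]; exact hv) (by rw [v25]; exact hmono2 _ (hmono1 _ hTv))
        (by rw [a2, v11, v26, hv2]; exact hT i hi j hj)
        (by rw [a5, a2, v11, v26, hv2]; exact mem_gens hi hj)
      rw [a5, a2, v11, v26, hv2, v25] at hb
      refine hb.post ?_
      intro M3 hf3 hQ
      obtain ⟨h1, h2, h3⟩ := hQ
      refine ⟨h1, fun x hx => h2 x (hmono2 x hx), ?_⟩
      intro j' hj'
      rcases Nat.lt_succ_iff_lt_or_eq.1 hj' with h | h
      · exact h2 _ (hdone2 j' h)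
      · rw [h]; exact h3
    · intro M3 hf3 _ hI3
      obtain ⟨h1, h2, h3⟩ := hI3
      refine ⟨h1, fun x hx => h2 x (hmono1 x hx), ?_⟩
      intro i' hi'
      rcases Nat.lt_succ_iff_lt_or_eq.1 hi' with h | h
      · exact fun j hj => h2 _ (hdone1 i' h j hj)
      · rw [h]; exact h3
  · intro M3 hf3 _ hI3
    obtain ⟨h1, h2, h3⟩ := hI3
    refine ⟨h1, h2, ?_⟩
    rintro _ ⟨i, hi, j, hj, rfl⟩
    exact h3 i hi j hj

theorem orbRound_spec {m : ℕ} {M : Mem} {np : ℕ} (hm : M.v 0 = m) (hz : M.v 3 = 0)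
    (hP : PoolOK m (M.a 5) np) (y : ℕ) (hy : y < m)
    (hT : ∀ i < m, ∀ j < m, M.a 2 (M.v 11) i j < np)
    (hO : OrbS (gens m (M.a 5) (M.a 2 (M.v 11))) y (M.a 6) (M.a 7)) :
    Ex orbRound M (m * (m * (m * (8 * m + 18) + 6) + 9) + 3) (fun M' =>
      OrbS (gens m (M.a 5) (M.a 2 (M.v 11))) y (M'.a 6) (M'.a 7) ∧
      (∀ x, M.a 6 0 x 0 ≠ 0 → M'.a 6 0 x 0 ≠ 0) ∧
      ∀ v < m, M.a 6 0 v 0 ≠ 0 →
        ∀ s ∈ gset m (M.a 5) (M.a 2 (M.v 11)), M'.a 6 0 (fn s v) 0 ≠ 0) := by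
  set K := gens m (M.a 5) (M.a 2 (M.v 11)) with hK
  refine (Ex.forP (T := m * (m * (8 * m + 18) + 6) + 6) (fun v M1 => OrbS K y (M1.a 6) (M1.a 7) ∧
    (∀ x, M.a 6 0 x 0 ≠ 0 → M1.a 6 0 x 0 ≠ 0) ∧
    ∀ v' < v, M.a 6 0 v' 0 ≠ 0 →
      ∀ s ∈ gset m (M.a 5) (M.a 2 (M.v 11)), M1.a 6 0 (fn s v') 0 ≠ 0)
    hm rfl rfl rfl ?_ ?_ ?_)
  · exact ⟨hO, fun x hx => hx, fun i' hi' => absurd hi' (Nat.not_lt_zero _)⟩
  · intro v hv M1 hf hv1 hI
    obtain ⟨hO1, hmono1, hdone1⟩ := hI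
    have v3 : M1.v 3 = 0 := (hf.v 3 rfl).trans hz
    refine Ex.opSeq (T2 := m * (m * (8 * m + 18) + 6) + 4) ?_
    have e : Op.exec M1 (.load 13 6 3 25 3) = M1.setV 13 (M1.a 6 0 v 0) := by
      simp only [Op.exec, v3, hv1]
    rw [e]
    refine Ex.iteEq (T := m * (m * (8 * m + 18) + 6) + 3) ?_ ?_
    · intro h
      have h' : M1.a 6 0 v 0 = 0 := by simpa [v3] using h
      refine (Ex.skip ?_).le (by omega)
      refine ⟨hO1, hmono1, ?_⟩
      intro v' hv' h6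
      rcases Nat.lt_succ_iff_lt_or_eq.1 hv' with h2 | h2
      · exact hdone1 v' h2 h6
      · rw [h2] at h6
        exact absurd h' (hmono1 _ h6)
    · intro h
      have h' : M1.a 6 0 v 0 ≠ 0 := by simpa [v3] using h
      have v11 : M1.v 11 = M.v 11 := hf.v 11 rfl
      have a5 : M1.a 5 = M.a 5 := hf.a 5 rfl
      have a2 : M1.a 2 = M.a 2 := hf.a 2 rfl
      have hg := orbGens_spec (M := M1.setV 13 (M1.a 6 0 v 0)) (m := m) (np := np)
        (by simpa using (hf.v 0 rfl).trans hm) (by simpa using v3)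
        (by rw [setV_a, a5]; exact hP) y hy
        (by
          simp only [setV_a, setV_v, if_neg (show ¬ (11 = 13) by decide)]
          rw [a2, v11]; exact hT)
        (by
          simp only [setV_a, setV_v, if_neg (show ¬ (11 = 13) by decide)]
          rw [a2, v11, a5]; exact hO1)
        (by simpa [hv1] using hv) (by simpa [hv1] using h')
      simp only [setV_a, setV_v, if_neg (show ¬ (11 = 13) by decide),
        if_neg (show ¬ (25 = 13) by decide), a2, v11, a5, hv1] at hg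
      refine hg.post ?_
      intro M3 hf3 hQ
      obtain ⟨h1, h2, h3⟩ := hQ
      refine ⟨h1, fun x hx => h2 x (hmono1 x hx), ?_⟩
      intro v' hv' h6
      rcases Nat.lt_succ_iff_lt_or_eq.1 hv' with h4 | h4
      · exact fun s hs => h2 _ (hdone1 v' h4 h6 s hs)
      · rw [h4]; exact h3
  · intro M3 hf3 _ hI3
    exact hI3

/-- The marked points are the orbit, and the rows of the marked points contain a transversal. -/
structure OrbR {m : ℕ} (K : Subgroup (Perm (Fin m))) (y : Fin m) (A6 A7 : ℕ → ℕ → ℕ → ℕ) :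
    Prop where
  sound : ∀ v : Fin m, A6 0 v 0 ≠ 0 → ∃ t ∈ K, RP (row A7 v) t ∧ t y = v
  one : RP (row A7 y) (1 : Perm (Fin m))
  all : ∀ g ∈ K, A6 0 (g y) 0 ≠ 0

/-- Time bound of the orbit computation. -/
def tOrb (m : ℕ) : ℕ :=
  m * (m * (m * (m * (8 * m + 18) + 6) + 9) + 6) + 8 * m + 20

theorem orbitP_spec {m : ℕ} {M : Mem} {np : ℕ} (hm : M.v 0 = m) (hz : M.v 3 = 0)
    (hP : PoolOK m (M.a 5) np) (y : Fin m) (hy : M.v 12 = y)
    (hT : ∀ i < m, ∀ j < m, M.a 2 (M.v 11) i j < np) :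
    Ex orbitP M (tOrb m) (fun M' =>
      OrbR (gens m (M.a 5) (M.a 2 (M.v 11))) y (M'.a 6) (M'.a 7)) := by
  unfold orbitP tOrb
  set K := gens m (M.a 5) (M.a 2 (M.v 11)) with hK
  set S := gset m (M.a 5) (M.a 2 (M.v 11)) with hS
  refine (Ex.bind (T2 := m * (m * (m * (m * (8 * m + 18) + 6) + 9) + 6) + 3 + (m * 4 + 3) + 5)
    (zeroL_spec 6 3 hm hz (by decide)) ?_).le (by omega)
  intro M1 hf1 ha1
  rw [hz] at ha1
  refine (Ex.opSeq (T2 := m * (m * (m * (m * (8 * m + 18) + 6) + 9) + 6) + 3 + (m * 4 + 3) + 3)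
    (Ex.opSeq (T2 := m * (m * (m * (m * (8 * m + 18) + 6) + 9) + 6) + 3 + (m * 4 + 3) + 1) ?_))
  have v31 : M1.v 3 = 0 := (hf1.v 3 rfl).trans hz
  have v121 : M1.v 12 = y := (hf1.v 12 rfl).trans hy
  set M2 := Op.exec (Op.exec M1 (.const 13 1)) (.store 6 3 12 3 13) with hM2
  have v2 : ∀ x, x ≠ 13 → M2.v x = M1.v x := by
    intro x hx; rw [hM2]; simp [Op.exec, hx]
  have a26 : ∀ x, M2.a 6 0 x 0 = if x = y then 1 else M1.a 6 0 x 0 := by
    intro x; rw [hM2]; simp [Op.exec, setA_a, v31, v121]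
  have a2 : ∀ r, r ≠ 6 → M2.a r = M1.a r := by
    intro r hr; rw [hM2]; simp only [Op.exec]; rw [setA_a_ne _ _ _ _ _ _ _ hr]; rfl
  refine (Ex.bind (T2 := m * (m * (m * (m * (8 * m + 18) + 6) + 9) + 6) + 3)
    (idL_spec (M := M2) (m := m) 7 12 ((v2 0 (by decide)).trans ((hf1.v 0 rfl).trans hm))
      ((v2 3 (by decide)).trans v31) (by decide)) ?_).le (by omega)
  intro M3 hf3 ha3
  have v212 : M2.v 12 = y := (v2 12 (by decide)).trans v121
  rw [v212] at ha3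
  have v3 : ∀ x, x ≠ 13 → x < 60 → M3.v x = M.v x := by
    intro x hx hx'
    rw [hf3.v x (by simp [idL, forP, Prog.wv, Op.wv]; omega), v2 x hx,
      hf1.v x (by simp [zeroL, forP, Prog.wv, Op.wv]; omega)]
  have a36 : ∀ x < m, M3.a 6 0 x 0 = if x = y then 1 else 0 := by
    intro x hx
    rw [ha3, setRow_a_ne _ _ _ _ _ _ (by decide), a26]
    split_ifs with h
    · rfl
    · rw [ha1, setRow_a, if_pos ⟨rfl, rfl, hx, rfl⟩]
  have a3 : ∀ r, r ≠ 6 → r ≠ 7 → M3.a r = M.a r := by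
    intro r hr hr'
    rw [ha3, setRow_a_ne _ _ _ _ _ _ hr', a2 r hr, ha1, setRow_a_ne _ _ _ _ _ _ hr]
  have a37 : RP (row (M3.a 7) y) (1 : Perm (Fin m)) := by
    rw [ha3]
    exact RP_setRow _ _ _ _ _ RP_id
  have e5 : M3.a 5 = M.a 5 := a3 5 (by decide) (by decide)
  have e2 : M3.a 2 = M.a 2 := a3 2 (by decide) (by decide)
  have e11 : M3.v 11 = M.v 11 := v3 11 (by decide) (by decide)
  refine Ex.forP (T := m * (m * (m * (8 * m + 18) + 6) + 9) + 3)
    (fun r M4 => OrbS K y (M4.a 6) (M4.a 7) ∧ ∀ v ∈ ball S y r, M4.a 6 0 (v : Fin m) 0 ≠ 0)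
    ((v3 0 (by decide) (by decide)).trans hm) rfl rfl rfl ?_ ?_ ?_
  · refine ⟨⟨?_, ?_, ?_⟩, ?_⟩
    · intro v hv h6
      simp only [setV_a] at h6 ⊢
      rw [a36 v hv] at h6
      have hvy : v = y := by
        by_contra hne
        rw [if_neg hne] at h6
        exact h6 rfl
      refine ⟨1, one_mem _, ?_, ?_⟩
      · rw [hvy]; exact a37
      · rw [hvy, fn_val]; rfl
    · simp only [setV_a]
      rw [a36 y y.2, if_pos rfl]
      exact one_ne_zero
    · exact a37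
    · intro v hv
      simp only [ball, Finset.mem_singleton] at hv
      rw [hv, setV_a, a36 y y.2, if_pos rfl]
      exact one_ne_zero
  · intro r hr M4 hf4 hv4 hI
    have f5 : M4.a 5 = M.a 5 := (hf4.a 5 rfl).trans e5
    have f2 : M4.a 2 = M.a 2 := (hf4.a 2 rfl).trans e2
    have f11 : M4.v 11 = M.v 11 := (hf4.v 11 rfl).trans e11
    have hrd := orbRound_spec (M := M4) (m := m) (np := np)
      ((hf4.v 0 rfl).trans ((v3 0 (by decide) (by decide)).trans hm))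
      ((hf4.v 3 rfl).trans ((v3 3 (by decide) (by decide)).trans hz))
      (by rw [f5]; exact hP) y y.2 (by rw [f2, f11]; exact hT)
      (by rw [f5, f2, f11]; exact hI.1)
    rw [f5, f2, f11] at hrd
    refine hrd.post ?_
    intro M5 hf5 hQ
    obtain ⟨h1, h2, h3⟩ := hQ
    refine ⟨h1, ?_⟩
    intro v hv
    simp only [setV_a]
    classical
    rw [ball, Finset.mem_union, Finset.mem_filter] at hv
    rcases hv with hv | ⟨-, u, hu, s, hs, rfl⟩
    · exact h2 _ (hI.2 v hv)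
    · have := h3 u u.2 (hI.2 u hu) s hs
      rwa [fn_val] at this
  · intro M6 hf6 _ hI
    obtain ⟨hO, hb⟩ := hI
    have hall : ∀ g ∈ K, g y ∈ ball S y m := by
      intro g hg
      exact closed_of_gens (X := {v | v ∈ ball S y m})
        (fun s hs v hv => ball_closed S y v hv s hs) g hg y (ball_self S y m)
    refine ⟨?_, hO.one, fun g hg => hb _ (hall g hg)⟩
    intro v hv
    obtain ⟨t, ht, h1, h2⟩ := hO.sound v v.2 hv
    refine ⟨t, ht, h1, ?_⟩
    rw [fn_val] at h2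
    exact Fin.ext h2

end Pool.Agent.W984.OL
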