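import Pool.Agent.W984.OL.Logic

set_option autoImplicit false
set_option linter.unusedSimpArgs false

/-! Loops on rows of arrays. -/

namespace Pool.Agent.W984.OL

open Equiv

/-- Replace the first `n` cells of row `i` of array `r`. -/
def Mem.setRow (M : Mem) (r i n : ℕ) (f : ℕ → ℕ) : Mem :=
  ⟨M.v, fun r' i' j' l' => if r' = r ∧ i' = i ∧ j' < n ∧ l' = 0 then f j' else M.a r' i' j' l',
    M.out⟩

/-- Row `i` of an array. -/
def row (A : ℕ → ℕ → ℕ → ℕ) (i : ℕ) : ℕ → ℕ := fun j => A i j 0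

theorem setRow_a (M : Mem) (r i n : ℕ) (f : ℕ → ℕ) (r' i' j' l' : ℕ) :
    (M.setRow r i n f).a r' i' j' l' =
      if r' = r ∧ i' = i ∧ j' < n ∧ l' = 0 then f j' else M.a r' i' j' l' := rfl

theorem setRow_a_ne (M : Mem) (r i n : ℕ) (f : ℕ → ℕ) (r' : ℕ) (h : r' ≠ r) :
    (M.setRow r i n f).a r' = M.a r' := by
  funext i' j' l'
  rw [setRow_a, if_neg (fun h' => h h'.1)]

theorem setRow_a_ne' (M : Mem) (r i n : ℕ) (f : ℕ → ℕ) (i' : ℕ) (h : i' ≠ i) :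
    (M.setRow r i n f).a r i' = M.a r i' := by
  funext j' l'
  rw [setRow_a, if_neg (fun h' => h h'.2.1)]

theorem row_setRow (M : Mem) (r i n : ℕ) (f : ℕ → ℕ) (j : ℕ) (h : j < n) :
    row ((M.setRow r i n f).a r) i j = f j := by
  unfold row
  rw [setRow_a, if_pos ⟨rfl, rfl, h, rfl⟩]

theorem row_setRow_ne (M : Mem) (r i n : ℕ) (f : ℕ → ℕ) (i' : ℕ) (h : i' ≠ i) :
    row ((M.setRow r i n f).a r) i' = row (M.a r) i' := by
  unfold row
  rw [setRow_a_ne' _ _ _ _ _ _ h]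

theorem setRow_zero (M : Mem) (r i : ℕ) (f : ℕ → ℕ) : (M.setRow r i 0 f).a = M.a := by
  funext r' i' j' l'
  rw [setRow_a, if_neg (fun h => Nat.not_lt_zero _ h.2.2.1)]

theorem setRow_succ (M M1 : Mem) (r i j : ℕ) (f : ℕ → ℕ) (h : M1.a = (M.setRow r i j f).a) :
    (M1.setA r i j 0 (f j)).a = (M.setRow r i (j + 1) f).a := by
  funext r' i' j' l'
  rw [setA_a, h, setRow_a, setRow_a]
  by_cases h1 : r' = r ∧ i' = i ∧ j' = j ∧ l' = 0
  · rw [if_pos h1, if_pos ⟨h1.1, h1.2.1, by omega, h1.2.2.2⟩, h1.2.2.1]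
  · rw [if_neg h1]
    by_cases h2 : r' = r ∧ i' = i ∧ j' < j ∧ l' = 0
    · rw [if_pos h2, if_pos ⟨h2.1, h2.2.1, by omega, h2.2.2.2⟩]
    · rw [if_neg h2, if_neg]
      rintro ⟨h3, h4, h5, h6⟩
      rcases Nat.lt_succ_iff_lt_or_eq.1 h5 with h7 | h7
      · exact h2 ⟨h3, h4, h7, h6⟩
      · exact h1 ⟨h3, h4, h7, h6⟩

theorem Ex.rowLoop {x n : ℕ} {body : Prog} {M : Mem} {T N : ℕ} (r i : ℕ) (f : ℕ → ℕ)
    (hN : M.v n = N) (hxn : (n == x) = false) (hwx : body.wv x = false)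
    (hwn : body.wv n = false)
    (hs : ∀ j < N, ∀ M1, Fr (OL.forP x n body) M M1 → M1.v x = j →
      M1.a = (M.setRow r i j f).a →
      Ex body M1 T (fun M2 => M2.a = (M1.setA r i j 0 (f j)).a)) :
    Ex (OL.forP x n body) M (N * (T + 3) + 3) (fun M' => M'.a = (M.setRow r i N f).a) := by
  refine Ex.forP (fun j M1 => M1.a = (M.setRow r i j f).a) hN hxn hwx hwn ?_ ?_ ?_
  · rw [setRow_zero]; rfl
  · intro j hj M1 hf hv hI
    refine (hs j hj M1 hf hv hI).post ?_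
    intro M2 _ h2
    rw [setV_a, h2]
    exact setRow_succ M M1 r i j f hI
  · intro M' _ _ h
    exact h

/-- Copy row `v i1` of array `r1` to row `v i2` of array `r2`. -/
def cpyL (r1 i1 r2 i2 : ℕ) : Prog :=
  forP 60 0 (.seq (.op (.load 61 r1 i1 60 3)) (.op (.store r2 i2 60 3 61)))

/-- Row `v i3` of array `r3` becomes the composition of two rows (first row `v i1` of `r1`, then
row `v i2` of `r2`). -/
def cmpL (r1 i1 r2 i2 r3 i3 : ℕ) : Prog :=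
  forP 60 0 (.seq (.op (.load 61 r1 i1 60 3)) (.seq (.op (.load 61 r2 i2 61 3))
    (.op (.store r3 i3 60 3 61))))

/-- Row `v i2` of array `r2` becomes the inverse of row `v i1` of array `r1`. -/
def invL (r1 i1 r2 i2 : ℕ) : Prog :=
  forP 60 0 (.seq (.op (.load 61 r1 i1 60 3)) (.op (.store r2 i2 61 3 60)))

/-- Row `v i` of array `r` becomes the identity. -/
def idL (r i : ℕ) : Prog := forP 60 0 (.op (.store r i 60 3 60))

/-- Row `v i` of array `r` becomes zero. -/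
def zeroL (r i : ℕ) : Prog := forP 60 0 (.op (.store r i 60 3 3))

theorem zeroL_spec {M : Mem} {m : ℕ} (r i : ℕ) (hm : M.v 0 = m) (hz : M.v 3 = 0) (hi : i < 60) :
    Ex (zeroL r i) M (m * 4 + 3) (fun M' => M'.a = (M.setRow r (M.v i) m (fun _ => 0)).a) := by
  refine Ex.rowLoop r (M.v i) (fun _ => 0) hm rfl rfl rfl ?_
  intro j _ M1 hf hv _
  refine Ex.op ?_
  have h1 : M1.v i = M.v i := hf.v i (by
    simp [forP, Prog.wv, Op.wv]; omega)
  have h3 : M1.v 3 = 0 := (hf.v 3 rfl).trans hz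
  simp only [Op.exec, h1, h3, hv]

theorem idL_spec {M : Mem} {m : ℕ} (r i : ℕ) (hm : M.v 0 = m) (hz : M.v 3 = 0) (hi : i < 60) :
    Ex (idL r i) M (m * 4 + 3) (fun M' => M'.a = (M.setRow r (M.v i) m (fun j => j)).a) := by
  refine Ex.rowLoop r (M.v i) (fun j => j) hm rfl rfl rfl ?_
  intro j _ M1 hf hv _
  refine Ex.op ?_
  have h1 : M1.v i = M.v i := hf.v i (by
    simp [forP, Prog.wv, Op.wv]; omega)
  have h3 : M1.v 3 = 0 := (hf.v 3 rfl).trans hz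
  simp only [Op.exec, h1, h3, hv]

theorem cpyL_spec {M : Mem} {m : ℕ} (r1 i1 r2 i2 : ℕ) (hm : M.v 0 = m) (hz : M.v 3 = 0)
    (hi1 : i1 < 60) (hi2 : i2 < 60) (hne : r1 ≠ r2 ∨ M.v i1 ≠ M.v i2) :
    Ex (cpyL r1 i1 r2 i2) M (m * 6 + 3)
      (fun M' => M'.a = (M.setRow r2 (M.v i2) m (row (M.a r1) (M.v i1))).a) := by
  refine Ex.rowLoop (T := 3) r2 (M.v i2) (row (M.a r1) (M.v i1)) hm rfl rfl rfl ?_
  intro j _ M1 hf hv ha
  have h1 : M1.v i1 = M.v i1 := hf.v i1 (by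
    simp [forP, Prog.wv, Op.wv]; omega)
  have h2 : M1.v i2 = M.v i2 := hf.v i2 (by
    simp [forP, Prog.wv, Op.wv]; omega)
  have h3 : M1.v 3 = 0 := (hf.v 3 rfl).trans hz
  refine Ex.opSeq (Ex.op ?_)
  simp only [Op.exec, setV_v, h1, h2, h3, hv, if_true]
  have e2 : (if i2 = 61 then M1.a r1 (M.v i1) j 0 else M1.v i2) = M.v i2 := by
    rw [if_neg (by omega), h2]
  have e3 : M1.a r1 (M.v i1) j 0 = row (M.a r1) (M.v i1) j := by
    unfold row
    rw [ha, setRow_a, if_neg]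
    rintro ⟨h4, h5, -⟩
    rcases hne with h6 | h6
    · exact h6 h4
    · exact h6 h5
  simp only [if_neg (show ¬ (i2 = 61) by omega), if_neg (show ¬ (60 = 61) by omega),
    if_neg (show ¬ (3 = 61) by omega), h2, h3, hv, e3]
  funext r' i' j' l'
  rfl

theorem cmpL_spec {M : Mem} {m : ℕ} (r1 i1 r2 i2 r3 i3 : ℕ) (hm : M.v 0 = m) (hz : M.v 3 = 0)
    (hi1 : i1 < 60) (hi2 : i2 < 60) (hi3 : i3 < 60) (hne : r2 ≠ r3 ∨ M.v i2 ≠ M.v i3) :
    Ex (cmpL r1 i1 r2 i2 r3 i3) M (m * 8 + 3)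
      (fun M' => M'.a = (M.setRow r3 (M.v i3) m
        (fun j => row (M.a r2) (M.v i2) (row (M.a r1) (M.v i1) j))).a) := by
  refine Ex.rowLoop (T := 5) r3 (M.v i3) _ hm rfl rfl rfl ?_
  intro j _ M1 hf hv ha
  have h1 : M1.v i1 = M.v i1 := hf.v i1 (by
    simp [forP, Prog.wv, Op.wv]; omega)
  have h2 : M1.v i2 = M.v i2 := hf.v i2 (by
    simp [forP, Prog.wv, Op.wv]; omega)
  have h2' : M1.v i3 = M.v i3 := hf.v i3 (by
    simp [forP, Prog.wv, Op.wv]; omega)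
  have h3 : M1.v 3 = 0 := (hf.v 3 rfl).trans hz
  have e1 : M1.a r1 (M.v i1) j 0 = row (M.a r1) (M.v i1) j := by
    unfold row
    rw [ha, setRow_a, if_neg]
    rintro ⟨-, -, h5, -⟩
    exact lt_irrefl _ h5
  have e2 : ∀ y, M1.a r2 (M.v i2) y 0 = row (M.a r2) (M.v i2) y := by
    intro y
    unfold row
    rw [ha, setRow_a, if_neg]
    rintro ⟨h4, h5, -⟩
    rcases hne with h6 | h6
    · exact h6 h4
    · exact h6 h5
  refine Ex.opSeq (Ex.opSeq (Ex.op ?_))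
  simp only [Op.exec, setV_v, setV_a, h1, h2, h3, hv, if_true, if_neg (show ¬ (i2 = 61) by omega),
    if_neg (show ¬ (60 = 61) by omega), if_neg (show ¬ (i3 = 61) by omega),
    if_neg (show ¬ (3 = 61) by omega), h2', e1, e2]
  funext r' i' j' l'
  rfl

theorem invL_spec {M : Mem} {m : ℕ} (r1 i1 r2 i2 : ℕ) (hm : M.v 0 = m) (hz : M.v 3 = 0)
    (hi1 : i1 < 60) (hi2 : i2 < 60) (hne : r1 ≠ r2 ∨ M.v i1 ≠ M.v i2) (g : ℕ → ℕ)
    (hg : ∀ x < m, g x < m) (hg1 : ∀ x < m, row (M.a r1) (M.v i1) (g x) = x)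
    (hg2 : ∀ x < m, g (row (M.a r1) (M.v i1) x) = x)
    (hf1 : ∀ x < m, row (M.a r1) (M.v i1) x < m) :
    Ex (invL r1 i1 r2 i2) M (m * 6 + 3) (fun M' => M'.a = (M.setRow r2 (M.v i2) m g).a) := by
  refine Ex.forP (T := 3) (fun j M1 => ∀ r' i' j' l', M1.a r' i' j' l' =
      if r' = r2 ∧ i' = M.v i2 ∧ (j' < m ∧ g j' < j) ∧ l' = 0 then g j' else M.a r' i' j' l')
    hm rfl rfl rfl ?_ ?_ ?_
  · intro r' i' j' l'
    rw [if_neg (fun h => Nat.not_lt_zero _ h.2.2.1.2)]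
    rfl
  · intro j hj M1 hf hv ha
    have h1 : M1.v i1 = M.v i1 := hf.v i1 (by
      simp [forP, Prog.wv, Op.wv]; omega)
    have h2 : M1.v i2 = M.v i2 := hf.v i2 (by
      simp [forP, Prog.wv, Op.wv]; omega)
    have h3 : M1.v 3 = 0 := (hf.v 3 rfl).trans hz
    have e1 : M1.a r1 (M.v i1) j 0 = row (M.a r1) (M.v i1) j := by
      unfold row
      rw [ha, if_neg]
      rintro ⟨h4, h5, -⟩
      rcases hne with h6 | h6
      · exact h6 h4
      · exact h6 h5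
    refine Ex.opSeq (Ex.op ?_)
    simp only [Op.exec, setV_v, setV_a, h1, h2, h3, hv, if_true, if_neg (show ¬ (i2 = 61) by omega),
      if_neg (show ¬ (60 = 61) by omega), if_neg (show ¬ (3 = 61) by omega), e1]
    intro r' i' j' l'
    rw [setA_a]
    by_cases h4 : r' = r2 ∧ i' = M.v i2 ∧ j' = row (M.a r1) (M.v i1) j ∧ l' = 0
    · have h5 : g j' = j := by rw [h4.2.2.1]; exact hg2 j hj
      rw [if_pos h4, if_pos ⟨h4.1, h4.2.1, ⟨by rw [h4.2.2.1]; exact hf1 j hj, by omega⟩, h4.2.2.2⟩,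
        h5]
    · rw [if_neg h4]
      rw [setV_a, ha]
      by_cases h5 : r' = r2 ∧ i' = M.v i2 ∧ (j' < m ∧ g j' < j) ∧ l' = 0
      · rw [if_pos h5, if_pos ⟨h5.1, h5.2.1, ⟨h5.2.2.1.1, by omega⟩, h5.2.2.2⟩]
      · rw [if_neg h5, if_neg]
        rintro ⟨h6, h7, ⟨h8, h9⟩, h10⟩
        rcases Nat.lt_succ_iff_lt_or_eq.1 h9 with h11 | h11
        · exact h5 ⟨h6, h7, ⟨h8, h11⟩, h10⟩
        · refine h4 ⟨h6, h7, ?_, h10⟩
          rw [← h11]
          exact (hg1 j' h8).symm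
  · intro M' _ _ h
    funext r' i' j' l'
    rw [h, setRow_a]
    by_cases h4 : r' = r2 ∧ i' = M.v i2 ∧ j' < m ∧ l' = 0
    · rw [if_pos h4, if_pos ⟨h4.1, h4.2.1, ⟨h4.2.2.1, hg _ h4.2.2.1⟩, h4.2.2.2⟩]
    · rw [if_neg h4, if_neg]
      rintro ⟨h6, h7, ⟨h8, h9⟩, h10⟩
      exact h4 ⟨h6, h7, h8, h10⟩

/-! ## Rows containing permutations -/

/-- A permutation as a function on the natural numbers. -/
def fn {m : ℕ} (g : Perm (Fin m)) (j : ℕ) : ℕ := if h : j < m then (g ⟨j, h⟩ : ℕ) else 0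

/-- The row `f` contains the permutation `g`. -/
def RP {m : ℕ} (f : ℕ → ℕ) (g : Perm (Fin m)) : Prop := ∀ x : Fin m, f x = g x

theorem fn_lt {m : ℕ} (g : Perm (Fin m)) {j : ℕ} (h : j < m) : fn g j < m := by
  unfold fn; rw [dif_pos h]; exact (g ⟨j, h⟩).2

theorem fn_val {m : ℕ} (g : Perm (Fin m)) (x : Fin m) : fn g x = g x := by
  unfold fn; rw [dif_pos x.2]

theorem fn_mul {m : ℕ} (g h : Perm (Fin m)) {j : ℕ} (hj : j < m) :
    fn g (fn h j) = fn (g * h) j := by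
  have := fn_val h ⟨j, hj⟩
  simp only at this
  rw [this, fn_val]
  have := fn_val (g * h) ⟨j, hj⟩
  simp only at this
  rw [this]
  rfl

theorem RP.lt {m : ℕ} {f : ℕ → ℕ} {g : Perm (Fin m)} (h : RP f g) {j : ℕ} (hj : j < m) :
    f j = fn g j := by
  have := h ⟨j, hj⟩
  simp only at this
  rw [this, ← fn_val]

theorem RP.unique {m : ℕ} {f : ℕ → ℕ} {g h : Perm (Fin m)} (h1 : RP f g) (h2 : RP f h) : g = h := by
  ext x
  rw [← h1 x, ← h2 x]

theorem RP.congr {m : ℕ} {f f' : ℕ → ℕ} {g : Perm (Fin m)} (h : RP f g) (hf : ∀ j < m, f' j = f j) :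
    RP f' g := fun x => (hf x x.2).trans (h x)

theorem RP_setRow {m : ℕ} (M : Mem) (r i : ℕ) (f : ℕ → ℕ) (g : Perm (Fin m)) (h : RP f g) :
    RP (row ((M.setRow r i m f).a r) i) g := h.congr (fun j hj => row_setRow M r i m f j hj)

theorem RP_fn {m : ℕ} (g : Perm (Fin m)) : RP (fn g) g := fun x => fn_val g x

theorem RP_id {m : ℕ} : RP (fun j => j) (1 : Perm (Fin m)) := fun x => rfl

theorem RP.comp {m : ℕ} {f1 f2 : ℕ → ℕ} {g1 g2 : Perm (Fin m)} (h1 : RP f1 g1) (h2 : RP f2 g2) :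
    RP (fun j => f2 (f1 j)) (g2 * g1) := by
  intro x
  simp only
  rw [h1 x, h2 (g1 x)]
  rfl

/-- Inverting a row that contains a permutation. -/
theorem invL_spec' {M : Mem} {m : ℕ} (r1 i1 r2 i2 : ℕ) (hm : M.v 0 = m) (hz : M.v 3 = 0)
    (hi1 : i1 < 60) (hi2 : i2 < 60) (hne : r1 ≠ r2 ∨ M.v i1 ≠ M.v i2) (g : Perm (Fin m))
    (hg : RP (row (M.a r1) (M.v i1)) g) :
    Ex (invL r1 i1 r2 i2) M (m * 6 + 3)
      (fun M' => M'.a = (M.setRow r2 (M.v i2) m (fn g⁻¹)).a) := by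
  refine invL_spec r1 i1 r2 i2 hm hz hi1 hi2 hne (fn g⁻¹) (fun x hx => fn_lt _ hx)
    (fun x hx => ?_) (fun x hx => ?_) (fun x hx => ?_)
  · rw [hg.lt (fn_lt _ hx), fn_mul _ _ hx, mul_inv_cancel]
    exact fn_val 1 ⟨x, hx⟩
  · rw [hg.lt hx, fn_mul _ _ hx, inv_mul_cancel]
    exact fn_val 1 ⟨x, hx⟩
  · rw [hg.lt hx]
    exact fn_lt _ hx

end Pool.Agent.W984.OL
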