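import Pool.Agent.W984.OL.Canon

set_option autoImplicit false
set_option linter.unusedSimpArgs false
set_option linter.unusedVariables false

/-! Inserting the Schreier generators of a point stabiliser. -/

namespace Pool.Agent.W984.OL

open Equiv

/-- Insert one Schreier generator. -/
def schBody : Prog :=
  .seq (.op (.load 43 2 6 41 42))
    (.seq (.op (.load 44 5 43 40 3))
      (.seq (invL 7 44 11 3)
        (.seq (cmpL 7 40 5 43 12 3)
          (.seq (cmpL 12 3 11 3 10 3) insertP))))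

/-- The Schreier generators for one point of the orbit. -/
def schPoint : Prog :=
  .seq (.op (.load 47 6 3 40 3)) (.ite (.eq 47 3) .skip (forP 41 0 (forP 42 0 schBody)))

/-- All Schreier generators. -/
def schreierP : Prog := forP 40 0 schPoint

/-- The table `b` has grown by some permutations of `X` (a group). -/
structure Grow (m b : ℕ) (X : Subgroup (Perm (Fin m))) (M M' : Mem) : Prop where
  pool : PoolOK m (M'.a 5) (M'.v 5)
  np : M.v 5 ≤ M'.v 5
  ext : Extends (M.a 5) (M'.a 5) (M.v 5)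
  other : ∀ b', b' ≠ b → M'.a 2 b' = M.a 2 b'
  tab : TabOK m (M'.a 5) (M'.a 2 b) (M'.v 5)
  le : gens m (M.a 5) (M.a 2 b) ≤ gens m (M'.a 5) (M'.a 2 b)
  sub : gens m (M'.a 5) (M'.a 2 b) ≤ gens m (M.a 5) (M.a 2 b) ⊔ X

theorem Grow.refl {m b : ℕ} {X : Subgroup (Perm (Fin m))} {M : Mem}
    (h1 : PoolOK m (M.a 5) (M.v 5)) (h2 : TabOK m (M.a 5) (M.a 2 b) (M.v 5)) :
    Grow m b X M M :=
  ⟨h1, le_rfl, Extends.refl _ _, fun _ _ => rfl, h2, le_rfl, le_sup_left⟩

theorem Grow.trans {m b : ℕ} {X : Subgroup (Perm (Fin m))} {M M' M'' : Mem}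
    (h : Grow m b X M M') (h' : Grow m b X M' M'') : Grow m b X M M'' :=
  ⟨h'.pool, h.np.trans h'.np, h.ext.trans h'.ext h.np,
    fun b' hb => (h'.other b' hb).trans (h.other b' hb), h'.tab, h.le.trans h'.le,
    h'.sub.trans (sup_le h.sub le_sup_right)⟩

/-- Changing registers and arrays that do not matter. -/
theorem Grow.congr {m b : ℕ} {X : Subgroup (Perm (Fin m))} {M M' N N' : Mem}
    (h : Grow m b X M M') (h1 : N.a 5 = M.a 5) (h2 : N.a 2 = M.a 2) (h3 : N.v 5 = M.v 5)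
    (h1' : N'.a 5 = M'.a 5) (h2' : N'.a 2 = M'.a 2) (h3' : N'.v 5 = M'.v 5) :
    Grow m b X N N' := by
  obtain ⟨a1, a2, a3, a4, a5, a6, a7⟩ := h
  constructor
  · rw [h1', h3']; exact a1
  · rw [h3, h3']; exact a2
  · rw [h1, h1', h3]; exact a3
  · rw [h2, h2']; exact a4
  · rw [h1', h2', h3']; exact a5
  · rw [h1, h2, h1', h2']; exact a6
  · rw [h1, h2, h1', h2']; exact a7

/-- Time bound of `insertP`. -/
def tIns (m : ℕ) : ℕ := m * (14 * m + 20) + 5

theorem insertP_grow {m : ℕ} {M : Mem} {g : Perm (Fin m)} (X : Subgroup (Perm (Fin m)))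
    (hX : g ∈ X) (hm : M.v 0 = m) (hz : M.v 3 = 0)
    (hP : PoolOK m (M.a 5) (M.v 5)) (hT : TabOK m (M.a 5) (M.a 2 (M.v 10)) (M.v 5))
    (hg : RP (row (M.a 10) 0) g) :
    Ex insertP M (tIns m) (fun M' => Grow m (M.v 10) X M M' ∧
      g ∈ gens m (M'.a 5) (M'.a 2 (M.v 10))) := by
  refine (insertP_spec hm hz hP hT hg).post ?_
  intro M' _ hQ
  obtain ⟨h1, h2, h3, h4, h5, h6⟩ := hQ
  refine ⟨⟨h1, h2, h3, h4, h5, ?_, ?_⟩, ?_⟩
  · rw [h6]; exact le_sup_left
  · rw [h6]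
    apply sup_le le_sup_left
    rw [Subgroup.closure_le, Set.singleton_subset_iff]
    exact Subgroup.mem_sup_right hX
  · rw [h6]
    exact Subgroup.mem_sup_right (Subgroup.subset_closure rfl)

theorem schBody_spec {m : ℕ} {M : Mem} (X : Subgroup (Perm (Fin m))) {np : ℕ} (hm : M.v 0 = m)
    (hz : M.v 3 = 0) (hP : PoolOK m (M.a 5) (M.v 5))
    (hT : TabOK m (M.a 5) (M.a 2 (M.v 10)) (M.v 5)) (v : Fin m) (hv : M.v 40 = v)
    (s t t' : Perm (Fin m)) (hp : M.a 2 (M.v 6) (M.v 41) (M.v 42) < M.v 5)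
    (hs : pm m (row (M.a 5) (M.a 2 (M.v 6) (M.v 41) (M.v 42))) = s)
    (ht : RP (row (M.a 7) v) t) (ht' : RP (row (M.a 7) (s v)) t') (hX : t'⁻¹ * s * t ∈ X) :
    Ex schBody M (tIns m + 22 * m + 20) (fun M' => Grow m (M.v 10) X M M' ∧
      t'⁻¹ * s * t ∈ gens m (M'.a 5) (M'.a 2 (M.v 10))) := by
  set p := M.a 2 (M.v 6) (M.v 41) (M.v 42) with hpdef
  have hrow : RP (row (M.a 5) p) s := by rw [← hs]; exact (hP.vp p hp).rp
  unfold schBody
  refine (Ex.opSeq (T2 := tIns m + 22 * m + 16) (Ex.opSeq (T2 := tIns m + 22 * m + 14) ?_)).le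
    (by omega)
  have e1 : Op.exec M (.load 43 2 6 41 42) = M.setV 43 p := rfl
  have e2 : Op.exec (M.setV 43 p) (.load 44 5 43 40 3) = (M.setV 43 p).setV 44 (s v) := by
    have : M.a 5 p v 0 = s v := hrow v
    simp only [Op.exec, setV_v, setV_a, if_neg (show ¬ (40 = 43) by decide),
      if_neg (show ¬ (3 = 43) by decide), if_true, hz, hv, this]
  rw [e1, e2]
  set M1 := (M.setV 43 p).setV 44 (s v : ℕ) with hM1
  have v1 : ∀ x, x ≠ 43 → x ≠ 44 → M1.v x = M.v x := by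
    intro x hx hx'
    rw [hM1]
    simp [hx, hx']
  have v143 : M1.v 43 = p := by rw [hM1]; simp
  have v144 : M1.v 44 = s v := by rw [hM1]; simp
  have a1 : M1.a = M.a := rfl
  have v10 : M1.v 0 = m := (v1 0 (by decide) (by decide)).trans hm
  have v13 : M1.v 3 = 0 := (v1 3 (by decide) (by decide)).trans hz
  refine (Ex.bind (T2 := tIns m + 16 * m + 8) (invL_spec' (M := M1) (m := m) 7 44 11 3 v10 v13
    (by decide) (by decide) (Or.inl (by decide)) t' (by rw [v144, a1]; exact ht')) ?_).le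
    (by omega)
  intro M2 hf2 ha2
  rw [v13] at ha2
  have v2 : ∀ x, x ≠ 43 → x ≠ 44 → x < 60 → M2.v x = M.v x := by
    intro x hx hx' hx''
    rw [hf2.v x (by simp [invL, forP, Prog.wv, Op.wv]; omega), v1 x hx hx']
  have v243 : M2.v 43 = p := (hf2.v 43 rfl).trans v143
  have a2 : ∀ r, r ≠ 11 → M2.a r = M.a r := by
    intro r hr
    rw [ha2, setRow_a_ne _ _ _ _ _ _ hr, a1]
  have hinv : RP (row (M2.a 11) 0) t'⁻¹ := by
    rw [ha2]
    exact RP_setRow _ _ _ _ _ (RP_fn _)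
  have v20 : M2.v 0 = m := (v2 0 (by decide) (by decide) (by decide)).trans hm
  have v23 : M2.v 3 = 0 := (v2 3 (by decide) (by decide) (by decide)).trans hz
  have v240 : M2.v 40 = v := (v2 40 (by decide) (by decide) (by decide)).trans hv
  refine (Ex.bind (T2 := tIns m + 8 * m + 4) (cmpL_spec (M := M2) (m := m) 7 40 5 43 12 3 v20 v23
    (by decide) (by decide) (by decide) (Or.inl (by decide))) ?_).le (by omega)
  intro M3 hf3 ha3
  rw [v23, v240, v243, a2 7 (by decide), a2 5 (by decide)] at ha3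
  have v3 : ∀ x, x ≠ 43 → x ≠ 44 → x < 60 → M3.v x = M.v x := by
    intro x hx hx' hx''
    rw [hf3.v x (by simp [cmpL, forP, Prog.wv, Op.wv]; omega), v2 x hx hx' hx'']
  have a3 : ∀ r, r ≠ 11 → r ≠ 12 → M3.a r = M.a r := by
    intro r hr hr'
    rw [ha3, setRow_a_ne _ _ _ _ _ _ hr', a2 r hr]
  have htmp : RP (row (M3.a 12) 0) (s * t) := by
    rw [ha3]
    exact RP_setRow _ _ _ _ _ (RP.comp ht hrow)
  have hinv3 : RP (row (M3.a 11) 0) t'⁻¹ := by
    rw [ha3, setRow_a_ne _ _ _ _ _ _ (by decide)]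
    exact hinv
  have v30 : M3.v 0 = m := (v3 0 (by decide) (by decide) (by decide)).trans hm
  have v33 : M3.v 3 = 0 := (v3 3 (by decide) (by decide) (by decide)).trans hz
  refine (Ex.bind (T2 := tIns m) (cmpL_spec (M := M3) (m := m) 12 3 11 3 10 3 v30 v33
    (by decide) (by decide) (by decide) (Or.inl (by decide))) ?_).le (by omega)
  intro M4 hf4 ha4
  rw [v33] at ha4
  have v4 : ∀ x, x ≠ 43 → x ≠ 44 → x < 60 → M4.v x = M.v x := by
    intro x hx hx' hx''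
    rw [hf4.v x (by simp [cmpL, forP, Prog.wv, Op.wv]; omega), v3 x hx hx' hx'']
  have a4 : ∀ r, r ≠ 10 → r ≠ 11 → r ≠ 12 → M4.a r = M.a r := by
    intro r hr hr' hr''
    rw [ha4, setRow_a_ne _ _ _ _ _ _ hr, a3 r hr' hr'']
  have hx1 : RP (row (M4.a 10) 0) (t'⁻¹ * s * t) := by
    rw [ha4, mul_assoc]
    exact RP_setRow _ _ _ _ _ (RP.comp htmp hinv3)
  have e5 : M4.a 5 = M.a 5 := a4 5 (by decide) (by decide) (by decide)
  have e2' : M4.a 2 = M.a 2 := a4 2 (by decide) (by decide) (by decide)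
  have e55 : M4.v 5 = M.v 5 := v4 5 (by decide) (by decide) (by decide)
  have e10 : M4.v 10 = M.v 10 := v4 10 (by decide) (by decide) (by decide)
  have := insertP_grow (M := M4) X hX ((v4 0 (by decide) (by decide) (by decide)).trans hm)
    ((v4 3 (by decide) (by decide) (by decide)).trans hz) (by rw [e5, e55]; exact hP)
    (by rw [e5, e2', e55, e10]; exact hT) hx1
  rw [e10] at this
  refine this.post ?_
  intro M5 hf5 hQ
  exact ⟨hQ.1.congr e5.symm e2'.symm e55.symm rfl rfl rfl, hQ.2⟩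

/-- Time bound for the Schreier generators of one point. -/
def tSchP (m : ℕ) : ℕ := m * (m * (tIns m + 22 * m + 23) + 6) + 8

/-- Time bound for all Schreier generators. -/
def tSch (m : ℕ) : ℕ := m * (tSchP m + 3) + 3

/-- The conditions under which the Schreier generators are inserted. -/
structure SchC (m : ℕ) (X : Subgroup (Perm (Fin m))) (a np : ℕ) (M : Mem) : Prop where
  hm : M.v 0 = m
  hz : M.v 3 = 0
  cur : M.v 6 = a
  ne : M.v 10 ≠ a
  tlt : ∀ i < m, ∀ j < m, M.a 2 a i j < M.v 5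
  pool : PoolOK m (M.a 5) (M.v 5)
  tab : TabOK m (M.a 5) (M.a 2 (M.v 10)) (M.v 5)
  tr : ∀ v : Fin m, M.a 6 0 v 0 ≠ 0 → VP m (row (M.a 7) v)
  cl : ∀ v : Fin m, M.a 6 0 v 0 ≠ 0 → ∀ s ∈ gset m (M.a 5) (M.a 2 a), M.a 6 0 (s v) 0 ≠ 0
  mem : ∀ v : Fin m, M.a 6 0 v 0 ≠ 0 → ∀ s ∈ gset m (M.a 5) (M.a 2 a),
    (pm m (row (M.a 7) (s v)))⁻¹ * s * pm m (row (M.a 7) v) ∈ X

theorem SchC.grow {m : ℕ} {X : Subgroup (Perm (Fin m))} {a np : ℕ} {M M' : Mem}
    (h : SchC m X a np M) (g : Grow m (M.v 10) X M M') (h0 : M'.v 0 = M.v 0)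
    (h3 : M'.v 3 = M.v 3) (h6 : M'.v 6 = M.v 6) (h10 : M'.v 10 = M.v 10)
    (a6 : M'.a 6 = M.a 6) (a7 : M'.a 7 = M.a 7) :
    SchC m X a np M' ∧ gset m (M'.a 5) (M'.a 2 a) = gset m (M.a 5) (M.a 2 a) := by
  have e2 : M'.a 2 a = M.a 2 a := g.other a (Ne.symm h.ne)
  have eg : gset m (M'.a 5) (M'.a 2 a) = gset m (M.a 5) (M.a 2 a) := by
    rw [e2]
    unfold gset
    ext x
    constructor
    · rintro ⟨i, hi, j, hj, rfl⟩
      exact ⟨i, hi, j, hj, by rw [g.ext.row (h.tlt i hi j hj)]⟩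
    · rintro ⟨i, hi, j, hj, rfl⟩
      exact ⟨i, hi, j, hj, by rw [g.ext.row (h.tlt i hi j hj)]⟩
  refine ⟨⟨h0.trans h.hm, h3.trans h.hz, h6.trans h.cur, by rw [h10]; exact h.ne, ?_, g.pool,
    by rw [h10]; exact g.tab, ?_, ?_, ?_⟩, eg⟩
  · intro i hi j hj
    rw [e2]
    exact (h.tlt i hi j hj).trans_le g.np
  · rw [a6, a7]; exact h.tr
  · rw [eg, a6]; exact h.cl
  · rw [eg, a6, a7]; exact h.mem

theorem schPoint_spec {m : ℕ} {M : Mem} {X : Subgroup (Perm (Fin m))} {a np : ℕ}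
    (h : SchC m X a np M) (v : Fin m) (hv : M.v 40 = v) :
    Ex schPoint M (tSchP m) (fun M' => Grow m (M.v 10) X M M' ∧
      (M.a 6 0 v 0 ≠ 0 → ∀ s ∈ gset m (M.a 5) (M.a 2 a),
        (pm m (row (M.a 7) (s v)))⁻¹ * s * pm m (row (M.a 7) v) ∈
          gens m (M'.a 5) (M'.a 2 (M.v 10)))) := by
  unfold schPoint tSchP
  refine (Ex.opSeq (T2 := m * (m * (tIns m + 22 * m + 23) + 6) + 6) ?_)
  have e : Op.exec M (.load 47 6 3 40 3) = M.setV 47 (M.a 6 0 v 0) := by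
    simp only [Op.exec, h.hz, hv]
  rw [e]
  set M0 := M.setV 47 (M.a 6 0 v 0) with hM0
  have v0 : ∀ x, x ≠ 47 → M0.v x = M.v x := by
    intro x hx; rw [hM0]; simp [hx]
  refine (Ex.iteEq (T := m * (m * (tIns m + 22 * m + 23) + 6) + 5) ?_ ?_)
  · intro h1
    have h1' : M.a 6 0 v 0 = 0 := by simpa [hM0, h.hz] using h1
    refine (Ex.skip ?_).le (by omega)
    exact ⟨(Grow.refl h.pool h.tab).congr rfl rfl rfl rfl rfl rfl, fun h2 => absurd h1' h2⟩
  · intro h1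
    have h1' : M.a 6 0 v 0 ≠ 0 := by simpa [hM0, h.hz] using h1
    refine (Ex.forP (T := m * (tIns m + 22 * m + 23) + 3) (fun i M1 => Grow m (M.v 10) X M M1 ∧
      ∀ i' < i, ∀ j < m, (pm m (row (M.a 7) (pm m (row (M.a 5) (M.a 2 a i' j)) v)))⁻¹ *
        pm m (row (M.a 5) (M.a 2 a i' j)) * pm m (row (M.a 7) v) ∈
          gens m (M1.a 5) (M1.a 2 (M.v 10))) ((v0 0 (by decide)).trans h.hm) rfl rfl rfl
      ?_ ?_ ?_).le (by simp only [Nat.add_assoc, Nat.reduceAdd]; omega)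
    · exact ⟨(Grow.refl h.pool h.tab).congr rfl rfl rfl rfl rfl rfl,
        fun i' hi' => absurd hi' (Nat.not_lt_zero _)⟩
    · intro i hi M1 hf1 hv1 hI
      obtain ⟨g1, d1⟩ := hI
      have w1 : ∀ x, (forP 41 0 (forP 42 0 schBody)).wv x = false → x ≠ 47 → M1.v x = M.v x := by
        intro x hx hx'
        rw [hf1.v x hx, v0 x hx']
      have a61 : M1.a 6 = M.a 6 := hf1.a 6 rfl
      have a71 : M1.a 7 = M.a 7 := hf1.a 7 rfl
      refine (Ex.forP (T := tIns m + 22 * m + 20) (fun j M2 => Grow m (M.v 10) X M M2 ∧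
        (∀ i' < i, ∀ j < m, (pm m (row (M.a 7) (pm m (row (M.a 5) (M.a 2 a i' j)) v)))⁻¹ *
        pm m (row (M.a 5) (M.a 2 a i' j)) * pm m (row (M.a 7) v) ∈
          gens m (M2.a 5) (M2.a 2 (M.v 10))) ∧
        (∀ j' < j, (pm m (row (M.a 7) (pm m (row (M.a 5) (M.a 2 a i j')) v)))⁻¹ *
        pm m (row (M.a 5) (M.a 2 a i j')) * pm m (row (M.a 7) v) ∈
          gens m (M2.a 5) (M2.a 2 (M.v 10)))) ((w1 0 rfl (by decide)).trans h.hm) rfl rfl rfl
        ?_ ?_ ?_).le (by simp only [Nat.add_assoc, Nat.reduceAdd]; omega)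
      · exact ⟨g1.congr rfl rfl rfl rfl rfl rfl, d1, fun j' hj' => absurd hj' (Nat.not_lt_zero _)⟩
      · intro j hj M2 hf2 hv2 hI2
        obtain ⟨g2, d2, d2'⟩ := hI2
        have w2 : ∀ x, (forP 41 0 (forP 42 0 schBody)).wv x = false → x ≠ 47 →
            (forP 42 0 schBody).wv x = false → M2.v x = M.v x := by
          intro x hx hx' hx''
          rw [hf2.v x hx'', w1 x hx hx']
        have a62 : M2.a 6 = M.a 6 := (hf2.a 6 rfl).trans a61
        have a72 : M2.a 7 = M.a 7 := (hf2.a 7 rfl).trans a71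
        obtain ⟨hC, heg⟩ := h.grow (np := np) g2 (w2 0 rfl (by decide) rfl) (w2 3 rfl (by decide) rfl)
          (w2 6 rfl (by decide) rfl) (w2 10 rfl (by decide) rfl) a62 a72
        have v10 : M2.v 10 = M.v 10 := w2 10 rfl (by decide) rfl
        have v41 : M2.v 41 = i := (hf2.v 41 rfl).trans hv1
        have v40 : M2.v 40 = v := (w2 40 rfl (by decide) rfl).trans hv
        have e2 : M2.a 2 a = M.a 2 a := g2.other a (Ne.symm h.ne)
        have hlt := h.tlt i hi j hj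
        have hpm : pm m (row (M2.a 5) (M2.a 2 (M2.v 6) (M2.v 41) (M2.v 42))) =
            pm m (row (M.a 5) (M.a 2 a i j)) := by
          rw [hC.cur, v41, hv2, e2, g2.ext.row hlt]
        have hsm : pm m (row (M.a 5) (M.a 2 a i j)) ∈ gset m (M.a 5) (M.a 2 a) := mem_gset hi hj
        have hb := schBody_spec (M := M2) (m := m) (np := np) X hC.hm hC.hz hC.pool hC.tab v v40
          (pm m (row (M.a 5) (M.a 2 a i j))) (pm m (row (M.a 7) v))
          (pm m (row (M.a 7) (pm m (row (M.a 5) (M.a 2 a i j)) v)))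
          (by rw [hC.cur, v41, hv2]; exact hC.tlt i hi j hj) hpm
          (by rw [a72]; exact (h.tr v h1').rp)
          (by rw [a72]; exact (h.tr _ (h.cl v h1' _ hsm)).rp)
          (h.mem v h1' _ hsm)
        rw [v10] at hb
        refine hb.post ?_
        intro M3 hf3 hQ
        obtain ⟨g3, d3⟩ := hQ
        have hle := g3.le
        refine ⟨(g2.trans g3).congr rfl rfl rfl rfl rfl rfl, ?_, ?_⟩
        · intro i' hi' j' hj'
          exact hle (d2 i' hi' j' hj')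
        · intro j' hj'
          rcases Nat.lt_succ_iff_lt_or_eq.1 hj' with h2 | h2
          · exact hle (d2' j' h2)
          · rw [h2]; exact d3
      · intro M3 hf3 _ hI3
        obtain ⟨g3, d3, d3'⟩ := hI3
        refine ⟨g3.congr rfl rfl rfl rfl rfl rfl, ?_⟩
        intro i' hi' j hj
        rcases Nat.lt_succ_iff_lt_or_eq.1 hi' with h2 | h2
        · exact d3 i' h2 j hj
        · rw [h2]; exact d3' j hj
    · intro M3 hf3 _ hI3
      obtain ⟨g3, d3⟩ := hI3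
      refine ⟨g3, fun _ => ?_⟩
      rintro _ ⟨i, hi, j, hj, rfl⟩
      exact d3 i hi j hj

theorem schreierP_spec {m : ℕ} {M : Mem} {X : Subgroup (Perm (Fin m))} {a np : ℕ}
    (h : SchC m X a np M) :
    Ex schreierP M (tSch m) (fun M' => Grow m (M.v 10) X M M' ∧
      (∀ v : Fin m, M.a 6 0 v 0 ≠ 0 → ∀ s ∈ gset m (M.a 5) (M.a 2 a),
        (pm m (row (M.a 7) (s v)))⁻¹ * s * pm m (row (M.a 7) v) ∈
          gens m (M'.a 5) (M'.a 2 (M.v 10)))) := by
  unfold schreierP tSch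
  refine (Ex.forP (T := tSchP m) (fun v M1 => Grow m (M.v 10) X M M1 ∧
      (∀ v' : Fin m, (v' : ℕ) < v → M.a 6 0 v' 0 ≠ 0 → ∀ s ∈ gset m (M.a 5) (M.a 2 a),
        (pm m (row (M.a 7) (s v')))⁻¹ * s * pm m (row (M.a 7) v') ∈
          gens m (M1.a 5) (M1.a 2 (M.v 10)))) h.hm rfl rfl rfl
      ?_ ?_ ?_)
  · exact ⟨(Grow.refl h.pool h.tab).congr rfl rfl rfl rfl rfl rfl,
        fun i' hi' => absurd hi' (Nat.not_lt_zero _)⟩
  · intro v hv M1 hf1 hv1 hI
    obtain ⟨g1, d1⟩ := hI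
    have a6 : M1.a 6 = M.a 6 := hf1.a 6 rfl
    have a7 : M1.a 7 = M.a 7 := hf1.a 7 rfl
    obtain ⟨hC, heg⟩ := h.grow (np := np) g1 (hf1.v 0 rfl) (hf1.v 3 rfl) (hf1.v 6 rfl)
      (hf1.v 10 rfl) a6 a7
    have v10 : M1.v 10 = M.v 10 := hf1.v 10 rfl
    have hp := schPoint_spec hC ⟨v, hv⟩ hv1
    rw [v10, heg, a6, a7] at hp
    refine hp.post ?_
    intro M2 hf2 hQ
    obtain ⟨g2, d2⟩ := hQ
    refine ⟨(g1.trans g2).congr rfl rfl rfl rfl rfl rfl, ?_⟩
    intro v' hv' h6 s hs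
    rcases Nat.lt_succ_iff_lt_or_eq.1 hv' with h2 | h2
    · exact g2.le (d1 v' h2 h6 s hs)
    · have : v' = ⟨v, hv⟩ := Fin.ext h2
      rw [this] at h6 ⊢
      exact d2 h6 s hs
  · intro M2 hf2 _ hI2
    exact ⟨hI2.1, fun v => hI2.2 v v.2⟩

end Pool.Agent.W984.OL
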