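import Pool.Agent.W984.OL.Main

set_option autoImplicit false
set_option linter.unusedSimpArgs false
set_option linter.unusedVariables false

/-! The numbers occurring in a computation are small. -/

namespace Pool.Agent.W984.OL

open Equiv

/-- Largest constant of an instruction. -/
def Op.cst : Op → ℕ
  | .const _ c => c
  | _ => 0

/-- Bound for the constants of a program. -/
def Prog.cst : Prog → ℕ
  | .skip => 0
  | .op o => o.cst
  | .seq p q => p.cst + q.cst
  | .ite _ p q => p.cst + q.cst
  | .loop _ p => p.cst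

/-- All numbers in the memory are at most `B`. -/
def Bd (B : ℕ) (M : Mem) : Prop := (∀ x, M.v x ≤ B) ∧ ∀ r i j l, M.a r i j l ≤ B

theorem Bd.mono {B B' : ℕ} {M : Mem} (h : Bd B M) (hB : B ≤ B') : Bd B' M :=
  ⟨fun x => (h.1 x).trans hB, fun r i j l => (h.2 r i j l).trans hB⟩

theorem Bd.setV {B x n : ℕ} {M : Mem} (h : Bd B M) (hn : n ≤ B) : Bd B (M.setV x n) := by
  refine ⟨fun y => ?_, h.2⟩
  rw [setV_v]
  split_ifs
  · exact hn
  · exact h.1 y

theorem Bd.exec {B C : ℕ} {M : Mem} (o : Op) (h : Bd B M) (hC : C ≤ B) (ho : o.cst ≤ C) :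
    Bd (B + 1) (o.exec M) := by
  have h' := h.mono (Nat.le_succ B)
  cases o with
  | const x c => exact h'.setV (by simp only [Op.cst] at ho; omega)
  | copy x y => exact h'.setV (h'.1 y)
  | succ x => exact h'.setV (Nat.succ_le_succ (h.1 x))
  | pred x => exact h'.setV ((Nat.sub_le _ _).trans (h'.1 x))
  | load x r i j l => exact h'.setV (h'.2 _ _ _ _)
  | store r i j l x =>
    refine ⟨h'.1, fun r' i' j' l' => ?_⟩
    simp only [Op.exec]
    rw [setA_a]
    split_ifs
    · exact h'.1 x
    · exact h'.2 _ _ _ _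
  | emit x => exact h'

theorem Bd.step {B C : ℕ} {c : Config} (h : Bd B c.2) (hC : C ≤ B) (hc : ∀ p ∈ c.1, p.cst ≤ C) :
    Bd (B + 1) (step c).2 ∧ ∀ p ∈ (step c).1, p.cst ≤ C := by
  obtain ⟨K, M⟩ := c
  have h' := h.mono (Nat.le_succ B)
  cases K with
  | nil => exact ⟨h', hc⟩
  | cons p K =>
    simp only [List.mem_cons, forall_eq_or_imp] at hc
    cases p with
    | skip => exact ⟨h', hc.2⟩
    | op o => exact ⟨h.exec o hC hc.1, hc.2⟩
    | seq p q =>
      refine ⟨h', ?_⟩
      have := hc.1
      simp only [Prog.cst] at this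
      simp only [OL.step, List.mem_cons, forall_eq_or_imp]
      exact ⟨by omega, by omega, hc.2⟩
    | ite t p q =>
      have := hc.1
      simp only [Prog.cst] at this
      simp only [OL.step]
      split_ifs
      · simp only [List.mem_cons, forall_eq_or_imp]
        exact ⟨h', by omega, hc.2⟩
      · simp only [List.mem_cons, forall_eq_or_imp]
        exact ⟨h', by omega, hc.2⟩
    | loop t p =>
      have := hc.1
      simp only [OL.step]
      split_ifs
      · simp only [List.mem_cons, forall_eq_or_imp]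
        exact ⟨h', by simpa [Prog.cst] using this, this, hc.2⟩
      · exact ⟨h', hc.2⟩

theorem Bd.steps {B C : ℕ} {c : Config} (h : Bd B c.2) (hC : C ≤ B)
    (hc : ∀ p ∈ c.1, p.cst ≤ C) (t : ℕ) :
    Bd (B + t) (OL.step^[t] c).2 ∧ ∀ p ∈ (OL.step^[t] c).1, p.cst ≤ C := by
  induction t with
  | zero => exact ⟨h, hc⟩
  | succ t ih =>
    rw [Function.iterate_succ_apply']
    exact ih.1.step (by omega) ih.2

theorem halted_stays {c : Config} {T : ℕ} (h : (step^[T] c).1 = []) (t : ℕ) (ht : T ≤ t) :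
    step^[t] c = step^[T] c := by
  obtain ⟨d, rfl⟩ := Nat.exists_eq_add_of_le ht
  clear ht
  induction d with
  | zero => rfl
  | succ d ih =>
    rw [← Nat.add_assoc, Function.iterate_succ_apply', ih]
    generalize step^[T] c = c' at h
    obtain ⟨K, M⟩ := c'
    change K = [] at h
    subst h
    rfl

theorem ListsWords.halts {D : ℕ} : ∀ {ws : List (List ℕ)} {c : Config}, ListsWords D ws c →
    ∃ T ≤ (ws.length + 1) * D, (step^[T] c).1 = []
  | [], c, h => by
    obtain ⟨t, ht, h1, -⟩ := h
    exact ⟨t, by simpa using ht, h1⟩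
  | w :: ws, c, h => by
    obtain ⟨t, ht, -, h2⟩ := h
    obtain ⟨T, hT, h3⟩ := h2.halts
    refine ⟨T + t, ?_, ?_⟩
    · rw [List.length_cons]
      calc T + t ≤ (ws.length + 1) * D + D := by omega
        _ = (ws.length + 1 + 1) * D := by ring
    · rw [Function.iterate_add_apply]
      exact h3

theorem ListsWords.mono {D D' : ℕ} (hD : D ≤ D') : ∀ {ws : List (List ℕ)} {c : Config},
    ListsWords D ws c → ListsWords D' ws c
  | [], c, h => by
    obtain ⟨t, ht, h1⟩ := h
    exact ⟨t, ht.trans hD, h1⟩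
  | w :: ws, c, h => by
    obtain ⟨t, ht, h1, h2⟩ := h
    exact ⟨t, ht.trans hD, h1, h2.mono hD⟩

theorem input_bd (k m : ℕ) (S : List (Perm (Fin m))) :
    Bd (m + k + S.length) (input k m S) := by
  refine ⟨fun x => ?_, fun r i j l => ?_⟩
  · change (if x = 0 then m else if x = 1 then k else if x = 2 then S.length else 0) ≤ _
    split_ifs <;> omega
  · change (if r = 0 ∧ l = 0 then
      (if h : i < S.length ∧ j < m then ((S.get ⟨i, h.1⟩) ⟨j, h.2⟩ : ℕ) else 0)
      else 0) ≤ _
    split_ifs with h1 h2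
    · have := ((S.get ⟨i, h2.1⟩) ⟨j, h2.2⟩).2
      omega
    · omega
    · omega

theorem main2 : ∃ (p : Prog) (c : ℕ), ∀ (k m : ℕ), 2 ≤ k → ∀ S : List (Perm (Fin m)),
    (∃ ws : List (Fin m → Fin k),
      (∀ α : Fin m → Fin k, ∃! i : Fin ws.length, SameOrbit S α (ws.get i)) ∧
      ListsWords ((m + k + S.length + 2) ^ c)
        (ws.map (fun w => List.ofFn (fun x => (w x : ℕ)))) ([p], input k m S)) ∧
    ∀ t, (∀ x, (step^[t] ([p], input k m S)).2.v x < 2 ^ (m + k + S.length + 2) ^ c) ∧
      ∀ r i j l, (step^[t] ([p], input k m S)).2.a r i j l < 2 ^ (m + k + S.length + 2) ^ c := by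
  obtain ⟨p, c, hpc⟩ := main
  have hPB : PB (fun m k s => (m + k + s + 2) * m + 1 + (c * (m + k + s + 2)) +
      (p.cst + (m + k + s)) + 1) := by
    have h2 : PB (fun m k s => m + k + s + 2) :=
      ((PB.m.add PB.k).add PB.s).add (PB.const 2)
    exact ((((h2.mul PB.m).add (PB.const 1)).add ((PB.const c).mul h2)).add
      ((PB.const p.cst).add ((PB.m.add PB.k).add PB.s))).add (PB.const 1)
  obtain ⟨d, hd⟩ := hPB
  refine ⟨p, c + d, fun k m hk S => ?_⟩
  obtain ⟨ws, hws, hlist⟩ := hpc k m hk S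
  set X := m + k + S.length + 2 with hX
  have hX1 : 1 ≤ X := by omega
  have hle1 : X ^ c ≤ X ^ (c + d) := Nat.pow_le_pow_right hX1 (by omega)
  have hle2 : X ^ d ≤ X ^ (c + d) := Nat.pow_le_pow_right hX1 (by omega)
  refine ⟨⟨ws, hws, hlist.mono hle1⟩, ?_⟩
  -- the number of words
  have hlen : ws.length ≤ k ^ m := by
    have hinj : Function.Injective ws.get := by
      intro i j hij
      obtain ⟨l, -, hl⟩ := hws (ws.get i)
      have h1 : SameOrbit S (ws.get i) (ws.get i) := ⟨1, one_mem _, fun x => rfl⟩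
      have h2 : SameOrbit S (ws.get i) (ws.get j) := by rw [← hij]; exact h1
      rw [hl i h1, hl j h2]
    have := Fintype.card_le_of_injective _ hinj
    simpa using this
  obtain ⟨T, hT, hhalt⟩ := hlist.halts
  rw [List.length_map] at hT
  have hTle : T ≤ (k ^ m + 1) * X ^ c := hT.trans (Nat.mul_le_mul_right _ (by omega))
  have hbig : (p.cst + (m + k + S.length)) + T < 2 ^ X ^ (c + d) := by
    have h1 : X ≤ 2 ^ X := Nat.lt_two_pow_self.le
    have h2 : k ^ m + 1 ≤ 2 ^ (X * m + 1) := by
      have : k ^ m ≤ 2 ^ (X * m) := by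
        rw [pow_mul]
        exact Nat.pow_le_pow_left ((by omega : k ≤ X).trans h1) m
      have h3 : 1 ≤ 2 ^ (X * m) := Nat.one_le_two_pow
      rw [pow_succ]
      omega
    have h3 : X ^ c ≤ 2 ^ (c * X) := by
      rw [mul_comm, pow_mul]
      exact Nat.pow_le_pow_left h1 c
    have h4 : T ≤ 2 ^ (X * m + 1 + c * X) := by
      rw [pow_add]
      exact hTle.trans (Nat.mul_le_mul h2 h3)
    have h5 : p.cst + (m + k + S.length) < 2 ^ (p.cst + (m + k + S.length)) :=
      Nat.lt_two_pow_self
    have h6 : T ≤ 2 ^ (X * m + 1 + c * X + (p.cst + (m + k + S.length))) :=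
      h4.trans (Nat.pow_le_pow_right (by norm_num) (by omega))
    have h7 : p.cst + (m + k + S.length) <
        2 ^ (X * m + 1 + c * X + (p.cst + (m + k + S.length))) :=
      h5.trans_le (Nat.pow_le_pow_right (by norm_num) (by omega))
    have h8 := hd m k S.length
    simp only at h8
    calc p.cst + (m + k + S.length) + T
        < 2 ^ (X * m + 1 + c * X + (p.cst + (m + k + S.length))) +
          2 ^ (X * m + 1 + c * X + (p.cst + (m + k + S.length))) := by omega
      _ = 2 ^ (X * m + 1 + c * X + (p.cst + (m + k + S.length)) + 1) := by rw [pow_succ]; ring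
      _ ≤ 2 ^ X ^ (c + d) := Nat.pow_le_pow_right (by norm_num) (h8.trans hle2)
  intro t
  have hb0 : Bd (p.cst + (m + k + S.length)) ([p], input k m S).2 :=
    (input_bd k m S).mono (by omega)
  have hbt : Bd (p.cst + (m + k + S.length) + T) (step^[t] ([p], input k m S)).2 := by
    rcases le_total t T with h | h
    · exact (hb0.steps (C := p.cst) (by omega) (by simp) t).1.mono (by omega)
    · rw [halted_stays hhalt t h]
      exact (hb0.steps (C := p.cst) (by omega) (by simp) T).1
  exact ⟨fun x => (hbt.1 x).trans_lt hbig, fun r i j l => (hbt.2 r i j l).trans_lt hbig⟩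

end Pool.Agent.W984.OL
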